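import Pool.Agent.H72.KarpS.Defs
import Pool.Agent.H72.Karp.ColDefs

/-!
Definitions: approximation factors.
-/

set_option autoImplicit false

namespace Pool.Agent.H72.KarpS

open Finset Pool.Agent.H85.Online Pool.Agent.H72.Karp

variable {n : ℕ}

/-- The list of sets `L` is within the factor `r` of the optimum for both problems: it has at most
`r χ(G)` members, and one of them has at least `α(G) / r` elements. -/
def Within (r : ℝ) (G : SimpleGraph (Fin n)) (L : List (Finset (Fin n))) : Prop :=
  (L.length : ℝ) ≤ r * G.chromaticNumber.toNat ∧ ∃ I ∈ L, (G.indepNum : ℝ) ≤ r * I.card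

/-- The probability, over `G(m,p)` and a uniform seed, that the output is an independent set with
at least `α(G) / r` vertices. -/
noncomputable def setApprox (A : SetAlg) (p : ℝ) (m : ℕ) (r : ℝ) : ℝ :=
  (∑ ρ : Fin (A.seeds m), Prob p (fun G : SimpleGraph (Fin m) =>
    Indep G (A.out m G ρ) ∧ (G.indepNum : ℝ) ≤ r * ((A.out m G ρ).card : ℝ))) / A.seeds m

/-- The probability, over `G(m,p)` and a uniform seed, that the output is a proper colouring with
at most `r χ(G)` colours. -/
noncomputable def colApprox (B : ColAlg) (p : ℝ) (m : ℕ) (r : ℝ) : ℝ :=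
  (∑ ρ : Fin (B.seeds m), Prob p (fun G : SimpleGraph (Fin m) =>
    (∀ u v, G.Adj u v → B.out m G ρ u ≠ B.out m G ρ v) ∧
      (((univ.image (B.out m G ρ)).card : ℕ) : ℝ) ≤ r * G.chromaticNumber.toNat)) / B.seeds m

open Classical in
/-- The fraction of the seeds for which the output of the procedure is not within the factor `r`
of the optimum for both problems. -/
noncomputable def badFrac (A : SetAlg) (p ε γ θ : ℝ) (R K n : ℕ) (r : ℝ)
    (G : SimpleGraph (Fin n)) : ℝ :=
  ((univ.filter fun ω : Seeds A γ R K n =>
    ¬ Within r G (colouringS A p ε γ θ R K n G ω)).card : ℝ) / Fintype.card (Seeds A γ R K n)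

end Pool.Agent.H72.KarpS
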