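import Pool.Agent.H72.KarpS.AlphaL
import Pool.Agent.H72.KarpS.DefsR
import Pool.Agent.H72.Karp.Col

/-!
The final statement in terms of approximation factors.
-/

set_option autoImplicit false
set_option linter.unusedSectionVars false

namespace Pool.Agent.H72.KarpS

open Finset Pool.Agent.H85.Online Pool.Agent.H72.Karp Filter

variable {p : ℝ} {n : ℕ}

/-! ### independent sets and colourings -/

theorem indep_le (G : SimpleGraph (Fin n)) {I : Finset (Fin n)} (hI : Indep G I) :
    I.card ≤ G.indepNum := by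
  refine SimpleGraph.IsIndepSet.card_le_indepNum ?_
  intro u hu v hv _
  exact hI u hu v hv

theorem exists_max_indep (G : SimpleGraph (Fin n)) :
    ∃ I : Finset (Fin n), Indep G I ∧ I.card = G.indepNum := by
  obtain ⟨s, hs⟩ := G.exists_isNIndepSet_indepNum
  refine ⟨s, ?_, hs.card_eq⟩
  intro u hu v hv hadj
  exact hs.isIndepSet hu hv hadj.ne hadj

theorem chi_le_length (G : SimpleGraph (Fin n)) {L : List (Finset (Fin n))}
    (hL : IsColouring G L) : G.chromaticNumber.toNat ≤ L.length := by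
  classical
  have h1 : ∀ v, ∃ i : Fin L.length, v ∈ L.get i := by
    intro v
    obtain ⟨I, hI, hv⟩ := hL.2.2 v
    obtain ⟨i, hi⟩ := List.mem_iff_get.1 hI
    exact ⟨i, by rw [hi]; exact hv⟩
  choose f hf using h1
  have hcol : G.Colorable L.length := by
    refine ⟨SimpleGraph.Coloring.mk f ?_⟩
    intro u v hadj he
    have hv := hf v
    rw [← he] at hv
    exact hL.1 _ (List.get_mem L (f u)) u (hf u) v hv hadj
  exact ENat.toNat_le_of_le_natCast hcol.chromaticNumber_le

theorem exists_class (G : SimpleGraph (Fin n)) (hn : 0 < n) {L : List (Finset (Fin n))}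
    (hL : IsColouring G L) : ∃ I ∈ L, n ≤ L.length * I.card := by
  classical
  have hne : L ≠ [] := by
    rintro rfl
    obtain ⟨I, hI, _⟩ := hL.2.2 ⟨0, hn⟩
    simp at hI
  have hne' : L.toFinset.Nonempty := by
    obtain ⟨I, hI⟩ := List.exists_mem_of_ne_nil L hne
    exact ⟨I, List.mem_toFinset.2 hI⟩
  obtain ⟨I, hI, hmax⟩ := Finset.exists_max_image L.toFinset (fun I => I.card) hne'
  refine ⟨I, List.mem_toFinset.1 hI, ?_⟩
  have hsum : ∀ L' : List (Finset (Fin n)), (covered L').card ≤ (L'.map Finset.card).sum := by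
    intro L'
    induction L' with
    | nil => simp [covered]
    | cons J L' ih =>
      have : covered (J :: L') = J ∪ covered L' := rfl
      rw [this, List.map_cons, List.sum_cons]
      exact (Finset.card_union_le _ _).trans (by omega)
  have hcov : ∀ (L' : List (Finset (Fin n))) (v : Fin n), (∃ J ∈ L', v ∈ J) → v ∈ covered L' := by
    intro L' v
    induction L' with
    | nil => simp
    | cons J L' ih =>
      rintro ⟨J', hJ', hv⟩
      have : covered (J :: L') = J ∪ covered L' := rfl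
      rw [this, Finset.mem_union]
      rcases List.mem_cons.1 hJ' with rfl | h
      · exact Or.inl hv
      · exact Or.inr (ih ⟨J', h, hv⟩)
  have h1 : (univ : Finset (Fin n)) ⊆ covered L := fun v _ => hcov L v (hL.2.2 v)
  have h2 := (Finset.card_le_card h1).trans (hsum L)
  rw [Finset.card_univ, Fintype.card_fin] at h2
  refine h2.trans ?_
  have h3 := List.sum_le_card_nsmul (L.map Finset.card) I.card (by
    intro x hx
    obtain ⟨J, hJ, rfl⟩ := List.mem_map.1 hx
    exact hmax J (List.mem_toFinset.2 hJ))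
  rw [List.length_map, smul_eq_mul] at h3
  exact h3

/-! ### the chromatic number -/

/-- exhaustive search for a largest independent set -/
noncomputable def maxAlg : SetAlg where
  seeds := fun _ => 1
  out := fun _ G _ => (exists_max_indep G).choose

theorem maxAlg_success (h0 : 0 < p) (h1 : p < 1) (m : ℕ) (s : ℝ) :
    Prob p (fun G : SimpleGraph (Fin m) => ∃ I : Finset (Fin m), Indep G I ∧ s ≤ I.card)
      ≤ maxAlg.success p m s := by
  unfold SetAlg.success maxAlg
  simp only [Nat.cast_one, div_one, Finset.univ_unique, Finset.sum_const, Finset.card_singleton,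
    one_smul]
  refine Prob_mono h0 h1 fun G hG => ?_
  obtain ⟨I, hI, hs⟩ := hG
  have hspec := (exists_max_indep G).choose_spec
  refine ⟨hspec.1, hs.trans ?_⟩
  have : I.card ≤ (exists_max_indep G).choose.card := by
    rw [hspec.2]
    exact indep_le G hI
  exact_mod_cast this

/-- The upper bound for the chromatic number of the random graph, except with probability smaller
than any fixed power of `1/n`. -/
theorem chi_upper (h0 : 0 < p) (h1 : p < 1) {δ : ℝ} (hδ : 0 < δ) {a : ℝ} (ha : 0 ≤ a) :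
    ∀ᶠ n : ℕ in atTop, Prob p (fun G : SimpleGraph (Fin n) =>
      ¬ (G.chromaticNumber.toNat : ℝ) ≤ (1 / 2 + δ) * (n / LL p n)) ≤ (n : ℝ) ^ (-a) := by
  classical
  set η : ℝ := min δ (1 / 2) with hη
  have hη0 : 0 < η := lt_min hδ (by norm_num)
  have hη1 : η ≤ 1 / 2 := min_le_right _ _
  have hηδ : η ≤ δ := min_le_left _ _
  obtain ⟨γ, θ, R, K, hγ, hγ4, _, hcore⟩ := coreS (p := p) h0 h1 (ε := 1 - η) (by linarith)
    (c := 1) zero_le_one (half_pos hδ)
  have hbig := (ord_tendsto hγ hγ4).eventually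
    (exists_indep_large (p := p) h0 h1 hη0 (by linarith))
  filter_upwards [hcore a ha, hbig, sizes hγ hγ4 one_pos, eventually_gt_atTop (max R 2),
    log_nat_tendsto.eventually_ge_atTop 1] with n e1 e2 e3 e4 e5
  obtain ⟨s1, s2, s3, s4⟩ := e3
  have hnr : (0 : ℝ) < n := by
    have : 0 < n := by omega
    exact_mod_cast this
  have hmpos : (0 : ℝ) < ord γ n := lt_of_lt_of_le (Real.rpow_pos_of_pos hnr _) s4
  obtain ⟨B, hB, hG⟩ := e1 maxAlg (by
    rw [Real.rpow_neg_one, ← one_div]
    refine e2.trans ((maxAlg_success h0 h1 _ _).trans (le_of_eq ?_))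
    congr 1
    ring)
  refine le_trans (Prob_mono h0 h1 fun G hbad => ?_) hB
  by_contra hnB
  have h2 := hG G hnB
  apply hbad
  have hne : Nonempty (Seeds maxAlg γ R K n) :=
    ⟨fun _ _ _ => (Equiv.refl _, fun _ => ⟨0, s2⟩, ⟨0, Nat.one_pos⟩)⟩
  have hcard : (0 : ℝ) < Fintype.card (Seeds maxAlg γ R K n) := by
    exact_mod_cast Fintype.card_pos
  have hex : ∃ ω : Seeds maxAlg γ R K n, ((colouringS maxAlg p (1 - η) γ θ R K n G ω).length : ℝ)
      ≤ (1 / (1 + (1 - η)) + δ / 2) * (n / LL p n) := by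
    by_contra hcon
    push Not at hcon
    have h3 : ∀ ω : Seeds maxAlg γ R K n,
        (if ((colouringS maxAlg p (1 - η) γ θ R K n G ω).length : ℝ)
          ≤ (1 / (1 + (1 - η)) + δ / 2) * (n / LL p n) then (0 : ℝ) else 1) = 1 :=
      fun ω => if_neg (not_le.2 (hcon ω))
    simp only [h3, Finset.sum_const, Finset.card_univ, nsmul_eq_mul, mul_one] at h2
    rw [div_self hcard.ne', le_div_iff₀ hnr, one_mul] at h2
    have h4 : n ≤ R := by exact_mod_cast h2
    omega
  obtain ⟨ω, hω⟩ := hex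
  have h3 := chi_le_length G (colouringS_ok maxAlg p (1 - η) γ θ R K n G ω)
  have h4 : (G.chromaticNumber.toNat : ℝ)
      ≤ ((colouringS maxAlg p (1 - η) γ θ R K n G ω).length : ℝ) := by exact_mod_cast h3
  refine h4.trans (hω.trans ?_)
  have hV : 0 ≤ (n : ℝ) / LL p n := by
    rw [LL_eq]
    have := neg_log_pos h0 h1
    positivity
  refine mul_le_mul_of_nonneg_right ?_ hV
  have h5 : 1 / (1 + (1 - η)) ≤ 1 / 2 + η / 2 := by
    rw [div_le_iff₀ (by linarith)]
    nlinarith
  linarith

/-! ### from approximation factors to sizes -/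

theorem setApprox_le (A : SetAlg) (h0 : 0 < p) (h1 : p < 1) {m : ℕ} {r s : ℝ} (hr : 0 < r) :
    setApprox A p m r ≤ A.success p m s + Prob p (fun G : SimpleGraph (Fin m) =>
      ¬ ∃ I : Finset (Fin m), Indep G I ∧ r * s ≤ I.card) := by
  set y := Prob p (fun G : SimpleGraph (Fin m) =>
      ¬ ∃ I : Finset (Fin m), Indep G I ∧ r * s ≤ I.card) with hy
  have hy0 : 0 ≤ y := Prob_nonneg h0 h1 _
  unfold setApprox SetAlg.success
  have h2 : ∀ ρ : Fin (A.seeds m), Prob p (fun G : SimpleGraph (Fin m) =>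
      Indep G (A.out m G ρ) ∧ (G.indepNum : ℝ) ≤ r * ((A.out m G ρ).card : ℝ))
      ≤ Prob p (fun G : SimpleGraph (Fin m) =>
        Indep G (A.out m G ρ) ∧ s ≤ ((A.out m G ρ).card : ℝ)) + y := by
    intro ρ
    refine le_trans (Prob_mono h0 h1 fun G hG => ?_) (Prob_or h0 h1 _ _)
    by_cases hex : ∃ I : Finset (Fin m), Indep G I ∧ r * s ≤ I.card
    · obtain ⟨I, hI, hs⟩ := hex
      refine Or.inl ⟨hG.1, ?_⟩
      have h3 : (I.card : ℝ) ≤ G.indepNum := by exact_mod_cast indep_le G hI
      exact le_of_mul_le_mul_left (hs.trans (h3.trans hG.2)) hr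
    · exact Or.inr hex
  rcases Nat.eq_zero_or_pos (A.seeds m) with hz | hpos
  · have hz' : (A.seeds m : ℝ) = 0 := by exact_mod_cast hz
    rw [hz', div_zero, div_zero, zero_add]
    exact hy0
  have hposr : (0 : ℝ) < A.seeds m := by exact_mod_cast hpos
  rw [div_add' _ _ _ hposr.ne']
  refine div_le_div_of_nonneg_right ?_ hposr.le
  refine (Finset.sum_le_sum fun ρ _ => h2 ρ).trans (le_of_eq ?_)
  rw [Finset.sum_add_distrib, Finset.sum_const, Finset.card_univ, Fintype.card_fin, nsmul_eq_mul]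
  ring

theorem colApprox_le (B : ColAlg) (h0 : 0 < p) (h1 : p < 1) {m : ℕ} {r t : ℝ} :
    colApprox B p m r ≤ B.success p m t + Prob p (fun G : SimpleGraph (Fin m) =>
      ¬ r * (G.chromaticNumber.toNat : ℝ) ≤ t) := by
  set y := Prob p (fun G : SimpleGraph (Fin m) =>
      ¬ r * (G.chromaticNumber.toNat : ℝ) ≤ t) with hy
  have hy0 : 0 ≤ y := Prob_nonneg h0 h1 _
  unfold colApprox ColAlg.success
  have h2 : ∀ ρ : Fin (B.seeds m), Prob p (fun G : SimpleGraph (Fin m) =>
      (∀ u v, G.Adj u v → B.out m G ρ u ≠ B.out m G ρ v) ∧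
        (((univ.image (B.out m G ρ)).card : ℕ) : ℝ) ≤ r * G.chromaticNumber.toNat)
      ≤ Prob p (fun G : SimpleGraph (Fin m) =>
      (∀ u v, G.Adj u v → B.out m G ρ u ≠ B.out m G ρ v) ∧
        (((univ.image (B.out m G ρ)).card : ℕ) : ℝ) ≤ t) + y := by
    intro ρ
    refine le_trans (Prob_mono h0 h1 fun G hG => ?_) (Prob_or h0 h1 _ _)
    by_cases hex : r * (G.chromaticNumber.toNat : ℝ) ≤ t
    · exact Or.inl ⟨hG.1, hG.2.trans hex⟩
    · exact Or.inr hex
  rcases Nat.eq_zero_or_pos (B.seeds m) with hz | hpos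
  · have hz' : (B.seeds m : ℝ) = 0 := by exact_mod_cast hz
    rw [hz', div_zero, div_zero, zero_add]
    exact hy0
  have hposr : (0 : ℝ) < B.seeds m := by exact_mod_cast hpos
  rw [div_add' _ _ _ hposr.ne']
  refine div_le_div_of_nonneg_right ?_ hposr.le
  refine (Finset.sum_le_sum fun ρ _ => h2 ρ).trans (le_of_eq ?_)
  rw [Finset.sum_add_distrib, Finset.sum_const, Finset.card_univ, Fintype.card_fin, nsmul_eq_mul]
  ring

/-- The procedure with the parameters from `coreS`, in terms of the factor. -/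
theorem within_of (h0 : 0 < p) (h1 : p < 1) {G : SimpleGraph (Fin n)} (hn : 1 < n)
    {L : List (Finset (Fin n))} (hL : IsColouring G L) {u r η : ℝ} (hu : 0 < u) (hη : 0 < η)
    (hlen : (L.length : ℝ) ≤ u * (n / LL p n)) (hr : (2 + η) * u ≤ r)
    (hind : ∀ I : Finset (Fin n), Indep G I → (I.card : ℝ) ≤ (2 + η) * LL p n) :
    Within r G L := by
  have hnr : (1 : ℝ) < n := by exact_mod_cast hn
  have hell : 0 < LL p n := by
    rw [LL_eq]
    exact div_pos (Real.log_pos hnr) (neg_log_pos h0 h1)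
  have hV : (n : ℝ) / LL p n ≤ (2 + η) * G.chromaticNumber.toNat := by
    rw [div_le_iff₀ hell]
    have := le_chi_mul G hind
    linarith
  refine ⟨?_, ?_⟩
  · calc (L.length : ℝ) ≤ u * (n / LL p n) := hlen
      _ ≤ u * ((2 + η) * G.chromaticNumber.toNat) := mul_le_mul_of_nonneg_left hV hu.le
      _ = ((2 + η) * u) * G.chromaticNumber.toNat := by ring
      _ ≤ r * G.chromaticNumber.toNat := mul_le_mul_of_nonneg_right hr (Nat.cast_nonneg _)
  · obtain ⟨I, hI, hnI⟩ := exists_class G (by omega) hL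
    refine ⟨I, hI, ?_⟩
    obtain ⟨J, hJ, hJc⟩ := exists_max_indep G
    have h2 := hind J hJ
    rw [hJc] at h2
    have h3 : (n : ℝ) ≤ (L.length : ℝ) * I.card := by exact_mod_cast hnI
    have h4 : (n : ℝ) ≤ u * (n / LL p n) * I.card :=
      h3.trans (mul_le_mul_of_nonneg_right hlen (Nat.cast_nonneg _))
    have h5 : LL p n ≤ u * I.card := by
      have e : u * (n / LL p n) * I.card = n * (u * I.card) / LL p n := by ring
      rw [e, le_div_iff₀ hell] at h4
      exact le_of_mul_le_mul_left h4 (by linarith)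
    calc (G.indepNum : ℝ) ≤ (2 + η) * LL p n := h2
      _ ≤ (2 + η) * (u * I.card) := mul_le_mul_of_nonneg_left h5 (by linarith)
      _ = ((2 + η) * u) * I.card := by ring
      _ ≤ r * I.card := mul_le_mul_of_nonneg_right hr (Nat.cast_nonneg _)

/-- The amplification theorem. -/
theorem finalS (h0 : 0 < p) (h1 : p < 1) {r : ℝ} (hr1 : 1 ≤ r) (hr2 : r < 2) {c : ℝ}
    (hc : 0 ≤ c) {δ : ℝ} (hδ : 0 < δ) :
    ∃ (ε γ θ : ℝ) (R K : ℕ), 0 < ε ∧ 0 < γ ∧ γ ≤ 1 / 4 ∧ 0 < θ ∧ ∀ a : ℝ,
      ∀ᶠ n : ℕ in atTop,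
        (∀ A : SetAlg, (ord γ n : ℝ) ^ (-c) ≤ setApprox A p (ord γ n) r →
          Prob p (fun G : SimpleGraph (Fin n) =>
            (R : ℝ) / n < badFrac A p ε γ θ R K n (r + δ) G) ≤ (n : ℝ) ^ (-a)) ∧
        (∀ B : ColAlg, (ord γ n : ℝ) ^ (-c) ≤ colApprox B p (ord γ n) r →
          Prob p (fun G : SimpleGraph (Fin n) =>
            (R : ℝ) / n < badFrac B.toSet p ε γ θ R K n (r + δ) G) ≤ (n : ℝ) ^ (-a)) := by
  classical
  set δ1 : ℝ := min δ (2 - r) with hδ1
  have hδ10 : 0 < δ1 := lt_min hδ (by linarith)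
  have hδ1δ : δ1 ≤ δ := min_le_left _ _
  have hδ1r : δ1 ≤ 2 - r := min_le_right _ _
  set ε : ℝ := 2 / (r + δ1 / 2) - 1 with hε
  have hpos : 0 < r + δ1 / 2 := by linarith
  have h1ε : 1 + ε = 2 / (r + δ1 / 2) := by rw [hε]; ring
  have hε0 : 0 < ε := by
    rw [hε, sub_pos, lt_div_iff₀ hpos]
    linarith
  have hinv : 1 / (1 + ε) = r / 2 + δ1 / 4 := by
    rw [h1ε, one_div_div]
    ring
  have hrε : r * (1 + ε) < 2 := by
    rw [h1ε, ← mul_div_assoc, div_lt_iff₀ hpos]
    nlinarith
  -- the parameter for the independence number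
  set η1 : ℝ := min (2 - r * (1 + ε)) (1 / 2) with hη1
  have hη10 : 0 < η1 := lt_min (by linarith) (by norm_num)
  have hη11 : η1 ≤ 1 / 2 := min_le_right _ _
  have hη12 : η1 ≤ 2 - r * (1 + ε) := min_le_left _ _
  -- the parameter for the chromatic number
  set η2 : ℝ := 1 / (r * (1 + ε)) - 1 / 2 with hη2
  have hrεpos : 0 < r * (1 + ε) := mul_pos (by linarith) (by linarith)
  have hη20 : 0 < η2 := by
    rw [hη2, sub_pos, div_lt_div_iff₀ (by norm_num) hrεpos]
    linarith
  obtain ⟨γ, θ, R, K, hγ, hγ4, hθ, hcore⟩ := coreS (p := p) h0 h1 hε0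
    (c := c + 1) (by linarith) (show 0 < δ1 / 16 by positivity)
  refine ⟨ε, γ, θ, R, K, hε0, hγ, hγ4, hθ, fun a' => ?_⟩
  set a : ℝ := max a' 0 with ha
  have ha0 : 0 ≤ a := le_max_right _ _
  have haa : a' ≤ a := le_max_left _ _
  have hord := ord_tendsto hγ hγ4
  have hal := hord.eventually (alpha_low (p := p) h0 h1 hη10 (by linarith) (a := c + 1)
    (by linarith))
  have hch := hord.eventually (chi_upper (p := p) h0 h1 hη20 (a := c + 1) (by linarith))
  -- the conclusion for one algorithm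
  have key : ∀ᶠ n : ℕ in atTop, ∀ A : SetAlg, (ord γ n : ℝ) ^ (-(c + 1)) ≤
      A.success p (ord γ n) ((1 + ε) * LL p (ord γ n)) →
      Prob p (fun G : SimpleGraph (Fin n) =>
        (R : ℝ) / n < badFrac A p ε γ θ R K n (r + δ) G) ≤ (n : ℝ) ^ (-a') := by
    filter_upwards [hcore (a + 1) (by linarith), alpha_bound' (p := p) h0 h1
      (show 0 < δ1 / 16 by positivity) (a + 1), eventually_ge_atTop 2] with n e1 e2 e3 A hA
    obtain ⟨B, hB, hG⟩ := e1 A hA
    have hnr2 : (2 : ℝ) ≤ n := by exact_mod_cast e3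
    have hnr : (0 : ℝ) < n := by linarith
    refine le_trans (Prob_mono h0 h1 fun G hbad => ?_)
      (((Prob_or h0 h1 B _).trans (add_le_add hB e2)).trans ?_)
    · by_contra hcon
      push Not at hcon
      obtain ⟨hnB, hind⟩ := hcon
      have h2 := hG G hnB
      refine absurd hbad (not_lt.2 (le_trans ?_ h2))
      unfold badFrac
      refine div_le_div_of_nonneg_right ?_ (Nat.cast_nonneg _)
      rw [Finset.card_filter]
      push_cast
      refine Finset.sum_le_sum fun ω _ => ?_
      by_cases hlen : ((colouringS A p ε γ θ R K n G ω).length : ℝ)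
          ≤ (1 / (1 + ε) + δ1 / 16) * (n / LL p n)
      · rw [if_pos hlen, if_neg]
        rw [not_not]
        refine within_of h0 h1 (by omega) (colouringS_ok A p ε γ θ R K n G ω)
          (u := 1 / (1 + ε) + δ1 / 16) (η := δ1 / 16) (by rw [hinv]; linarith) (by positivity)
          hlen ?_ hind
        rw [hinv]
        nlinarith
      · rw [if_neg hlen]
        split_ifs <;> norm_num
    · have e : (n : ℝ) ^ (-a) = n * (n : ℝ) ^ (-(a + 1)) := by
        rw [mul_comm, ← Real.rpow_add_one hnr.ne']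
        congr 1
        ring
      have h3 : 0 ≤ (n : ℝ) ^ (-(a + 1)) := Real.rpow_nonneg hnr.le _
      have h4 : (n : ℝ) ^ (-a) ≤ (n : ℝ) ^ (-a') :=
        Real.rpow_le_rpow_of_exponent_le (by linarith) (by linarith)
      refine le_trans ?_ h4
      rw [e]
      nlinarith
  filter_upwards [key, hal, hch, hord.eventually (eventually_ge_atTop 2)] with n k1 k2 k3 k4
  set m := ord γ n with hm
  have hmr2 : (2 : ℝ) ≤ m := by exact_mod_cast k4
  have hmr : (0 : ℝ) < m := by linarith
  have hLLm : 0 < LL p m := by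
    rw [LL_eq]
    exact div_pos (Real.log_pos (by linarith)) (neg_log_pos h0 h1)
  have hhalf : 2 * (m : ℝ) ^ (-(c + 1)) ≤ (m : ℝ) ^ (-c) := by
    have e : (m : ℝ) ^ (-c) = m * (m : ℝ) ^ (-(c + 1)) := by
      rw [mul_comm, ← Real.rpow_add_one hmr.ne']
      congr 1
      ring
    rw [e]
    exact mul_le_mul_of_nonneg_right hmr2 (Real.rpow_nonneg hmr.le _)
  constructor
  · intro A hA
    refine k1 A ?_
    have h2 := setApprox_le A h0 h1 (m := m) (r := r) (s := (1 + ε) * LL p m) (by linarith)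
    have h3 : Prob p (fun G : SimpleGraph (Fin m) =>
        ¬ ∃ I : Finset (Fin m), Indep G I ∧ r * ((1 + ε) * LL p m) ≤ I.card)
        ≤ (m : ℝ) ^ (-(c + 1)) := by
      refine le_trans (Prob_mono h0 h1 fun G hG => ?_) k2
      rintro ⟨I, hI, hs⟩
      apply hG
      refine ⟨I, hI, le_trans ?_ hs⟩
      rw [← mul_assoc]
      exact mul_le_mul_of_nonneg_right (by linarith) hLLm.le
    linarith
  · intro B hB
    refine k1 B.toSet ?_
    have h2 := colApprox_le B h0 h1 (m := m) (r := r) (t := m / ((1 + ε) * LL p m))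
    have h3 : Prob p (fun G : SimpleGraph (Fin m) =>
        ¬ r * (G.chromaticNumber.toNat : ℝ) ≤ m / ((1 + ε) * LL p m))
        ≤ (m : ℝ) ^ (-(c + 1)) := by
      refine le_trans (Prob_mono h0 h1 fun G hG => ?_) k3
      intro hs
      apply hG
      calc r * (G.chromaticNumber.toNat : ℝ) ≤ r * ((1 / 2 + η2) * (m / LL p m)) :=
            mul_le_mul_of_nonneg_left hs (by linarith)
        _ = m / ((1 + ε) * LL p m) := by
            rw [hη2]
            have h1ε0 : 1 + ε ≠ 0 := by linarith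
            have hr0 : r ≠ 0 := by linarith
            field_simp
            ring
    have h4 := toSet_success B h0 h1 (m := m) (by omega) (s := (1 + ε) * LL p m)
      (mul_pos (by linarith) hLLm)
    linarith

end Pool.Agent.H72.KarpS
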