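import Pool.Agent.H72.KarpS.PeelS

/-!
The independence number of the random graph: bounds which hold except with probability smaller than
any fixed power of `1/n`.
-/

set_option autoImplicit false
set_option linter.unusedSectionVars false

namespace Pool.Agent.H72.KarpS

open Finset Pool.Agent.H85.Online Pool.Agent.H72.Karp Filter

variable {p : ℝ} {n : ℕ}

theorem alpha_bound' (h0 : 0 < p) (h1 : p < 1) {η : ℝ} (hη : 0 < η) (A : ℝ) :
    ∀ᶠ n : ℕ in atTop, Prob p (fun G : SimpleGraph (Fin n) =>
      ¬ ∀ I : Finset (Fin n), Indep G I → (I.card : ℝ) ≤ (2 + η) * LL p n)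
        ≤ (n : ℝ) ^ (-A) := by
  classical
  set a : ℝ := -Real.log (1 - p) with ha
  have ha0 : 0 < a := neg_log_pos h0 h1
  have hea : Real.exp (-a) = 1 - p := by
    rw [ha, neg_neg, Real.exp_log (by linarith)]
  filter_upwards [log_nat_tendsto.eventually_ge_atTop (2 * a / η), eventually_ge_atTop 2,
    log_nat_tendsto.eventually_ge_atTop a,
    log_nat_tendsto.eventually_ge_atTop (a * (4 * A / η))] with n e1 e2 e3 e4
  have hn0 : (0 : ℝ) < n := by
    exact_mod_cast (show 0 < n by omega)
  set lam : ℝ := Real.log (n : ℝ) with hlam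
  have hlam0 : 0 < lam := lt_of_lt_of_le ha0 e3
  have hLL : LL p n = lam / a := LL_eq n
  set r : ℕ := ⌈(2 + η) * LL p n⌉₊ with hr
  have hr1 : (2 + η) * LL p n ≤ r := Nat.le_ceil _
  calc Prob p (fun G : SimpleGraph (Fin n) =>
      ¬ ∀ I : Finset (Fin n), Indep G I → (I.card : ℝ) ≤ (2 + η) * LL p n)
      ≤ Prob p (fun G : SimpleGraph (Fin n) =>
        ∃ I ∈ Finset.powersetCard r (Finset.univ : Finset (Fin n)), Indep G I) := by
        refine Prob_mono h0 h1 fun G hG => ?_
        push Not at hG
        obtain ⟨I, hI, hIr⟩ := hG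
        have hrI : r ≤ I.card := Nat.ceil_le.2 hIr.le
        obtain ⟨I', hI', hc⟩ := Finset.exists_subset_card_eq hrI
        refine ⟨I', Finset.mem_powersetCard.2 ⟨Finset.subset_univ _, hc⟩, ?_⟩
        exact fun u hu v hv => hI u (hI' hu) v (hI' hv)
    _ ≤ ∑ I ∈ Finset.powersetCard r (Finset.univ : Finset (Fin n)),
          Prob p (fun G : SimpleGraph (Fin n) => Indep G I) := Prob_exists h0 h1 _ _
    _ = (n.choose r) * (1 - p) ^ (r.choose 2) := by
        rw [Finset.sum_congr rfl fun I hI => by
          rw [Prob_indep, (Finset.mem_powersetCard.1 hI).2], Finset.sum_const,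
          Finset.card_powersetCard, Finset.card_univ, Fintype.card_fin, nsmul_eq_mul]
    _ ≤ Real.exp (r * lam) * Real.exp (-(a * (r * (r - 1) / 2))) := by
        refine mul_le_mul ?_ ?_ (by positivity) (Real.exp_pos _).le
        · rw [Real.exp_nat_mul, Real.exp_log hn0]
          exact_mod_cast Nat.choose_le_pow n r
        · rw [← hea, ← Real.exp_nat_mul, Nat.cast_choose_two]
          apply le_of_eq
          congr 1
          ring
    _ = Real.exp (-(r * (a * (r - 1) / 2 - lam))) := by
        rw [← Real.exp_add]
        congr 1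
        ring
    _ ≤ Real.exp (lam * -A) := by
        apply Real.exp_le_exp.2
        have h2 : (2 + η) * lam ≤ a * r := by
          have := mul_le_mul_of_nonneg_left hr1 ha0.le
          rw [hLL] at this
          have e : a * ((2 + η) * (lam / a)) = (2 + η) * lam := by field_simp
          linarith
        have h3 : η / 4 * lam ≤ a * (r - 1) / 2 - lam := by
          have : 2 * a ≤ η * lam := by
            rw [div_le_iff₀ hη] at e1
            linarith
          linarith
        have h4 : 4 * A / η ≤ r := by
          have h5 : lam / a ≤ r := by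
            refine le_trans ?_ hr1
            rw [hLL]
            have : 0 ≤ lam / a := by positivity
            nlinarith
          refine le_trans ?_ h5
          rw [le_div_iff₀ ha0]
          linarith
        have h5 : (4 * A / η) * (η / 4 * lam) ≤ r * (a * (r - 1) / 2 - lam) :=
          mul_le_mul h4 h3 (by positivity) (by positivity)
        have h6 : (4 * A / η) * (η / 4 * lam) = lam * A := by
          field_simp
        linarith
    _ = (n : ℝ) ^ (-A) := by
        rw [Real.rpow_def_of_pos hn0]

/-! ### the second moment -/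

theorem insd_inter (S T : Finset (Fin n)) : insd S ∩ insd T = insd (S ∩ T) := by
  classical
  ext e
  unfold insd
  simp only [Finset.mem_inter, Finset.mem_filter, Finset.mem_univ, true_and]
  constructor
  · rintro ⟨h1, h2⟩ v hv
    exact ⟨h1 v hv, h2 v hv⟩
  · intro h
    exact ⟨fun v hv => (h v hv).1, fun v hv => (h v hv).2⟩

theorem Prob_indep_two (S T : Finset (Fin n)) :
    Prob p (fun G : SimpleGraph (Fin n) => Indep G S ∧ Indep G T)
      = (1 - p) ^ ((insd S ∪ insd T).card) := by
  classical
  rw [Prob_eq, EG_eq]
  have e1 : ∀ ω : Prs (Fin n) → Bool, (if Indep (gr ω) S ∧ Indep (gr ω) T then (1 : ℝ) else 0)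
      = ∏ e, if e ∈ insd S ∪ insd T then (if ω e then 0 else 1) else 1 := by
    intro ω
    have key : ∀ U : Finset (Fin n), Indep (gr ω) U ↔ ∀ e ∈ insd U, ω e = false := by
      intro U
      constructor
      · intro h e he
        obtain ⟨e, hd⟩ := e
        induction e using Sym2.ind with
        | _ a b =>
        have hin := (Finset.mem_filter.1 he).2
        have hnot := h a (hin a (Sym2.mem_mk_left a b)) b (hin b (Sym2.mem_mk_right a b))
        rw [gr_adj] at hnot
        by_contra hω
        rw [Bool.not_eq_false] at hω
        exact hnot ⟨hd, hω⟩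
      · intro h a ha b hb hab
        obtain ⟨hd, hω⟩ := (gr_adj ω a b).1 hab
        have := h ⟨s(a, b), hd⟩ (by
          refine Finset.mem_filter.2 ⟨Finset.mem_univ _, ?_⟩
          intro v hv
          rcases Sym2.mem_iff.1 hv with rfl | rfl <;> assumption)
        rw [this] at hω
        exact Bool.false_ne_true hω
    rw [Finset.prod_ite_mem, Finset.univ_inter]
    by_cases h : Indep (gr ω) S ∧ Indep (gr ω) T
    · rw [if_pos h]
      symm
      refine Finset.prod_eq_one fun e he => ?_
      have : ω e = false := by
        rcases Finset.mem_union.1 he with he | he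
        · exact (key S).1 h.1 e he
        · exact (key T).1 h.2 e he
      simp [this]
    · rw [if_neg h]
      have : ∃ e ∈ insd S ∪ insd T, ω e = true := by
        by_contra hcon
        push Not at hcon
        apply h
        refine ⟨(key S).2 fun e he => ?_, (key T).2 fun e he => ?_⟩
        · have := hcon e (Finset.mem_union_left _ he)
          simpa using this
        · have := hcon e (Finset.mem_union_right _ he)
          simpa using this
      obtain ⟨e, he, hω⟩ := this
      symm
      exact Finset.prod_eq_zero he (by simp [hω])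
  have e1' : (fun ω : Prs (Fin n) → Bool => (if Indep (gr ω) S ∧ Indep (gr ω) T then (1 : ℝ) else 0))
      = fun ω => ∏ e, if e ∈ insd S ∪ insd T then (if ω e then 0 else 1) else 1 := funext e1
  have e3 := EE_prod (p := p) (ι := Prs (Fin n))
    (fun e b => if e ∈ insd S ∪ insd T then (if b then (0 : ℝ) else 1) else 1)
  refine Eq.trans (b := EE p (fun ω : Prs (Fin n) → Bool =>
    ∏ e, if e ∈ insd S ∪ insd T then (if ω e then (0 : ℝ) else 1) else 1)) ?_ ?_
  · rw [← e1']
    congr 1
    funext ω
    by_cases h : Indep (gr ω) S ∧ Indep (gr ω) T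
    · rw [if_pos h, if_pos h]
    · rw [if_neg h, if_neg h]
  rw [e3]
  have e2 : ∀ e : Prs (Fin n), ∑ b : Bool, bw p b *
      (if e ∈ insd S ∪ insd T then (if b then (0 : ℝ) else 1) else 1)
      = if e ∈ insd S ∪ insd T then 1 - p else 1 := by
    intro e
    split_ifs
    · simp [bw]
    · simp [bw]
  simp only [e2]
  rw [Finset.prod_ite_mem, Finset.univ_inter, Finset.prod_const]

/-- the number of `k`-sets which meet a given `k`-set in `j` points -/
theorem card_meet_le {m k j : ℕ} (S : Finset (Fin m)) (hS : S.card = k) :
    ((univ.powersetCard k).filter fun T : Finset (Fin m) => (S ∩ T).card = j).card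
      ≤ k.choose j * (m - j).choose (k - j) := by
  classical
  have hsub : ((univ.powersetCard k).filter fun T : Finset (Fin m) => (S ∩ T).card = j)
      ⊆ (S.powersetCard j).biUnion fun J =>
        (univ.powersetCard k).filter fun T : Finset (Fin m) => J ⊆ T := by
    intro T hT
    rw [Finset.mem_filter] at hT
    rw [Finset.mem_biUnion]
    exact ⟨S ∩ T, Finset.mem_powersetCard.2 ⟨Finset.inter_subset_left, hT.2⟩,
      Finset.mem_filter.2 ⟨hT.1, Finset.inter_subset_right⟩⟩
  refine (Finset.card_le_card hsub).trans (Finset.card_biUnion_le.trans ?_)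
  have h2 : ∀ J ∈ S.powersetCard j,
      ((univ.powersetCard k).filter fun T : Finset (Fin m) => J ⊆ T).card
        ≤ (m - j).choose (k - j) := by
    intro J hJ
    have hJc := (Finset.mem_powersetCard.1 hJ).2
    have h3 : ((univ.powersetCard k).filter fun T : Finset (Fin m) => J ⊆ T).card
        ≤ ((univ \ J).powersetCard (k - j)).card := by
      refine Finset.card_le_card_of_injOn (fun T => T \ J) ?_ ?_
      · intro T hT
        rw [Finset.mem_coe, Finset.mem_filter, Finset.mem_powersetCard] at hT
        rw [Finset.mem_coe, Finset.mem_powersetCard]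
        refine ⟨Finset.sdiff_subset_sdiff (Finset.subset_univ _) (Finset.Subset.refl _), ?_⟩
        rw [Finset.card_sdiff_of_subset hT.2, hT.1.2, hJc]
      · intro T hT T' hT' he
        rw [Finset.mem_coe, Finset.mem_filter] at hT hT'
        have he' : T \ J = T' \ J := he
        rw [← Finset.sdiff_union_of_subset hT.2, he', Finset.sdiff_union_of_subset hT'.2]
    rw [Finset.card_powersetCard, Finset.card_sdiff_of_subset (Finset.subset_univ _),
      Finset.card_univ, Fintype.card_fin, hJc] at h3
    exact h3
  refine (Finset.sum_le_card_nsmul _ _ _ h2).trans ?_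
  rw [Finset.card_powersetCard, hS, smul_eq_mul]

/-- The second moment of the number of independent sets with `k` vertices. -/
theorem second_le (h0 : 0 < p) (h1 : p < 1) {m k : ℕ} (hkm : 2 * k ≤ m)
    (hb : 2 * (k : ℝ) ^ 2 * Real.exp (-Real.log (1 - p) * ((k : ℝ) - 1) / 2) ≤ m) (S : Finset (Fin m))
    (hS : S.card = k) :
    ∑ T ∈ (univ : Finset (Fin m)).powersetCard k,
      Prob p (fun G : SimpleGraph (Fin m) => Indep G S ∧ Indep G T)
      ≤ (k + 1) * ((m.choose k : ℕ) : ℝ) * ((1 - p) ^ (k.choose 2)) ^ 2 := by
  classical
  set a : ℝ := -Real.log (1 - p) with ha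
  have ha0 : 0 < a := neg_log_pos h0 h1
  have hea : Real.exp (-a) = 1 - p := by
    rw [ha, neg_neg, Real.exp_log (by linarith)]
  set Q : ℝ := (1 - p) ^ (k.choose 2) with hQ
  have hQ0 : 0 < Q := pow_pos (by linarith) _
  -- one term
  have hterm : ∀ T ∈ (univ : Finset (Fin m)).powersetCard k,
      Prob p (fun G : SimpleGraph (Fin m) => Indep G S ∧ Indep G T)
        = Q ^ 2 * Real.exp (a * (((S ∩ T).card.choose 2 : ℕ) : ℝ)) := by
    intro T hT
    have hTc := (Finset.mem_powersetCard.1 hT).2
    rw [Prob_indep_two]
    have hcard : (insd S ∪ insd T).card + (S ∩ T).card.choose 2 = k.choose 2 + k.choose 2 := by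
      have h2 := Finset.card_union_add_card_inter (insd S) (insd T)
      rw [insd_inter, card_insd, card_insd, card_insd, hS, hTc] at h2
      exact h2
    have h3 : (1 - p) ^ ((insd S ∪ insd T).card) * (1 - p) ^ ((S ∩ T).card.choose 2) = Q ^ 2 := by
      rw [← pow_add, hcard, pow_add, hQ]
      ring
    have h4 : (1 - p) ^ ((S ∩ T).card.choose 2) * Real.exp (a * (((S ∩ T).card.choose 2 : ℕ) : ℝ))
        = 1 := by
      rw [← hea, ← Real.exp_nat_mul, ← Real.exp_add]
      rw [show (((S ∩ T).card.choose 2 : ℕ) : ℝ) * -a
        + a * (((S ∩ T).card.choose 2 : ℕ) : ℝ) = 0 by ring, Real.exp_zero]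
    calc (1 - p) ^ ((insd S ∪ insd T).card)
        = (1 - p) ^ ((insd S ∪ insd T).card) * ((1 - p) ^ ((S ∩ T).card.choose 2)
          * Real.exp (a * (((S ∩ T).card.choose 2 : ℕ) : ℝ))) := by rw [h4, mul_one]
      _ = _ := by rw [← mul_assoc, h3]
  rw [Finset.sum_congr rfl hterm, ← Finset.mul_sum]
  have hsum : ∑ T ∈ (univ : Finset (Fin m)).powersetCard k,
      Real.exp (a * (((S ∩ T).card.choose 2 : ℕ) : ℝ)) ≤ (k + 1) * ((m.choose k : ℕ) : ℝ) := by
    have hmaps : ∀ T ∈ (univ : Finset (Fin m)).powersetCard k,
        (S ∩ T).card ∈ Finset.range (k + 1) := by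
      intro T _
      rw [Finset.mem_range]
      have := Finset.card_le_card (Finset.inter_subset_left (s₁ := S) (s₂ := T))
      omega
    rw [← Finset.sum_fiberwise_of_maps_to hmaps]
    calc ∑ j ∈ Finset.range (k + 1), ∑ T ∈ ((univ : Finset (Fin m)).powersetCard k).filter
          (fun T => (S ∩ T).card = j), Real.exp (a * (((S ∩ T).card.choose 2 : ℕ) : ℝ))
        ≤ ∑ _j ∈ Finset.range (k + 1), ((m.choose k : ℕ) : ℝ) := by
          refine Finset.sum_le_sum fun j hj => ?_
          rw [Finset.mem_range] at hj
          have hjk : j ≤ k := by omega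
          have e1 : ∑ T ∈ ((univ : Finset (Fin m)).powersetCard k).filter
              (fun T => (S ∩ T).card = j), Real.exp (a * (((S ∩ T).card.choose 2 : ℕ) : ℝ))
              = (((univ.powersetCard k).filter fun T : Finset (Fin m) =>
                (S ∩ T).card = j).card : ℝ) * Real.exp (a * ((j.choose 2 : ℕ) : ℝ)) := by
            rw [← nsmul_eq_mul, ← Finset.sum_const]
            refine Finset.sum_congr rfl fun T hT => ?_
            rw [(Finset.mem_filter.1 hT).2]
          rw [e1]
          have e2 : (((univ.powersetCard k).filter fun T : Finset (Fin m) =>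
                (S ∩ T).card = j).card : ℝ)
              ≤ (k.choose j : ℝ) * (((m - j).choose (k - j) : ℕ) : ℝ) := by
            exact_mod_cast card_meet_le S hS
          -- the ratio
          have hmj : (0 : ℝ) < (m.choose j : ℝ) := by
            exact_mod_cast Nat.choose_pos (by omega)
          have e3 : (m.choose j : ℝ) * (((m - j).choose (k - j) : ℕ) : ℝ)
              = (m.choose k : ℝ) * (k.choose j : ℝ) := by
            exact_mod_cast (Nat.choose_mul (n := m) (k := k) (s := j) hjk).symm
          have hcr := choose_ratio (m := m) k (show k ≤ m by omega) (j := j) (by omega)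
          have e4 : (((m - j).choose (k - j) : ℕ) : ℝ)
              ≤ (m.choose k : ℝ) * (2 * k / m) ^ j := by
            have : (((m - j).choose (k - j) : ℕ) : ℝ)
                = (m.choose k : ℝ) * ((k.choose j : ℝ) / (m.choose j : ℝ)) := by
              rw [← mul_div_assoc, eq_div_iff hmj.ne', mul_comm, e3]
            rw [this]
            exact mul_le_mul_of_nonneg_left hcr (by positivity)
          have e5 : (k.choose j : ℝ) ≤ (k : ℝ) ^ j := by exact_mod_cast Nat.choose_le_pow k j
          have e6 : Real.exp (a * ((j.choose 2 : ℕ) : ℝ))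
              ≤ Real.exp (a * ((k : ℝ) - 1) / 2) ^ j := by
            rw [← Real.exp_nat_mul]
            apply Real.exp_le_exp.2
            rw [Nat.cast_choose_two]
            have h5 : (j : ℝ) ≤ k := by exact_mod_cast hjk
            have h6 : (0 : ℝ) ≤ j := by positivity
            have h7 : (j : ℝ) * (j - 1) ≤ j * (k - 1) := mul_le_mul_of_nonneg_left (by linarith) h6
            have h8 := mul_le_mul_of_nonneg_left h7 ha0.le
            linarith
          rcases Nat.eq_zero_or_pos m with hm0 | hm0
          · have hk0 : k = 0 := by omega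
            have hj0 : j = 0 := by omega
            subst hj0
            have := card_meet_le (m := m) (k := k) (j := 0) S hS
            simp only [Nat.choose_zero_right, one_mul, Nat.sub_zero, Nat.choose_zero_succ] at this ⊢
            simp only [Nat.cast_zero, mul_zero, Real.exp_zero, mul_one]
            exact_mod_cast this
          have hmr : (0 : ℝ) < m := by exact_mod_cast hm0
          calc (((univ.powersetCard k).filter fun T : Finset (Fin m) =>
                (S ∩ T).card = j).card : ℝ) * Real.exp (a * ((j.choose 2 : ℕ) : ℝ))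
              ≤ ((k : ℝ) ^ j * ((m.choose k : ℝ) * (2 * k / m) ^ j))
                * Real.exp (a * ((k : ℝ) - 1) / 2) ^ j := by
                refine mul_le_mul (e2.trans (mul_le_mul e5 e4 (by positivity) (by positivity)))
                  e6 (Real.exp_pos _).le (by positivity)
            _ = (m.choose k : ℝ) * (2 * (k : ℝ) ^ 2 * Real.exp (a * ((k : ℝ) - 1) / 2) / m) ^ j := by
                rw [← mul_assoc, mul_comm ((k : ℝ) ^ j) (m.choose k : ℝ), mul_assoc, mul_assoc,
                  ← mul_pow, ← mul_pow]
                congr 2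
                ring
            _ ≤ (m.choose k : ℝ) * 1 := by
                refine mul_le_mul_of_nonneg_left ?_ (by positivity)
                refine pow_le_one₀ (by positivity) ?_
                rw [div_le_one hmr]
                exact hb
            _ = _ := mul_one _
      _ = _ := by
          rw [Finset.sum_const, Finset.card_range, nsmul_eq_mul]
          push_cast
          ring
  calc Q ^ 2 * ∑ T ∈ (univ : Finset (Fin m)).powersetCard k,
        Real.exp (a * (((S ∩ T).card.choose 2 : ℕ) : ℝ))
      ≤ Q ^ 2 * ((k + 1) * ((m.choose k : ℕ) : ℝ)) := by gcongr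
    _ = _ := by ring

end Pool.Agent.H72.KarpS
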