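import Pool.Agent.H72.KarpS.Exch

/-!
For almost every graph the sets found by the samples form a regular family.
-/

set_option autoImplicit false
set_option linter.unusedSectionVars false

namespace Pool.Agent.H72.KarpS

open Finset Pool.Agent.H85.Online Pool.Agent.H72.Karp Filter

variable {n m g : ℕ} {p : ℝ} (A : SetAlg) (k : ℕ)

/-- the number of small sets -/
theorem card_small (V : Type) [Fintype V] [DecidableEq V] (j1 : ℕ) :
    (univ.filter fun J : Finset V => J.card ≤ j1).card ≤ (Fintype.card V + 1) ^ j1 := by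
  classical
  set F : (Fin j1 → Option V) → Finset V := fun f => univ.filter fun v => ∃ i, f i = some v with hF
  have hsub : (univ.filter fun J : Finset V => J.card ≤ j1) ⊆ univ.image F := by
    intro J hJ
    have hJ1 := (Finset.mem_filter.1 hJ).2
    rw [Finset.mem_image]
    refine ⟨fun i => J.toList[(i : ℕ)]?, Finset.mem_univ _, ?_⟩
    ext v
    simp only [hF, Finset.mem_filter, Finset.mem_univ, true_and]
    constructor
    · rintro ⟨i, hi⟩
      have := List.mem_of_getElem? hi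
      rwa [Finset.mem_toList] at this
    · intro hv
      rw [← Finset.mem_toList] at hv
      obtain ⟨i, hi, he⟩ := List.mem_iff_getElem.1 hv
      have hi' : i < j1 := by
        rw [Finset.length_toList] at hi
        omega
      refine ⟨⟨i, hi'⟩, ?_⟩
      rw [← he]
      exact List.getElem?_eq_getElem hi
  refine (Finset.card_le_card hsub).trans (Finset.card_image_le.trans ?_)
  rw [Finset.card_univ, Fintype.card_fun, Fintype.card_option, Fintype.card_fin]

theorem card_inGroups (h : m * g ≤ n) : (inGroups n m g).card = m * g := by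
  unfold inGroups
  exact card_filter_lt h

/-- the expected mass of a set of vertices -/
theorem choose_ratio {j : ℕ} (hk : k ≤ m) (hj : 2 * j ≤ m) :
    (k.choose j : ℝ) / (m.choose j : ℝ) ≤ (2 * k / m) ^ j := by
  have h1 : (k.choose j : ℝ) ≤ (k : ℝ) ^ j / (j.factorial : ℝ) := Nat.choose_le_pow_div j k
  have h2 : ((m + 1 - j : ℕ) : ℝ) ^ j / (j.factorial : ℝ) ≤ (m.choose j : ℝ) :=
    Nat.pow_le_choose j m
  rcases Nat.eq_zero_or_pos m with rfl | hm
  · have : j = 0 := by omega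
    subst this
    simp
  have hmr : (0 : ℝ) < m := by exact_mod_cast hm
  have hf : (0 : ℝ) < (j.factorial : ℝ) := by exact_mod_cast Nat.factorial_pos j
  have h3 : (m : ℝ) / 2 ≤ ((m + 1 - j : ℕ) : ℝ) := by
    have : m ≤ 2 * (m + 1 - j) := by omega
    have h4 : (m : ℝ) ≤ 2 * ((m + 1 - j : ℕ) : ℝ) := by exact_mod_cast this
    linarith
  have h4 : ((m : ℝ) / 2) ^ j / (j.factorial : ℝ) ≤ (m.choose j : ℝ) :=
    (div_le_div_of_nonneg_right (pow_le_pow_left₀ (by positivity) h3 j) hf.le).trans h2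
  have h5 : 0 < ((m : ℝ) / 2) ^ j / (j.factorial : ℝ) := by positivity
  calc (k.choose j : ℝ) / (m.choose j : ℝ)
      ≤ ((k : ℝ) ^ j / (j.factorial : ℝ)) / (((m : ℝ) / 2) ^ j / (j.factorial : ℝ)) :=
        div_le_div₀ (by positivity) h1 h5 h4
    _ = (2 * k / m) ^ j := by
        rw [div_div_div_cancel_right₀ hf.ne', ← div_pow]
        congr 1
        field_simp

theorem prob_bad_state (h0 : 0 < p) (h1 : p < 1) {γ c : ℝ} (hγ : 0 < γ) (hγ1 : γ ≤ 1 / 4)
    (hc : 0 ≤ c) {a : ℝ} (ha : 0 ≤ a) (j1 : ℕ) (hj1 : 1 ≤ j1) :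
    ∃ n0 : ℕ, ∀ n : ℕ, n0 ≤ n → ∀ (m g k : ℕ) (h : m * g ≤ n), (n : ℝ) ^ γ ≤ 2 * g →
      (n : ℝ) ≤ 2 * (m * g) → (n : ℝ) - m * g ≤ (n : ℝ) ^ γ → j1 ≤ k → k ≤ m → 2 * j1 ≤ m →
      2 * (4 * (k : ℝ)) ^ j1 ≤ (n : ℝ) ^ (1 / 32 : ℝ) → ∀ (A : SetAlg),
      (n : ℝ) ^ (-c) ≤ A.success p m k →
      Prob p (fun G : SimpleGraph (Fin n) =>
        ¬ St (found A h k G) (inGroups n m g) (D0 (A.success p m k) k m g)
          ((n : ℝ) ^ (-(γ / 4))) n (E0 (A.success p m k) n) j1 ∅) ≤ 2 * (n : ℝ) ^ (-(a + 1)) := by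
  classical
  obtain ⟨n1, hn1⟩ := tail_gen (p := p) h0 h1 (γ := γ) (c := c + j1) (a := j1 + 2 + a) (b := -(γ / 4))
    hγ (by positivity) (by positivity) 1 (by push_cast; linarith) 1
  obtain ⟨n2, hn2⟩ := tail_gen (p := p) h0 h1 (γ := γ) (c := c + j1) (a := 2 * j1 + 2 + a)
    (b := 1 / 32) hγ (by positivity) (by positivity) 0 (by norm_num) j1
  refine ⟨max (max n1 n2) 2, fun n hn m g k h hg hmg hmg2 hjk hkm hjm hk32 A hps => ?_⟩
  have hn1' : n1 ≤ n := le_trans (le_trans (le_max_left _ _) (le_max_left _ _)) hn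
  have hn2' : n2 ≤ n := le_trans (le_trans (le_max_right _ _) (le_max_left _ _)) hn
  have hn0 : 2 ≤ n := le_trans (le_max_right _ _) hn
  have hnr2 : (2 : ℝ) ≤ n := by exact_mod_cast hn0
  have hnr1 : (1 : ℝ) ≤ n := by linarith
  have hnr : (0 : ℝ) < n := by linarith
  set ps := A.success p m k with hpsd
  have hps0 : 0 < ps := lt_of_lt_of_le (Real.rpow_pos_of_pos hnr _) hps
  have hmgpos : (0 : ℝ) < m * g := by linarith
  have hnγ : 0 < (n : ℝ) ^ γ := Real.rpow_pos_of_pos hnr _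
  have hgr : (0 : ℝ) < g := by linarith
  have hmr : (0 : ℝ) < m := pos_of_mul_pos_left hmgpos hgr.le
  have hg0 : 0 < g := by exact_mod_cast hgr
  have hm0 : 0 < m := by exact_mod_cast hmr
  have hmn : (m : ℝ) ≤ n := by
    have : m ≤ n := le_trans (Nat.le_mul_of_pos_right m hg0) h
    exact_mod_cast this
  have hkr : (1 : ℝ) ≤ k := by exact_mod_cast (le_trans hj1 hjk)
  -- the lower bound for the means
  have hmean : ∀ J : Finset (Fin m), 1 ≤ J.card → J.card ≤ j1 →
      (n : ℝ) ^ (-(c + j1)) ≤ EG p (hJ A k J : SimpleGraph (Fin m) → ℝ) := by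
    intro J hJ1 hJ2
    rw [EG_hJ A k h0 h1 J hJ1, ← hpsd]
    have h3 : (1 : ℝ) ≤ (k.choose J.card : ℝ) := by
      exact_mod_cast Nat.choose_pos (by omega)
    have h4 : (m.choose J.card : ℝ) ≤ (n : ℝ) ^ j1 := by
      calc (m.choose J.card : ℝ) ≤ (m : ℝ) ^ J.card := by exact_mod_cast Nat.choose_le_pow _ _
        _ ≤ (n : ℝ) ^ J.card := pow_le_pow_left₀ hmr.le hmn _
        _ ≤ (n : ℝ) ^ j1 := pow_le_pow_right₀ hnr1 hJ2
    have h5 : (0 : ℝ) < (m.choose J.card : ℝ) := by
      exact_mod_cast Nat.choose_pos (by omega)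
    have e1 : (n : ℝ) ^ (-(c + j1)) = (n : ℝ) ^ (-c) / (n : ℝ) ^ j1 := by
      rw [neg_add, Real.rpow_add hnr, Real.rpow_neg hnr.le (j1 : ℝ), Real.rpow_natCast]
      rfl
    rw [e1]
    calc (n : ℝ) ^ (-c) / (n : ℝ) ^ j1 ≤ ps / (n : ℝ) ^ j1 :=
          div_le_div_of_nonneg_right hps (by positivity)
      _ ≤ ps / (m.choose J.card : ℝ) := div_le_div_of_nonneg_left hps0.le h5 h4
      _ ≤ _ := by
          refine div_le_div_of_nonneg_right ?_ h5.le
          nlinarith
  -- the vertices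
  have hv : ∀ v ∈ inGroups n m g, Prob p (fun G : SimpleGraph (Fin n) =>
      ¬ |eJ (found A h k G) ∅ {v} - D0 ps k m g| ≤ (n : ℝ) ^ (-(γ / 4)) * D0 ps k m g)
      ≤ (n : ℝ) ^ (-((j1 : ℝ) + 2 + a)) := by
    intro v hv
    have hvlt := (Finset.mem_filter.1 hv).2
    have hi : (v : ℕ) / g < m := by
      rw [Nat.div_lt_iff_lt_mul hg0]
      exact hvlt
    set i : Fin m := ⟨(v : ℕ) / g, hi⟩ with hidef
    set a' : Fin g := ⟨(v : ℕ) % g, Nat.mod_lt _ hg0⟩ with hadef
    have hpt : pt h i a' = v := by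
      apply Fin.ext
      change (v : ℕ) / g * g + (v : ℕ) % g = v
      rw [mul_comm]
      exact Nat.div_add_mod _ _
    have hsing : ({v} : Finset (Fin n)) = ({i} : Finset (Fin m)).map (sf h fun _ => a') := by
      rw [Finset.map_singleton]
      congr 1
      exact hpt.symm
    have h3 := hn1 n hn1' m g h hg {i} (by simp) (fun T hT => vs_sdiff_pos (by simp) hT)
      (fun _ => a') (hJ A k {i}) (hJ_nonneg A k _) (hJ_le_one A k _)
      (hmean {i} (by simp) (by simp; omega))
    refine le_trans (Prob_mono h0 h1 fun G hG => ?_) h3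
    rw [← eJ_eq A k h G {i} (fun _ => a'), ← hsing, EG_hJ A k h0 h1 {i} (by simp), ← hpsd]
    rw [Finset.card_singleton, Nat.choose_one_right, Nat.choose_one_right, pow_one]
    have e : 1 / (g : ℝ) * (k * ps / m) = D0 ps k m g := by
      unfold D0
      field_simp
    rw [e]
    push Not at hG
    exact hG
  -- the sets of vertices
  have hJs : ∀ J : Finset (Fin n), 2 ≤ J.card → J.card ≤ j1 →
      Prob p (fun G : SimpleGraph (Fin n) => ¬ eJ (found A h k G) ∅ J ≤ E0 ps n J.card)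
      ≤ (n : ℝ) ^ (-(2 * (j1 : ℝ) + 2 + a)) := by
    intro J hJ2 hJ1
    by_cases hex : ∃ (J' : Finset (Fin m)) (α : Fin m → Fin g), J = J'.map (sf h α)
    · obtain ⟨J', α, rfl⟩ := hex
      rw [Finset.card_map] at hJ2 hJ1
      have h3 := hn2 n hn2' m g h hg J' hJ1 (fun T _ => Nat.zero_le _)
        α (hJ A k J') (hJ_nonneg A k _) (hJ_le_one A k _) (hmean J' (by omega) hJ1)
      refine le_trans (Prob_mono h0 h1 fun G hG => ?_) h3
      rw [← eJ_eq A k h G J' α]
      push Not at hG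
      rw [Finset.card_map] at hG
      set S : ℝ := (1 / (g : ℝ)) ^ J'.card * EG p (hJ A k J' : SimpleGraph (Fin m) → ℝ) with hS
      have hS1 : S ≤ ps * (4 * k) ^ J'.card / (n : ℝ) ^ J'.card := by
        rw [hS, EG_hJ A k h0 h1 J' (by omega), ← hpsd]
        have h4 := choose_ratio (m := m) k hkm (j := J'.card) (by omega)
        calc (1 / (g : ℝ)) ^ J'.card * ((k.choose J'.card : ℝ) * ps / (m.choose J'.card : ℝ))
            = ps * ((1 / (g : ℝ)) ^ J'.card * ((k.choose J'.card : ℝ) / (m.choose J'.card : ℝ))) := by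
              ring
          _ ≤ ps * ((1 / (g : ℝ)) ^ J'.card * (2 * k / m) ^ J'.card) := by gcongr
          _ = ps * (2 * k / (m * g)) ^ J'.card := by
              rw [← mul_pow]
              congr 2
              field_simp
          _ ≤ ps * (4 * k / n) ^ J'.card := by
              refine mul_le_mul_of_nonneg_left ?_ hps0.le
              refine pow_le_pow_left₀ (by positivity) ?_ _
              rw [div_le_div_iff₀ hmgpos hnr]
              nlinarith
          _ = _ := by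
              rw [div_pow, mul_div_assoc]
      have hx1 : (1 : ℝ) ≤ (n : ℝ) ^ (1 / 32 : ℝ) := Real.one_le_rpow hnr1 (by norm_num)
      have hS0 : 0 ≤ S := by
        rw [hS]
        exact mul_nonneg (by positivity) (EG_nonneg h0 h1 fun H => hJ_nonneg A k J' H)
      have hE : (n : ℝ) ^ (1 / 32 : ℝ) * S + S ≤ E0 ps n J'.card := by
        calc (n : ℝ) ^ (1 / 32 : ℝ) * S + S ≤ (n : ℝ) ^ (1 / 32 : ℝ) * (2 * S) := by
              have h8 := mul_le_mul_of_nonneg_right hx1 hS0
              linarith only [h8]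
          _ ≤ (n : ℝ) ^ (1 / 32 : ℝ) * (2 * (ps * (4 * k) ^ J'.card / (n : ℝ) ^ J'.card)) := by
              gcongr
          _ = (n : ℝ) ^ (1 / 32 : ℝ) * (2 * (4 * k) ^ J'.card) * (ps / (n : ℝ) ^ J'.card) := by
              ring
          _ ≤ (n : ℝ) ^ (1 / 32 : ℝ) * (n : ℝ) ^ (1 / 32 : ℝ) * (ps / (n : ℝ) ^ J'.card) := by
              refine mul_le_mul_of_nonneg_right ?_ (by positivity)
              refine mul_le_mul_of_nonneg_left ?_ (by positivity)
              refine le_trans ?_ hk32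
              refine mul_le_mul_of_nonneg_left ?_ (by norm_num)
              exact pow_le_pow_right₀ (by linarith) hJ1
          _ = E0 ps n J'.card := by
              unfold E0
              rw [← Real.rpow_add hnr]
              norm_num
              ring
      have habs := le_abs_self (eJ (found A h k G) ∅ (J'.map (sf h α)) - S)
      linarith
    · push Not at hex
      have hz : ∀ G : SimpleGraph (Fin n), eJ (found A h k G) ∅ J = 0 :=
        fun G => eJ_zero A k h G J hex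
      have hfalse : Prob p (fun G : SimpleGraph (Fin n) =>
          ¬ eJ (found A h k G) ∅ J ≤ E0 ps n J.card) = 0 := by
        unfold Prob
        refine Finset.sum_eq_zero fun G _ => ?_
        refine if_neg ?_
        change ¬ ¬ (eJ (found A h k G) ∅ J ≤ E0 ps n J.card)
        rw [hz G, not_not]
        unfold E0
        positivity
      rw [hfalse]
      exact Real.rpow_nonneg hnr.le _
  -- the size of the set of the vertices in the groups
  have hleft : |(((inGroups n m g) \ ∅).card : ℝ) - n| ≤ (n : ℝ) ^ (-(γ / 4)) * n := by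
    rw [Finset.sdiff_empty, card_inGroups h]
    push_cast
    have h3 : (m : ℝ) * g ≤ n := by exact_mod_cast h
    rw [abs_sub_comm, abs_of_nonneg (by linarith)]
    refine hmg2.trans ?_
    have e : (n : ℝ) ^ (-(γ / 4)) * n = (n : ℝ) ^ (1 - γ / 4) := by
      rw [← Real.rpow_add_one hnr.ne']
      congr 1
      ring
    rw [e]
    exact Real.rpow_le_rpow_of_exponent_le hnr1 (by linarith)
  -- union bound
  set FJ : Finset (Finset (Fin n)) := univ.filter fun J : Finset (Fin n) => J.card ≤ j1 with hFJ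
  have hun : Prob p (fun G : SimpleGraph (Fin n) =>
        ¬ St (found A h k G) (inGroups n m g) (D0 ps k m g)
          ((n : ℝ) ^ (-(γ / 4))) n (E0 ps n) j1 ∅)
      ≤ Prob p (fun G : SimpleGraph (Fin n) => ∃ v ∈ inGroups n m g,
          ¬ |eJ (found A h k G) ∅ {v} - D0 ps k m g| ≤ (n : ℝ) ^ (-(γ / 4)) * D0 ps k m g)
        + Prob p (fun G : SimpleGraph (Fin n) => ∃ J ∈ FJ, 2 ≤ J.card ∧
          ¬ eJ (found A h k G) ∅ J ≤ E0 ps n J.card) := by
    refine le_trans (Prob_mono h0 h1 fun G hG => ?_) (Prob_or h0 h1 _ _)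
    by_contra hcon
    push Not at hcon
    apply hG
    refine ⟨fun v hv => hcon.1 v hv, fun J hJ2 hJ1 => ?_, hleft⟩
    exact hcon.2 J (Finset.mem_filter.2 ⟨Finset.mem_univ _, hJ1⟩) hJ2
  refine hun.trans ?_
  have b1 : Prob p (fun G : SimpleGraph (Fin n) => ∃ v ∈ inGroups n m g,
      ¬ |eJ (found A h k G) ∅ {v} - D0 ps k m g| ≤ (n : ℝ) ^ (-(γ / 4)) * D0 ps k m g)
      ≤ (n : ℝ) ^ (-(a + 1)) := by
    refine (Prob_exists h0 h1 _ (fun v G => ¬ |eJ (found A h k G) ∅ {v} - D0 ps k m g|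
      ≤ (n : ℝ) ^ (-(γ / 4)) * D0 ps k m g)).trans ?_
    refine (Finset.sum_le_card_nsmul _ _ _ hv).trans ?_
    rw [nsmul_eq_mul, card_inGroups h]
    push_cast
    have h3 : (m : ℝ) * g ≤ n := by exact_mod_cast h
    calc (m : ℝ) * g * (n : ℝ) ^ (-((j1 : ℝ) + 2 + a)) ≤ n * (n : ℝ) ^ (-(a + 2)) := by
          refine mul_le_mul h3 ?_ (Real.rpow_nonneg hnr.le _) hnr.le
          refine Real.rpow_le_rpow_of_exponent_le hnr1 ?_
          have : (0 : ℝ) ≤ j1 := by positivity
          linarith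
      _ = (n : ℝ) ^ (-(a + 1)) := by
          rw [mul_comm, ← Real.rpow_add_one hnr.ne']
          congr 1
          ring
  have b2 : Prob p (fun G : SimpleGraph (Fin n) => ∃ J ∈ FJ, 2 ≤ J.card ∧
      ¬ eJ (found A h k G) ∅ J ≤ E0 ps n J.card) ≤ (n : ℝ) ^ (-(a + 1)) := by
    refine (Prob_exists h0 h1 _ (fun (J : Finset (Fin n)) G => 2 ≤ J.card ∧
      ¬ eJ (found A h k G) ∅ J ≤ E0 ps n J.card)).trans ?_
    have h4 : ∀ J ∈ FJ, Prob p (fun G : SimpleGraph (Fin n) => 2 ≤ J.card ∧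
        ¬ eJ (found A h k G) ∅ J ≤ E0 ps n J.card) ≤ (n : ℝ) ^ (-(2 * (j1 : ℝ) + 2 + a)) := by
      intro J hJF
      by_cases h2 : 2 ≤ J.card
      · refine le_trans (Prob_mono h0 h1 fun G hG => ?_) (hJs J h2 (Finset.mem_filter.1 hJF).2)
        exact hG.2
      · have : Prob p (fun G : SimpleGraph (Fin n) => 2 ≤ J.card ∧
            ¬ eJ (found A h k G) ∅ J ≤ E0 ps n J.card) = 0 := by
          unfold Prob
          refine Finset.sum_eq_zero fun G _ => ?_
          rw [if_neg (fun h' => h2 h'.1)]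
        rw [this]
        exact Real.rpow_nonneg hnr.le _
    refine (Finset.sum_le_card_nsmul _ _ _ h4).trans ?_
    rw [nsmul_eq_mul]
    have h5 : (FJ.card : ℝ) ≤ ((n : ℝ) + 1) ^ j1 := by
      have := card_small (Fin n) j1
      rw [Fintype.card_fin] at this
      exact_mod_cast this
    have h6 : ((n : ℝ) + 1) ^ j1 ≤ (n : ℝ) ^ (2 * (j1 : ℝ)) := by
      have e : (n : ℝ) ^ (2 * (j1 : ℝ)) = ((n : ℝ) ^ 2) ^ j1 := by
        rw [← pow_mul, ← Real.rpow_natCast]
        push_cast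
        rfl
      rw [e]
      refine pow_le_pow_left₀ (by positivity) ?_ _
      nlinarith
    calc (FJ.card : ℝ) * (n : ℝ) ^ (-(2 * (j1 : ℝ) + 2 + a))
        ≤ (n : ℝ) ^ (2 * (j1 : ℝ)) * (n : ℝ) ^ (-(2 * (j1 : ℝ) + 2 + a)) :=
          mul_le_mul_of_nonneg_right (h5.trans h6) (Real.rpow_nonneg hnr.le _)
      _ = (n : ℝ) ^ (-(a + 2)) := by
          rw [← Real.rpow_add hnr]
          congr 1
          ring
      _ ≤ (n : ℝ) ^ (-(a + 1)) := Real.rpow_le_rpow_of_exponent_le hnr1 (by linarith)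
  calc _ ≤ (n : ℝ) ^ (-(a + 1)) + (n : ℝ) ^ (-(a + 1)) := add_le_add b1 b2
    _ = _ := by ring

end Pool.Agent.H72.KarpS
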