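import Pool.Agent.H72.Karp.Alpha
import Pool.Agent.H72.KarpS.GoodS

/-!
Bounds which hold except with probability smaller than any fixed power of `1/n`: the number of
classes of the greedy colouring and the independence number.
-/

set_option autoImplicit false
set_option linter.unusedSectionVars false

namespace Pool.Agent.H72.KarpS

open Finset Pool.Agent.H85.Online Pool.Agent.H72.Karp Filter

variable {p : ℝ} {n : ℕ}

theorem prob_not_sparse' (h0 : 0 < p) (h1 : p < 1) {δ : ℝ} (hδ : 0 < δ) (hδ1 : δ ≤ 1)
    (hn : 0 < n) {t A : ℝ} (hA : 0 ≤ A) (ht : 1 ≤ t)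
    (ht2 : (A + 2) * Real.log n ≤ (t - 1) * δ ^ 2 / 8) :
    Prob p (fun G : SimpleGraph (Fin n) => ¬ SparseG (p + δ) t G) ≤ 2 * (n : ℝ) ^ (-(A + 1)) := by
  classical
  have hn0 : (0 : ℝ) < n := by exact_mod_cast hn
  have hn1 : (1 : ℝ) ≤ n := by exact_mod_cast hn
  set x : ℝ := (n : ℝ) ^ (-(A + 2)) with hx
  have hx0 : 0 ≤ x := by positivity
  calc Prob p (fun G : SimpleGraph (Fin n) => ¬ SparseG (p + δ) t G)
      ≤ Prob p (fun G : SimpleGraph (Fin n) =>
        ∃ T ∈ (Finset.univ : Finset (Fin n)).powerset.filter (fun T => t ≤ T.card),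
          ∀ v ∈ T, (p + δ) * T.card < degIn G T v) := by
        refine Prob_mono h0 h1 fun G hG => ?_
        unfold SparseG at hG
        push Not at hG
        obtain ⟨T, hT, hT'⟩ := hG
        exact ⟨T, Finset.mem_filter.2 ⟨Finset.mem_powerset.2 (Finset.subset_univ _), hT⟩, hT'⟩
    _ ≤ ∑ T ∈ (Finset.univ : Finset (Fin n)).powerset.filter (fun T => t ≤ T.card),
          Prob p (fun G : SimpleGraph (Fin n) => ∀ v ∈ T, (p + δ) * T.card < degIn G T v) :=
        Prob_exists h0 h1 _ _
    _ ≤ ∑ T ∈ (Finset.univ : Finset (Fin n)).powerset.filter (fun T => t ≤ T.card),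
          x ^ T.card := by
        refine Finset.sum_le_sum fun T hT => ?_
        have hT' := (Finset.mem_filter.1 hT).2
        have hne : T.Nonempty := by
          rw [← Finset.card_pos]
          exact_mod_cast lt_of_lt_of_le (by linarith : (0 : ℝ) < t) hT'
        refine (prob_dense_set h0 h1 hδ hδ1 T hne).trans ?_
        have e1 : x ^ T.card = Real.exp (-(T.card * ((A + 2) * Real.log n))) := by
          rw [hx, Real.rpow_def_of_pos hn0, ← Real.exp_nat_mul]
          congr 1
          ring
        rw [e1]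
        apply Real.exp_le_exp.2
        have h2 : (t - 1) * δ ^ 2 / 8 ≤ ((T.card : ℝ) - 1) * δ ^ 2 / 8 := by
          have : (t - 1) * δ ^ 2 ≤ ((T.card : ℝ) - 1) * δ ^ 2 :=
            mul_le_mul_of_nonneg_right (by linarith) (sq_nonneg _)
          linarith
        have h3 : (T.card : ℝ) * ((A + 2) * Real.log n) ≤ T.card * (((T.card : ℝ) - 1) * δ ^ 2 / 8) :=
          mul_le_mul_of_nonneg_left (ht2.trans h2) (by positivity)
        linarith
    _ ≤ ∑ T ∈ (Finset.univ : Finset (Fin n)).powerset.erase ∅, x ^ T.card := by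
        refine Finset.sum_le_sum_of_subset_of_nonneg ?_ fun _ _ _ => by positivity
        intro T hT
        have hT' := Finset.mem_filter.1 hT
        refine Finset.mem_erase.2 ⟨?_, hT'.1⟩
        rintro rfl
        have := hT'.2
        simp at this
        linarith
    _ = (x + 1) ^ n - 1 := by
        have h2 := Finset.sum_pow_mul_eq_add_pow x 1 (Finset.univ : Finset (Fin n))
        simp only [one_pow, mul_one, Finset.card_univ, Fintype.card_fin] at h2
        rw [← h2, ← Finset.add_sum_erase _ _ (Finset.empty_mem_powerset _)]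
        simp
    _ ≤ 2 * (n : ℝ) ^ (-(A + 1)) := by
        have h2 : (x + 1) ^ n ≤ Real.exp (n * x) := by
          rw [Real.exp_nat_mul]
          exact pow_le_pow_left₀ (by positivity) (Real.add_one_le_exp x) n
        have h3 : (n : ℝ) * x = (n : ℝ) ^ (-(A + 1)) := by
          rw [hx, mul_comm, ← Real.rpow_add_one hn0.ne']
          congr 1
          ring
        rw [h3] at h2
        set z : ℝ := (n : ℝ) ^ (-(A + 1)) with hz
        have hz0 : 0 < z := Real.rpow_pos_of_pos hn0 _
        have hz1 : z ≤ 1 := Real.rpow_le_one_of_one_le_of_nonpos hn1 (by linarith)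
        have h4 : |z| ≤ 1 := by
          rw [abs_of_pos hz0]
          exact hz1
        have h5 := (abs_le.1 (Real.abs_exp_sub_one_sub_id_le h4)).2
        have h6 : z ^ 2 ≤ z := by
          rw [sq]
          exact mul_le_of_le_one_left hz0.le hz1
        linarith

/-- the classes of the greedy colouring have almost `log_b n` elements -/
theorem peel_bound' (h0 : 0 < p) (h1 : p < 1) {η : ℝ} (hη : 0 < η) (hη1 : η < 1) {A : ℝ}
    (hA : 0 ≤ A) :
    ∀ᶠ n : ℕ in atTop, Prob p (fun G : SimpleGraph (Fin n) =>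
      ¬ ∀ T : Finset (Fin n), ((peel G T).length : ℝ)
        ≤ T.card / ((1 - η) * LL p n) + η * n / LL p n) ≤ 2 * (n : ℝ) ^ (-(A + 1)) := by
  set a : ℝ := -Real.log (1 - p) with ha
  have ha0 : 0 < a := neg_log_pos h0 h1
  set u : ℝ := 1 - η / 3 with hu
  have hu0 : 0 < u := by rw [hu]; linarith
  have hu1 : u < 1 := by rw [hu]; linarith
  set β : ℝ := Real.exp (-(a / u)) with hβ
  have hβ0 : 0 < β := Real.exp_pos _
  have hβlt : β < 1 - p := by
    have h2 : Real.exp (-a) = 1 - p := by
      rw [ha, neg_neg, Real.exp_log (by linarith)]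
    rw [← h2, hβ]
    apply Real.exp_lt_exp.2
    have : a < a / u := by
      rw [lt_div_iff₀ hu0]
      exact mul_lt_of_lt_one_right ha0 hu1
    linarith
  set δ : ℝ := (1 - p - β) / 2 with hδ
  have hδ0 : 0 < δ := by rw [hδ]; linarith
  have hδ1 : δ ≤ 1 := by rw [hδ]; linarith
  set C : ℝ := (1 + 8 * (A + 2) / δ ^ 2 + 1 / δ) / (a * η) with hC
  have hC0 : 0 < C := by rw [hC]; positivity
  filter_upwards [log_le_rpow_eventually (show 0 < η / 12 by linarith),
    rpow_eventually (show 0 < η / 12 by linarith) 1,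
    rpow_eventually (show 0 < η / 6 by linarith) C, eventually_ge_atTop 2,
    log_nat_tendsto.eventually_ge_atTop 1] with n e1 e2 e3 e4 e5
  have hn0 : (0 : ℝ) < n := by
    exact_mod_cast (show 0 < n by omega)
  set lam : ℝ := Real.log (n : ℝ) with hlam
  have hlam0 : 0 < lam := by linarith
  have hLL : LL p n = lam / a := LL_eq n
  have hLL0 : 0 < LL p n := by rw [hLL]; positivity
  set t : ℝ := 1 + 8 * (A + 2) * lam / δ ^ 2 + 1 / δ with ht
  have ht1 : 1 ≤ t := by
    rw [ht]
    have : 0 ≤ 8 * (A + 2) * lam / δ ^ 2 := by positivity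
    have : 0 ≤ 1 / δ := by positivity
    linarith
  have ht2 : (A + 2) * Real.log n ≤ (t - 1) * δ ^ 2 / 8 := by
    have : (t - 1) * δ ^ 2 / 8 = (A + 2) * lam + δ / 8 := by
      rw [ht]
      field_simp
      ring
    rw [this]
    linarith
  refine le_trans (Prob_mono h0 h1 fun G hG => ?_)
    (prob_not_sparse' h0 h1 hδ0 hδ1 (by omega) hA ht1 ht2)
  intro hsp
  apply hG
  intro T
  set M : ℝ := η * n / LL p n with hM
  have hM0 : 0 < M := by rw [hM]; positivity
  have hMt : u * lam ≤ Real.log (M / t) := by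
    rw [Real.le_log_iff_exp_le (by positivity)]
    have h2 : Real.exp (u * lam) = n / (n : ℝ) ^ (η / 3) := by
      rw [eq_div_iff (by positivity), Real.rpow_def_of_pos hn0, ← Real.exp_add]
      rw [show u * lam + Real.log n * (η / 3) = Real.log n by rw [hu]; ring]
      exact Real.exp_log hn0
    rw [h2, le_div_iff₀ (by positivity), div_mul_eq_mul_div, div_le_iff₀ (by positivity), hM, hLL]
    have h3 : η * n / (lam / a) * (n : ℝ) ^ (η / 3)
        = n * ((a * η) * (n : ℝ) ^ (η / 3) / lam) := by
      field_simp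
    rw [h3]
    refine mul_le_mul_of_nonneg_left ?_ hn0.le
    rw [le_div_iff₀ hlam0]
    set x : ℝ := (n : ℝ) ^ (η / 12) with hx
    have hx3 : (n : ℝ) ^ (η / 6) = x ^ 2 := by
      rw [hx, ← Real.rpow_natCast, ← Real.rpow_mul hn0.le]
      congr 1
      push_cast
      ring
    have hx4 : (n : ℝ) ^ (η / 3) = x ^ 4 := by
      rw [hx, ← Real.rpow_natCast, ← Real.rpow_mul hn0.le]
      congr 1
      push_cast
      ring
    rw [hx3] at e3
    rw [hx4]
    have h4 : t ≤ (C * (a * η)) * x := by
      have : C * (a * η) = 1 + 8 * (A + 2) / δ ^ 2 + 1 / δ := by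
        rw [hC]
        field_simp
      rw [this, ht]
      have f1 : 8 * (A + 2) * lam / δ ^ 2 ≤ 8 * (A + 2) / δ ^ 2 * x := by
        rw [div_mul_eq_mul_div]
        exact div_le_div_of_nonneg_right (mul_le_mul_of_nonneg_left e1 (by positivity))
          (by positivity)
      have f2 : 1 / δ ≤ 1 / δ * x := by
        have : 0 < 1 / δ := by positivity
        exact le_mul_of_one_le_right this.le (by linarith only [e2])
      nlinarith only [f1, f2, e2]
    have hx0 : 0 < x := by linarith
    calc t * lam ≤ ((C * (a * η)) * x) * x :=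
          mul_le_mul h4 e1 hlam0.le (by positivity)
      _ = (a * η) * (C * x ^ 2) := by ring
      _ ≤ (a * η) * (x ^ 2 * x ^ 2) := by
          refine mul_le_mul_of_nonneg_left ?_ (by positivity)
          exact mul_le_mul_of_nonneg_right e3 (by positivity)
      _ = a * η * x ^ 4 := by ring
  have hdt : 1 ≤ (1 - (p + δ) - β) * t := by
    have h2 : 1 - (p + δ) - β = δ := by
      have : 1 - p - β = 2 * δ := by rw [hδ]; ring
      linarith
    rw [h2, ht]
    have h3 : δ * (1 + 8 * (A + 2) * lam / δ ^ 2 + 1 / δ) = δ + 8 * (A + 2) * lam / δ + 1 := by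
      field_simp
    rw [h3]
    have : 0 ≤ 8 * (A + 2) * lam / δ := by positivity
    linarith
  refine peel_length (ℓ := (1 - η) * LL p n) (M := M)
    (mul_pos (by linarith) hLL0) hM0.le ?_ T
  intro T hMT _
  set y : ℝ := u * Real.log (M / t) / a with hy
  have hy0 : 0 ≤ y := by
    have : 0 ≤ Real.log (M / t) := le_trans (by positivity) hMt
    rw [hy]
    positivity
  set j : ℕ := ⌊y⌋₊ with hj
  have hjle : (j : ℝ) ≤ y := Nat.floor_le hy0
  have hjlt : y < j + 1 := Nat.lt_floor_add_one y
  have hgr := greedy_card hsp (by linarith) hβ0 (by linarith) hdt j T (by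
    have h2 : t / M ≤ β ^ j := by
      rw [hβ, ← Real.exp_nat_mul]
      rw [← Real.log_le_iff_le_exp (by positivity)]
      have h3 : Real.log (t / M) = -Real.log (M / t) := by
        rw [← Real.log_inv, inv_div]
      rw [h3]
      have h4 : (j : ℝ) * (a / u) ≤ Real.log (M / t) := by
        calc (j : ℝ) * (a / u) ≤ y * (a / u) := mul_le_mul_of_nonneg_right hjle (by positivity)
          _ = Real.log (M / t) := by
              rw [hy]
              field_simp
      linarith
    calc t = M * (t / M) := by field_simp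
      _ ≤ T.card * β ^ j := mul_le_mul hMT h2 (by positivity) (by positivity))
  have h5 : ((1 - η) * LL p n) ≤ y := by
    rw [hLL, hy, ← mul_div_assoc]
    refine div_le_div_of_nonneg_right ?_ ha0.le
    have h6 : u * (u * lam) ≤ u * Real.log (M / t) := mul_le_mul_of_nonneg_left hMt hu0.le
    have h7 : (1 - η) * lam ≤ u * (u * lam) := by
      rw [← mul_assoc]
      refine mul_le_mul_of_nonneg_right ?_ hlam0.le
      rw [hu]
      nlinarith only [sq_nonneg η, hη]
    linarith
  have h8 : ((j + 1 : ℕ) : ℝ) ≤ (greedy G T).card := by exact_mod_cast hgr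
  push_cast at h8
  linarith

end Pool.Agent.H72.KarpS
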