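import Pool.Agent.H72.KarpS.Step
import Pool.Agent.H72.KarpS.PeelS
import Pool.Agent.H72.Karp.Main

/-!
The main theorem with the sharp factor.
-/

set_option autoImplicit false
set_option linter.unusedSectionVars false

namespace Pool.Agent.H72.KarpS

open Finset Pool.Agent.H85.Online Pool.Agent.H72.Karp Filter

variable {p : ℝ} {n : ℕ}

theorem polylog_eventually (A : ℝ) (N : ℕ) {e : ℝ} (he : 0 < e) :
    ∀ᶠ n : ℕ in atTop, A * Real.log (n : ℝ) ^ N ≤ (n : ℝ) ^ e := by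
  have he2 : 0 < e / (2 * (N + 1)) := by positivity
  filter_upwards [log_le_rpow_eventually he2, rpow_eventually (half_pos he) (max A 0),
    eventually_ge_atTop 1] with n e1 e2 e3
  have hn0 : (0 : ℝ) < n := by exact_mod_cast e3
  have hn1 : (1 : ℝ) ≤ n := by exact_mod_cast e3
  have hlog : 0 ≤ Real.log (n : ℝ) := Real.log_nonneg hn1
  have hA := le_max_left A 0
  have hA0 := le_max_right A 0
  calc A * Real.log (n : ℝ) ^ N ≤ max A 0 * Real.log (n : ℝ) ^ N := by gcongr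
    _ ≤ (n : ℝ) ^ (e / 2) * ((n : ℝ) ^ (e / (2 * (N + 1)))) ^ N := by gcongr
    _ = (n : ℝ) ^ (e / 2 + e / (2 * (N + 1)) * N) := by
        rw [← Real.rpow_natCast ((n : ℝ) ^ (e / (2 * (N + 1)))) N, ← Real.rpow_mul hn0.le,
          ← Real.rpow_add hn0]
    _ ≤ (n : ℝ) ^ e := by
        refine Real.rpow_le_rpow_of_exponent_le hn1 ?_
        have : e / (2 * (N + 1)) * N ≤ e / 2 := by
          rw [div_mul_eq_mul_div, div_le_div_iff₀ (by positivity) (by norm_num)]
          nlinarith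
        linarith

/-- the ratio, as a function of a small parameter -/
noncomputable def ratioA (ε η : ℝ) : ℝ :=
  (1 + η) / ((1 + ε) * (1 - 2 * η)) + 3 * η / (1 - η) + η

theorem exists_etaA {ε : ℝ} (hε : 0 < ε) {δ : ℝ} (hδ : 0 < δ) :
    ∃ η : ℝ, 0 < η ∧ η ≤ 1 / 4 ∧ ratioA ε η ≤ 1 / (1 + ε) + δ := by
  have hcont : ContinuousAt (ratioA ε) 0 := by
    unfold ratioA
    refine ContinuousAt.add (ContinuousAt.add ?_ ?_) (by fun_prop)
    · refine ContinuousAt.div (by fun_prop) (by fun_prop) ?_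
      simp only [mul_zero, sub_zero, mul_one]
      positivity
    · refine ContinuousAt.div (by fun_prop) (by fun_prop) ?_
      simp
  have h0 : ratioA ε 0 = 1 / (1 + ε) := by
    unfold ratioA
    simp
  have hev : ∀ᶠ η in nhds (0 : ℝ), ratioA ε η < 1 / (1 + ε) + δ := by
    refine hcont.eventually_lt_const ?_
    rw [h0]
    linarith
  have hev2 : ∀ᶠ η in nhds (0 : ℝ), η < 1 / 4 := eventually_lt_nhds (by norm_num)
  obtain ⟨η, ⟨hη1, hη2⟩, hη0⟩ := ((hev.and hev2).filter_mono nhdsWithin_le_nhds).and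
    (self_mem_nhdsWithin : Set.Ioi (0 : ℝ) ∈ nhdsWithin 0 (Set.Ioi 0)) |>.exists
  exact ⟨η, hη0, hη2.le, hη1.le⟩

/-- the number of the vertices outside the groups -/
theorem rest_le {γ : ℝ} (hγ : 0 < γ) :
    ∀ᶠ n : ℕ in atTop, (n : ℝ) - ord γ n * grp γ n ≤ (n : ℝ) ^ γ := by
  filter_upwards [eventually_ge_atTop 1, rpow_eventually hγ 1] with n e1 e2
  set g := grp γ n with hg
  set m := ord γ n with hm
  have hgle : (g : ℝ) ≤ (n : ℝ) ^ γ := Nat.floor_le (by positivity)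
  have hg1 : 1 ≤ g := by
    rw [hg]
    unfold grp
    exact Nat.le_floor (by exact_mod_cast e2)
  have hmlt : (n : ℝ) < (m + 1) * g := by
    have := Nat.lt_div_mul_add (a := n) (b := g) (by omega)
    have h2 : n < (m + 1) * g := by
      rw [hm]
      unfold ord
      rw [← hg]
      linarith
    exact_mod_cast h2
  linarith

theorem small_exp (R : ℕ) : ∀ᶠ n : ℕ in atTop,
    (2 * (n : ℝ) + ((n : ℝ) + 1) ^ (R + 1) + 2) * Real.exp (-(((n : ℝ) ^ (1 / 16 : ℝ)) ^ 4))
      ≤ 1 / n := by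
  set N : ℕ := 4 * (R + 3) with hN
  have hfac : (0 : ℝ) < N.factorial := by exact_mod_cast Nat.factorial_pos N
  filter_upwards [eventually_ge_atTop 1,
    tendsto_natCast_atTop_atTop.eventually_ge_atTop (5 * 2 ^ (R + 1) * (N.factorial : ℝ))]
    with n e1 e2
  have hn0 : (0 : ℝ) < n := by exact_mod_cast e1
  have hn1 : (1 : ℝ) ≤ n := by exact_mod_cast e1
  set y : ℝ := ((n : ℝ) ^ (1 / 16 : ℝ)) ^ 4 with hy
  have hy4 : y ^ N = (n : ℝ) ^ (R + 3) := by
    rw [hy, hN, ← pow_mul, ← Real.rpow_natCast, ← Real.rpow_mul hn0.le, ← Real.rpow_natCast]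
    congr 1
    push_cast
    ring
  have hy0 : 0 ≤ y := by positivity
  have h1 := Real.pow_div_factorial_le_exp y hy0 N
  rw [hy4] at h1
  have h2 : 2 * (n : ℝ) + ((n : ℝ) + 1) ^ (R + 1) + 2 ≤ 5 * 2 ^ (R + 1) * (n : ℝ) ^ (R + 1) := by
    have e3 : ((n : ℝ) + 1) ^ (R + 1) ≤ (2 * n) ^ (R + 1) :=
      pow_le_pow_left₀ (by positivity) (by linarith) _
    have e4 : (2 * (n : ℝ)) ^ (R + 1) = 2 ^ (R + 1) * (n : ℝ) ^ (R + 1) := mul_pow _ _ _
    have e5 : (n : ℝ) ≤ 2 ^ (R + 1) * (n : ℝ) ^ (R + 1) := by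
      have h3 : (n : ℝ) ^ 1 ≤ (n : ℝ) ^ (R + 1) := pow_le_pow_right₀ hn1 (by omega)
      rw [pow_one] at h3
      have h4 : (1 : ℝ) ≤ 2 ^ (R + 1) := one_le_pow₀ (by norm_num)
      exact h3.trans (le_mul_of_one_le_left (by positivity) h4)
    linarith
  rw [Real.exp_neg, ← div_eq_mul_inv, div_le_div_iff₀ (Real.exp_pos _) hn0]
  calc (2 * (n : ℝ) + ((n : ℝ) + 1) ^ (R + 1) + 2) * n
      ≤ (5 * 2 ^ (R + 1) * (n : ℝ) ^ (R + 1)) * n := by gcongr
    _ = (5 * 2 ^ (R + 1) * (N.factorial : ℝ)) * (n : ℝ) ^ (R + 2) / N.factorial := by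
        field_simp
        ring
    _ ≤ n * (n : ℝ) ^ (R + 2) / N.factorial := by gcongr
    _ = (n : ℝ) ^ (R + 3) / N.factorial := by ring
    _ ≤ 1 * Real.exp y := by
        rw [one_mul]
        exact h1

/-- the number of the sets in all rounds -/
theorem msize_sum {θ : ℝ} (hθ : 0 < θ) {k n : ℕ} (hk : 0 < k) (R : ℕ) :
    ((∑ i ∈ Finset.range R, msize θ k n (0 + i) : ℕ) : ℝ) ≤ (1 + θ) * (n / k) := by
  have hkr : (0 : ℝ) < k := by exact_mod_cast hk
  set y : ℝ := Real.exp (-θ) with hy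
  have hy0 : 0 < y := Real.exp_pos _
  have hy1 : y ≤ 1 / (1 + θ) := by
    rw [hy, Real.exp_neg, one_div]
    refine inv_anti₀ (by linarith) ?_
    have := Real.add_one_le_exp θ
    linarith
  have h1y : θ / (1 + θ) ≤ 1 - y := by
    have : θ / (1 + θ) = 1 - 1 / (1 + θ) := by field_simp; ring
    rw [this]
    linarith
  have hpos : 0 < 1 - y := lt_of_lt_of_le (by positivity) h1y
  push_cast
  calc ∑ i ∈ Finset.range R, (msize θ k n (0 + i) : ℝ)
      ≤ ∑ i ∈ Finset.range R, θ * (n / k) * y ^ i := by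
        refine Finset.sum_le_sum fun i _ => ?_
        unfold msize
        rw [zero_add]
        refine (Nat.floor_le (by positivity)).trans (le_of_eq ?_)
        rw [hy]
        ring
    _ = θ * (n / k) * ∑ i ∈ Finset.range R, y ^ i := by rw [Finset.mul_sum]
    _ ≤ θ * (n / k) * (1 / (1 - y)) := by
        refine mul_le_mul_of_nonneg_left ?_ (by positivity)
        rw [le_div_iff₀ hpos]
        have := mul_neg_geom_sum y R
        rw [mul_comm] at this
        rw [this]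
        have : 0 ≤ y ^ R := by positivity
        linarith
    _ ≤ θ * (n / k) * ((1 + θ) / θ) := by
        refine mul_le_mul_of_nonneg_left ?_ (by positivity)
        rw [div_le_div_iff₀ hpos hθ]
        have h3 := mul_le_mul_of_nonneg_left h1y (show (0 : ℝ) ≤ 1 + θ by linarith)
        have e : (1 + θ) * (θ / (1 + θ)) = θ := by field_simp
        linarith
    _ = _ := by field_simp

/-- the final count of the classes -/
theorem count_leA {ε η : ℝ} (hε : 0 < ε) (hη : 0 < η) (hη4 : η ≤ 1 / 4) (G : SimpleGraph (Fin n))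
    {ell : ℝ} (hell : 0 < ell) {k : ℕ} (hk : 0 < k) (hkell : (1 + ε) * ((1 - 2 * η) * ell) ≤ k)
    (hpeel : ∀ T : Finset (Fin n), ((peel G T).length : ℝ)
      ≤ T.card / ((1 - η) * ell) + η * n / ell)
    (L : List (Finset (Fin n))) (hL : (L.length : ℝ) ≤ (1 + η) * (n / k))
    (hcov : ((Finset.univ \ covered L).card : ℝ) ≤ 3 * η * n) :
    ((peel G (Finset.univ \ covered L) ++ L).length : ℝ) ≤ ratioA ε η * (n / ell) := by
  have hkr : (0 : ℝ) < k := by exact_mod_cast hk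
  have h1η : (0 : ℝ) < 1 - 2 * η := by linarith
  have h2η : (0 : ℝ) < 1 - η := by linarith
  have hε1 : 0 < 1 + ε := by linarith
  have hpos : 0 < (1 + ε) * ((1 - 2 * η) * ell) := by positivity
  have hA1 : (L.length : ℝ) ≤ (1 + η) * (n / ((1 + ε) * ((1 - 2 * η) * ell))) := by
    refine hL.trans (mul_le_mul_of_nonneg_left ?_ (by linarith))
    exact div_le_div_of_nonneg_left (Nat.cast_nonneg _) hpos hkell
  have hA2 : ((peel G (Finset.univ \ covered L)).length : ℝ)
      ≤ 3 * η * n / ((1 - η) * ell) + η * n / ell := by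
    refine (hpeel _).trans ?_
    have := div_le_div_of_nonneg_right hcov (show 0 ≤ (1 - η) * ell by positivity)
    linarith
  rw [List.length_append]
  push_cast
  refine (add_le_add hA2 hA1).trans (le_of_eq ?_)
  unfold ratioA
  field_simp
  ring

/-- success with at least `s` vertices is success with at least `⌈s⌉` vertices -/
theorem success_ceil (A : SetAlg) (m : ℕ) (s : ℝ) :
    A.success p m (⌈s⌉₊ : ℝ) = A.success p m s := by
  unfold SetAlg.success
  congr 1
  refine Finset.sum_congr rfl fun ρ _ => Prob_congr fun G => ?_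
  rw [Nat.cast_le, Nat.ceil_le]

/-- the sizes for large `n` -/
theorem facts (h0 : 0 < p) (h1 : p < 1) {ε : ℝ} (hε : 0 < ε) {η : ℝ} (hη : 0 < η)
    (hη4 : η ≤ 1 / 4) {θ : ℝ} (hθ : 0 < θ) (hθε : 32 * (1 + ε) * θ ≤ -Real.log (1 - p)) (R : ℕ)
    (L : ℝ) :
    ∀ᶠ n : ℕ in atTop,
      (R + 2 ≤ ksize p ε η n ∧ ksize p ε η n ≤ ord η n ∧ 2 * (R + 2) ≤ ord η n ∧
        2 * (4 * (ksize p ε η n : ℝ)) ^ (R + 2) ≤ (n : ℝ) ^ (1 / 32 : ℝ)) ∧
      ((20 * (ksize p ε η n : ℝ)) ^ (R + 1) * (n : ℝ) ^ (-(η / 4)) ≤ 1 ∧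
        2 * L ^ (2 * R) ≤ (n : ℝ) ^ (1 / 16 : ℝ) ∧
        1 / (n : ℝ) ^ (1 / 16 : ℝ) ≤ Real.exp (-(θ * ksize p ε η n)) ∧
        1 / (n : ℝ) ^ (1 / 16 : ℝ) ≤ (n : ℝ) ^ (-(η / 4))) ∧
      (2 * (ksize p ε η n : ℝ) ≤ θ * Real.exp (-θ) ^ R * (n : ℝ) ^ (1 / 16 : ℝ) ∧
        4 * (ksize p ε η n : ℝ) ^ 3 ≤ Real.exp (-θ) ^ R * (n : ℝ) ^ (1 / 16 : ℝ) ∧
        2 * (ksize p ε η n : ℝ) ^ 2 ≤ (n : ℝ) ^ (1 / 16 : ℝ) ∧
        2 * (ksize p ε η n : ℝ) ^ 2 ≤ (Real.exp (-θ) ^ R) ^ 2 * (n : ℝ) ^ (1 / 16 : ℝ)) ∧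
      (1 + ε) * ((1 - 2 * η) * LL p n) ≤ ksize p ε η n := by
  set a : ℝ := -Real.log (1 - p) with ha
  have ha0 : 0 < a := neg_log_pos h0 h1
  set C1 : ℝ := 2 * (1 + ε) / a with hC1
  have hC10 : 0 < C1 := by positivity
  have hy0 : 0 < Real.exp (-θ) ^ R := by positivity
  filter_upwards [sizes hη hη4 one_pos, log_nat_tendsto.eventually_ge_atTop (max a (2 * a * (R + 2))),
    polylog_eventually C1 1 (show (0 : ℝ) < 1 / 2 by norm_num),
    rpow_eventually (show (0 : ℝ) < 1 - 2 * η by linarith) (2 * (R + 2)),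
    polylog_eventually (2 * (4 * C1) ^ (R + 2)) (R + 2) (show (0 : ℝ) < 1 / 32 by norm_num),
    polylog_eventually ((20 * C1) ^ (R + 1)) (R + 1) (show (0 : ℝ) < η / 4 by positivity),
    rpow_eventually (show (0 : ℝ) < 1 / 16 by norm_num) (2 * L ^ (2 * R)),
    polylog_eventually (2 * C1 / (θ * Real.exp (-θ) ^ R)) 1 (show (0 : ℝ) < 1 / 16 by norm_num),
    polylog_eventually (4 * C1 ^ 3 / Real.exp (-θ) ^ R) 3 (show (0 : ℝ) < 1 / 16 by norm_num),
    polylog_eventually (2 * C1 ^ 2) 2 (show (0 : ℝ) < 1 / 16 by norm_num),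
    polylog_eventually (2 * C1 ^ 2 / (Real.exp (-θ) ^ R) ^ 2) 2
      (show (0 : ℝ) < 1 / 16 by norm_num), eventually_ge_atTop 1]
    with n e1 e2 e3 e4 e5 e6 e7 e8 e9 e10 e11 e12
  obtain ⟨s1, s2, s3, s4⟩ := e1
  have hn0 : (0 : ℝ) < n := by exact_mod_cast e12
  have hn1 : (1 : ℝ) ≤ n := by exact_mod_cast e12
  set lam : ℝ := Real.log (n : ℝ) with hlam
  have hlam_a : a ≤ lam := le_trans (le_max_left _ _) e2
  have hlam_R : 2 * a * (R + 2) ≤ lam := le_trans (le_max_right _ _) e2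
  have hlam0 : 0 < lam := by linarith
  set m := ord η n with hm
  set g := grp η n with hg
  have hmpos : (0 : ℝ) < m := lt_of_lt_of_le (Real.rpow_pos_of_pos hn0 _) s4
  have hmn : (m : ℝ) ≤ n := by
    have h2 : m * g ≤ n := ord_mul_grp η n
    have : m ≤ n := le_trans (Nat.le_mul_of_pos_right m s2) h2
    exact_mod_cast this
  set k := ksize p ε η n with hk
  have hlogb : Real.logb (1 / (1 - p)) m = Real.log m / a := LL_eq m
  have hkeq : k = ⌈(1 + ε) * (Real.log m / a)⌉₊ := by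
    rw [hk]
    unfold ksize
    rw [← hm, hlogb]
  have hm1 : (1 : ℝ) ≤ m := by
    refine le_trans ?_ s4
    exact Real.one_le_rpow hn1 (by linarith)
  have hlogm : (1 - 2 * η) * lam ≤ Real.log m := by
    have h2 := Real.log_le_log (Real.rpow_pos_of_pos hn0 _) s4
    rwa [Real.log_rpow hn0] at h2
  have hlogm2 : Real.log m ≤ lam := Real.log_le_log hmpos hmn
  have hlogm0 : 0 ≤ Real.log (m : ℝ) := Real.log_nonneg hm1
  have hklo : (1 + ε) * ((1 - 2 * η) * LL p n) ≤ k := by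
    rw [hkeq, LL_eq, ← ha]
    refine le_trans ?_ (Nat.le_ceil _)
    refine mul_le_mul_of_nonneg_left ?_ (by linarith)
    rw [← mul_div_assoc]
    exact div_le_div_of_nonneg_right hlogm ha0.le
  have hkup : (k : ℝ) ≤ C1 * lam := by
    have h2 : (k : ℝ) < (1 + ε) * (Real.log m / a) + 1 := by
      rw [hkeq]
      exact Nat.ceil_lt_add_one (by positivity)
    have h3 : (1 + ε) * (Real.log m / a) ≤ (1 + ε) * (lam / a) := by gcongr
    have h4 : 1 ≤ (1 + ε) * (lam / a) := by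
      have : 1 ≤ lam / a := by
        rw [le_div_iff₀ ha0]
        linarith
      exact this.trans (le_mul_of_one_le_left (zero_le_one.trans this) (by linarith only [hε]))
    have e : C1 * lam = (1 + ε) * (lam / a) + (1 + ε) * (lam / a) := by
      rw [hC1]
      field_simp
      ring
    rw [e]
    linarith
  have hkR : (R : ℝ) + 2 ≤ k := by
    refine le_trans ?_ hklo
    rw [LL_eq, ← ha, ← hlam]
    have h2 : 2 * (R + 2) ≤ lam / a := by
      rw [le_div_iff₀ ha0]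
      linarith
    have h3 : 0 ≤ lam / a := by positivity
    have h4 : (1 : ℝ) / 2 ≤ 1 - 2 * η := by linarith
    have h5 : 1 / 2 * (lam / a) ≤ (1 - 2 * η) * (lam / a) := mul_le_mul_of_nonneg_right h4 h3
    have h6 : 0 ≤ (1 - 2 * η) * (lam / a) := mul_nonneg (by linarith) h3
    nlinarith only [h2, h5, h6, hε]
  have hk0 : (0 : ℝ) ≤ k := Nat.cast_nonneg _
  have hx0 : 0 < (n : ℝ) ^ (1 / 16 : ℝ) := Real.rpow_pos_of_pos hn0 _
  refine ⟨⟨?_, ?_, ?_, ?_⟩, ⟨?_, e7, ?_, ?_⟩, ⟨?_, ?_, ?_, ?_⟩, hklo⟩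
  · exact_mod_cast hkR
  · have h2 : (k : ℝ) ≤ m := by
      refine hkup.trans (le_trans ?_ s4)
      rw [pow_one] at e3
      refine e3.trans ?_
      exact Real.rpow_le_rpow_of_exponent_le hn1 (by linarith)
    exact_mod_cast h2
  · have h2 : (2 : ℝ) * (R + 2) ≤ m := e4.trans s4
    exact_mod_cast h2
  · refine le_trans ?_ e5
    calc 2 * (4 * (k : ℝ)) ^ (R + 2) ≤ 2 * (4 * (C1 * lam)) ^ (R + 2) := by gcongr
      _ = 2 * (4 * C1) ^ (R + 2) * lam ^ (R + 2) := by
          rw [← mul_assoc, mul_pow (4 * C1) lam]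
          ring
  · have h2 : (20 * (k : ℝ)) ^ (R + 1) ≤ (n : ℝ) ^ (η / 4) := by
      refine le_trans ?_ e6
      calc (20 * (k : ℝ)) ^ (R + 1) ≤ (20 * (C1 * lam)) ^ (R + 1) := by gcongr
        _ = (20 * C1) ^ (R + 1) * lam ^ (R + 1) := by
            rw [← mul_assoc, mul_pow (20 * C1) lam]
    calc (20 * (k : ℝ)) ^ (R + 1) * (n : ℝ) ^ (-(η / 4))
        ≤ (n : ℝ) ^ (η / 4) * (n : ℝ) ^ (-(η / 4)) := by gcongr
      _ = 1 := by
          rw [← Real.rpow_add hn0]
          simp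
  · have h2 : θ * k ≤ lam / 16 := by
      calc θ * k ≤ θ * (C1 * lam) := mul_le_mul_of_nonneg_left hkup hθ.le
        _ = (32 * (1 + ε) * θ) * (lam / (16 * a)) := by
            rw [hC1]
            field_simp
            ring
        _ ≤ a * (lam / (16 * a)) := by gcongr
        _ = lam / 16 := by field_simp
    have h3 : 1 / (n : ℝ) ^ (1 / 16 : ℝ) = Real.exp (-(lam / 16)) := by
      rw [Real.rpow_def_of_pos hn0, ← hlam, one_div, ← Real.exp_neg]
      congr 1
      ring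
    rw [h3]
    exact Real.exp_le_exp.2 (by linarith)
  · rw [one_div, ← Real.rpow_neg hn0.le]
    exact Real.rpow_le_rpow_of_exponent_le hn1 (by linarith)
  · rw [pow_one, div_mul_eq_mul_div, div_le_iff₀ (by positivity)] at e8
    calc 2 * (k : ℝ) ≤ 2 * (C1 * lam) := by gcongr
      _ = 2 * C1 * lam := by ring
      _ ≤ _ := e8
      _ = _ := by ring
  · rw [div_mul_eq_mul_div, div_le_iff₀ (by positivity)] at e9
    calc 4 * (k : ℝ) ^ 3 ≤ 4 * (C1 * lam) ^ 3 := by gcongr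
      _ = 4 * C1 ^ 3 * lam ^ 3 := by ring
      _ ≤ _ := e9
      _ = _ := by ring
  · calc 2 * (k : ℝ) ^ 2 ≤ 2 * (C1 * lam) ^ 2 := by gcongr
      _ = 2 * C1 ^ 2 * lam ^ 2 := by ring
      _ ≤ _ := e10
  · rw [div_mul_eq_mul_div, div_le_iff₀ (by positivity)] at e11
    calc 2 * (k : ℝ) ^ 2 ≤ 2 * (C1 * lam) ^ 2 := by gcongr
      _ = 2 * C1 ^ 2 * lam ^ 2 := by ring
      _ ≤ _ := e11
      _ = _ := by ring

open Classical in
/-- The main statement, with an absolute bound for the number of the classes, for every order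
`n ≥ n0`, with failure probability at most `n ^ (-a)`. -/
theorem coreS (h0 : 0 < p) (h1 : p < 1) {ε : ℝ} (hε : 0 < ε) {c : ℝ} (hc : 0 ≤ c) {δ : ℝ}
    (hδ : 0 < δ) :
    ∃ (γ θ : ℝ) (R K : ℕ), 0 < γ ∧ γ ≤ 1 / 4 ∧ 0 < θ ∧ ∀ a : ℝ, 0 ≤ a →
      ∀ᶠ n : ℕ in atTop, ∀ A : SetAlg, (ord γ n : ℝ) ^ (-c) ≤
        A.success p (ord γ n) ((1 + ε) * LL p (ord γ n)) →
      ∃ B : SimpleGraph (Fin n) → Prop, Prob p B ≤ (n : ℝ) ^ (-a) ∧
        ∀ G : SimpleGraph (Fin n), ¬ B G →
          (∑ ω : Seeds A γ R K n, if ((colouringS A p ε γ θ R K n G ω).length : ℝ)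
            ≤ (1 / (1 + ε) + δ) * (n / LL p n) then (0 : ℝ) else 1)
            / Fintype.card (Seeds A γ R K n) ≤ R / n := by
  obtain ⟨η, hη, hη4, hF⟩ := exists_etaA hε hδ
  have ha0 := neg_log_pos h0 h1
  set θ : ℝ := min η (-Real.log (1 - p) / (32 * (1 + ε))) with hθdef
  have hθ0 : 0 < θ := lt_min hη (by positivity)
  have hθη : θ ≤ η := min_le_left _ _
  have hθ1 : θ ≤ 1 := by linarith
  have hθε : 32 * (1 + ε) * θ ≤ -Real.log (1 - p) := by
    have h2 : θ ≤ -Real.log (1 - p) / (32 * (1 + ε)) := min_le_right _ _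
    rw [le_div_iff₀ (by positivity)] at h2
    linarith
  obtain ⟨R, hR⟩ : ∃ R : ℕ, Real.exp (-θ) ^ R < η :=
    exists_pow_lt_of_lt_one hη (by
      have := Real.exp_lt_exp.2 (show -θ < 0 by linarith)
      rwa [Real.exp_zero] at this)
  set L : ℝ := 1 + 2 * Real.exp (θ * (R + 2)) with hLdef
  have hL1 : ∀ j : ℕ, j ≤ R + 2 → 1 + 2 * Real.exp (θ * j) ≤ L := by
    intro j hj
    have h2 : (j : ℝ) ≤ R + 2 := by exact_mod_cast hj
    have h3 : Real.exp (θ * j) ≤ Real.exp (θ * (R + 2)) :=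
      Real.exp_le_exp.2 (mul_le_mul_of_nonneg_left h2 hθ0.le)
    rw [hLdef]
    linarith
  obtain ⟨K, hK⟩ : ∃ K : ℕ, c + R + 2 ≤ K := exists_nat_ge _
  refine ⟨η, θ, R, K, hη, hη4, hθ0, fun a ha => ?_⟩
  obtain ⟨n0, hbad⟩ := prob_bad_state (p := p) h0 h1 hη hη4 hc ha (R + 2) (by omega)
  have hpeel := peel_bound' (p := p) h0 h1 hη (show η < 1 by linarith) (show 0 ≤ a by linarith)
  filter_upwards [hpeel, sizes hη hη4 one_pos, eventually_ge_atTop (max 4 n0),
    facts h0 h1 hε hη hη4 hθ0 hθε R L, rest_le hη, small_exp R,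
    log_nat_tendsto.eventually_ge_atTop 1,
    rpow_eventually (show (0 : ℝ) < 1 - η by linarith) (1 / η)]
    with n e3 e4 e5 e6 e7 e8 e9 e10
  intro A hA
  obtain ⟨s1, s2, s3, s4⟩ := e4
  obtain ⟨⟨f1, f2, f3, f4⟩, ⟨f5, f6, f7, f8⟩, ⟨f9, f10, f11, f12⟩, f13⟩ := e6
  set m := ord η n with hm
  set g := grp η n with hg
  set k := ksize p ε η n with hk
  have hn4 : 4 ≤ n := le_trans (le_max_left _ _) e5
  have hn0' : n0 ≤ n := le_trans (le_max_right _ _) e5
  have hn0 : 0 < n := by omega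
  have hnr : (0 : ℝ) < n := by exact_mod_cast hn0
  have hnr4 : (4 : ℝ) ≤ n := by exact_mod_cast hn4
  have hn1 : (1 : ℝ) ≤ n := by linarith
  have hmg : m * g ≤ n := ord_mul_grp η n
  have hmpos' : (0 : ℝ) < m := lt_of_lt_of_le (Real.rpow_pos_of_pos hnr _) s4
  have hmpos : 0 < m := by exact_mod_cast hmpos'
  have hmn : (m : ℝ) ≤ n := by
    have : m ≤ n := le_trans (Nat.le_mul_of_pos_right m s2) hmg
    exact_mod_cast this
  set ps : ℝ := A.success p m k with hps
  have hpseq : ps = A.success p m ((1 + ε) * LL p m) := by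
    rw [hps, hk]
    unfold ksize
    rw [success_ceil]
    rfl
  have ha0' := neg_log_pos h0 h1
  have hLLn : 0 < LL p n := by
    rw [LL_eq]
    exact div_pos (by linarith) ha0'
  have hpsn : (n : ℝ) ^ (-c) ≤ ps := by
    rw [hpseq]
    refine le_trans ?_ hA
    exact Real.rpow_le_rpow_of_nonpos hmpos' hmn (by linarith)
  have hps0 : 0 < ps := lt_of_lt_of_le (Real.rpow_pos_of_pos hnr _) hpsn
  have hseeds : 0 < A.seeds m := seeds_pos A hps0
  have hSne : Nonempty (Sample m g (A.seeds m)) :=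
    ⟨(Equiv.refl _, fun _ => ⟨0, s2⟩, ⟨0, hseeds⟩)⟩
  have hmg2 : (n : ℝ) ≤ 2 * (m * g) := by linarith
  have hb1 := hbad n hn0' m g k hmg s1 hmg2 e7 f1 f2 f3 f4 A hpsn
  rw [← hps] at hb1
  set w : ℝ := (n : ℝ) ^ (-(η / 4)) with hw
  have hw0 : 0 < w := Real.rpow_pos_of_pos hnr _
  set x : ℝ := (n : ℝ) ^ (1 / 16 : ℝ) with hx
  have hx1 : 1 ≤ x := Real.one_le_rpow hn1 (by norm_num)
  have hx16 : (n : ℝ) = x ^ 16 := by
    rw [hx, ← Real.rpow_natCast, ← Real.rpow_mul hnr.le]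
    norm_num
  have hk1 : 1 ≤ k := by omega
  have hkr : (1 : ℝ) ≤ k := by exact_mod_cast hk1
  -- the bad graphs
  refine ⟨fun G =>
    ¬ St (found A hmg k G) (inGroups n m g) (D0 ps k m g) w n (E0 ps n) (R + 2) ∅ ∨
      ¬ ∀ T : Finset (Fin n), ((peel G T).length : ℝ)
        ≤ T.card / ((1 - η) * LL p n) + η * n / LL p n, ?_, ?_⟩
  · refine ((Prob_or h0 h1 _ _).trans (add_le_add hb1 e3)).trans ?_
    have e : (n : ℝ) ^ (-a) = n * (n : ℝ) ^ (-(a + 1)) := by
      rw [mul_comm, ← Real.rpow_add_one hnr.ne']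
      congr 1
      ring
    rw [e]
    have : 0 ≤ (n : ℝ) ^ (-(a + 1)) := Real.rpow_nonneg hnr.le _
    have h9 := mul_le_mul_of_nonneg_right hnr4 this
    linarith only [h9, this]
  intro G hG
  push Not at hG
  obtain ⟨g1, g2⟩ := hG
  have hSt0 : StR A hmg k R G ps w θ L 0 (covered ([] : List (Finset (Fin n)))) := by
    unfold StR
    simp only [pow_zero, mul_one, covered_nil, Nat.sub_zero]
    exact g1
  have hξ : 0 ≤ 1 / (n : ℝ) := by positivity
  have hfail := rounds_fail A hmg k θ G (N := n) (B := n ^ K) (R := R)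
    (StR A hmg k R G ps w θ L) hξ (fun r hr C hS => by
      refine (step_ok A hmg k R K G (c := c) hx16 hx1 rfl hn4 (Nat.mul_pos hmpos s2) hps0 hpsn
        hK hk1 hθ0 hθ1 f8 f5 hL1 f6 f7 f9 f10 f11 f12 r hr C hS).trans ?_
      refine le_trans ?_ e8
      refine mul_le_mul_of_nonneg_right ?_ (Real.exp_pos _).le
      have h2 : ((inGroups n m g).card : ℝ) ≤ n := by
        rw [card_inGroups hmg]
        exact_mod_cast hmg
      have h3 : ((univ.filter fun J : Finset (Fin n) => J.card ≤ R + 1 - r).card : ℝ)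
          ≤ ((n : ℝ) + 1) ^ (R + 1) := by
        have h4 := card_small (Fin n) (R + 1 - r)
        rw [Fintype.card_fin] at h4
        have h5 : ((univ.filter fun J : Finset (Fin n) => J.card ≤ R + 1 - r).card : ℝ)
            ≤ ((n : ℝ) + 1) ^ (R + 1 - r) := by exact_mod_cast h4
        refine h5.trans ?_
        exact pow_le_pow_right₀ (by linarith) (by omega)
      linarith) R 0 [] (by omega) hSt0
  rw [show (R : ℝ) / n = R * (1 / n) by ring]
  refine le_trans (le_trans (le_of_eq ?_) (av_mono (F := fun ω : Fin R → Fin n →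
    Fin (n ^ K) → Sample m g (A.seeds m) =>
    if ((colouringS A p ε η θ R K n G ω).length : ℝ)
      ≤ (1 / (1 + ε) + δ) * (n / LL p n) then (0 : ℝ) else 1) fun ω => ?_)) hfail
  · rfl
  by_cases hS : StR A hmg k R G ps w θ L R
      (covered (rounds A hmg k θ G 0 [] (List.ofFn ω)))
  swap
  · rw [if_pos hS]
    split_ifs <;> norm_num
  have hgoal : ((colouringS A p ε η θ R K n G ω).length : ℝ)
      ≤ (1 / (1 + ε) + δ) * (n / LL p n) := ?_
  · rw [if_pos hgoal, if_neg (fun h' => h' hS)]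
  set Ls := rounds A hmg k θ G 0 [] (List.ofFn ω) with hLs
  have hlen : (Ls.length : ℝ) ≤ (1 + η) * (n / k) := by
    have h2 := rounds_length A hmg k θ G (List.ofFn ω) 0 []
    rw [List.length_ofFn, List.length_nil, zero_add] at h2
    have h3 : (Ls.length : ℝ) ≤ ((∑ i ∈ Finset.range R, msize θ k n (0 + i) : ℕ) : ℝ) := by
      exact_mod_cast h2
    refine h3.trans ((msize_sum hθ0 (by omega) R).trans ?_)
    have : 0 ≤ (n : ℝ) / k := by positivity
    exact mul_le_mul_of_nonneg_right (by linarith only [hθη]) this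
  have hcov : ((Finset.univ \ covered Ls).card : ℝ) ≤ 3 * η * n := by
    obtain ⟨_, _, t3⟩ := hS
    rw [abs_le] at t3
    have hκ1 : w * (20 * (k : ℝ)) ^ R ≤ 1 := by
      refine le_trans ?_ f5
      rw [mul_comm]
      refine mul_le_mul_of_nonneg_right ?_ hw0.le
      exact pow_le_pow_right₀ (by linarith) (by omega)
    have hN : (n : ℝ) * Real.exp (-θ) ^ R ≤ η * n := by
      have := mul_le_mul_of_nonneg_left hR.le hnr.le
      linarith
    have hN0 : 0 ≤ (n : ℝ) * Real.exp (-θ) ^ R := by positivity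
    have h2 : ((inGroups n m g \ covered Ls).card : ℝ) ≤ 2 * (η * n) := by
      have h3 := t3.2
      have h4 : w * (20 * (k : ℝ)) ^ R * ((n : ℝ) * Real.exp (-θ) ^ R)
          ≤ 1 * ((n : ℝ) * Real.exp (-θ) ^ R) := mul_le_mul_of_nonneg_right hκ1 hN0
      linarith
    have h3 : (Finset.univ \ covered Ls).card
        ≤ (inGroups n m g \ covered Ls).card + (Finset.univ \ inGroups n m g).card := by
      have : (Finset.univ \ covered Ls)
          ⊆ (inGroups n m g \ covered Ls) ∪ (Finset.univ \ inGroups n m g) := by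
        intro v
        simp only [Finset.mem_sdiff, Finset.mem_union, Finset.mem_univ, true_and]
        tauto
      exact (Finset.card_le_card this).trans (Finset.card_union_le _ _)
    have h4 : ((Finset.univ \ inGroups n m g).card : ℝ) ≤ η * n := by
      rw [Finset.cast_card_sdiff (Finset.subset_univ _), Finset.card_univ, Fintype.card_fin,
        card_inGroups hmg]
      push_cast
      refine e7.trans ?_
      rw [div_le_iff₀ hη] at e10
      calc (n : ℝ) ^ η = 1 * (n : ℝ) ^ η := (one_mul _).symm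
        _ ≤ ((n : ℝ) ^ (1 - η) * η) * (n : ℝ) ^ η := by gcongr
        _ = η * ((n : ℝ) ^ (1 - η) * (n : ℝ) ^ η) := by ring
        _ = η * n := by
            rw [← Real.rpow_add hnr, sub_add_cancel, Real.rpow_one]
    have h5 : ((Finset.univ \ covered Ls).card : ℝ)
        ≤ ((inGroups n m g \ covered Ls).card : ℝ) + (Finset.univ \ inGroups n m g).card := by
      exact_mod_cast h3
    linarith
  refine (count_leA hε hη hη4 G hLLn (by omega) f13 g2 Ls hlen hcov).trans ?_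
  exact mul_le_mul_of_nonneg_right hF (by positivity)

end Pool.Agent.H72.KarpS
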