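import Pool.Agent.H72.KarpS.AlphaS
import Pool.Agent.H72.KarpS.Main

/-!
The random graph has independent sets with `(2 - η) log_b n` vertices, except with probability
smaller than any fixed power of `1/n`.
-/

set_option autoImplicit false
set_option linter.unusedSectionVars false

namespace Pool.Agent.H72.KarpS

open Finset Pool.Agent.H85.Online Pool.Agent.H72.Karp Filter

variable {p : ℝ} {n : ℕ}

open Classical in
theorem EG_cs (h0 : 0 < p) (h1 : p < 1) (F F' : SimpleGraph (Fin n) → ℝ) :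
    EG p (fun G => F G * F' G) ^ 2 ≤ EG p (fun G => F G ^ 2) * EG p (fun G => F' G ^ 2) := by
  rw [EG_eq, EG_eq, EG_eq]
  exact EE_cs h0 h1 _ _

open Classical in
/-- the number of independent sets with `k` vertices -/
noncomputable def cnt (k : ℕ) (G : SimpleGraph (Fin n)) : ℝ :=
  ∑ S ∈ (univ : Finset (Fin n)).powersetCard k, if Indep G S then (1 : ℝ) else 0

theorem EG_cnt (k : ℕ) : EG p (cnt k : SimpleGraph (Fin n) → ℝ)
    = ((n.choose k : ℕ) : ℝ) * (1 - p) ^ (k.choose 2) := by
  classical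
  have e1 : (cnt k : SimpleGraph (Fin n) → ℝ)
      = fun G => ∑ S ∈ (univ : Finset (Fin n)).powersetCard k,
        if Indep G S then (1 : ℝ) else 0 := by
    funext G
    unfold cnt
    refine Finset.sum_congr rfl fun S _ => ?_
    by_cases h : Indep G S <;> simp [h]
  rw [e1, EG_sum]
  have e2 : ∀ S ∈ (univ : Finset (Fin n)).powersetCard k,
      EG p (fun G : SimpleGraph (Fin n) => if Indep G S then (1 : ℝ) else 0)
        = (1 - p) ^ (k.choose 2) := by
    intro S hS
    have h2 := Prob_indep (p := p) S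
    rw [Prob_eq, (Finset.mem_powersetCard.1 hS).2] at h2
    rw [← h2]
  rw [Finset.sum_congr rfl e2, Finset.sum_const, Finset.card_powersetCard, Finset.card_univ,
    Fintype.card_fin, nsmul_eq_mul]

theorem EG_cnt_sq (h0 : 0 < p) (h1 : p < 1) {k : ℕ} (hkm : 2 * k ≤ n)
    (hb : 2 * (k : ℝ) ^ 2 * Real.exp (-Real.log (1 - p) * ((k : ℝ) - 1) / 2) ≤ n) :
    EG p (fun G : SimpleGraph (Fin n) => cnt k G ^ 2)
      ≤ (k + 1) * (((n.choose k : ℕ) : ℝ) * (1 - p) ^ (k.choose 2)) ^ 2 := by
  classical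
  have e1 : (fun G : SimpleGraph (Fin n) => cnt k G ^ 2)
      = fun G => ∑ S ∈ (univ : Finset (Fin n)).powersetCard k,
        ∑ T ∈ (univ : Finset (Fin n)).powersetCard k,
        if Indep G S ∧ Indep G T then (1 : ℝ) else 0 := by
    funext G
    unfold cnt
    rw [sq, Finset.sum_mul_sum]
    refine Finset.sum_congr rfl fun S _ => Finset.sum_congr rfl fun T _ => ?_
    by_cases hS : Indep G S <;> by_cases hT : Indep G T <;> simp [hS, hT]
  rw [e1, EG_sum]
  have e2 : ∀ S ∈ (univ : Finset (Fin n)).powersetCard k,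
      EG p (fun G : SimpleGraph (Fin n) => ∑ T ∈ (univ : Finset (Fin n)).powersetCard k,
        if Indep G S ∧ Indep G T then (1 : ℝ) else 0)
        ≤ (k + 1) * ((n.choose k : ℕ) : ℝ) * ((1 - p) ^ (k.choose 2)) ^ 2 := by
    intro S hS
    rw [EG_sum]
    refine le_trans (le_of_eq ?_) (second_le h0 h1 hkm hb S (Finset.mem_powersetCard.1 hS).2)
    refine Finset.sum_congr rfl fun T _ => ?_
    rw [Prob_eq]
    refine congrArg (EG p) (funext fun G => ?_)
    by_cases hS : Indep G S <;> by_cases hT : Indep G T <;> simp [hS, hT]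
  refine (Finset.sum_le_card_nsmul _ _ _ e2).trans (le_of_eq ?_)
  rw [Finset.card_powersetCard, Finset.card_univ, Fintype.card_fin, nsmul_eq_mul]
  ring

/-- the second moment method -/
theorem exists_indep_prob (h0 : 0 < p) (h1 : p < 1) {k : ℕ} (hkm : 2 * k ≤ n)
    (hb : 2 * (k : ℝ) ^ 2 * Real.exp (-Real.log (1 - p) * ((k : ℝ) - 1) / 2) ≤ n) :
    1 / ((k : ℝ) + 1) ≤ Prob p (fun G : SimpleGraph (Fin n) =>
      ∃ I : Finset (Fin n), Indep G I ∧ I.card = k) := by
  classical
  set E : SimpleGraph (Fin n) → Prop := fun G => ∃ I : Finset (Fin n), Indep G I ∧ I.card = k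
    with hE
  set F : SimpleGraph (Fin n) → ℝ := fun G => if E G then 1 else 0 with hF
  have hP : Prob p E = EG p (fun G => F G ^ 2) := by
    rw [Prob_eq]
    congr 1
    funext G
    by_cases h : E G
    · rw [if_pos h, hF]
      simp [h]
    · rw [if_neg h, hF]
      simp [h]
  have hmul : ∀ G, cnt k G * F G = cnt k G := by
    intro G
    by_cases h : E G
    · rw [hF]
      simp [h]
    · have hz : cnt k G = 0 := by
        unfold cnt
        refine Finset.sum_eq_zero fun S hS => ?_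
        rw [if_neg]
        intro hi
        exact h ⟨S, hi, (Finset.mem_powersetCard.1 hS).2⟩
      rw [hz, zero_mul]
  have hcs := EG_cs h0 h1 (cnt k) F
  rw [show (fun G : SimpleGraph (Fin n) => cnt k G * F G) = cnt k from funext hmul, EG_cnt,
    ← hP] at hcs
  have h2 := EG_cnt_sq (p := p) h0 h1 hkm hb
  set μ : ℝ := ((n.choose k : ℕ) : ℝ) * (1 - p) ^ (k.choose 2) with hμ
  have hμ0 : 0 < μ := by
    rw [hμ]
    refine mul_pos ?_ (pow_pos (by linarith) _)
    exact_mod_cast Nat.choose_pos (by omega)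
  have hP0 := Prob_nonneg h0 h1 E
  have h3 : μ ^ 2 ≤ (k + 1) * μ ^ 2 * Prob p E :=
    hcs.trans (mul_le_mul_of_nonneg_right h2 hP0)
  have hk1 : (0 : ℝ) < k + 1 := by positivity
  rw [div_le_iff₀ hk1]
  have h4 : μ ^ 2 * 1 ≤ μ ^ 2 * (Prob p E * (k + 1)) := by linarith
  exact le_of_mul_le_mul_left h4 (by positivity)

theorem exists_indep_large (h0 : 0 < p) (h1 : p < 1) {η : ℝ} (hη : 0 < η) (hη2 : η < 2) :
    ∀ᶠ n : ℕ in atTop, 1 / (n : ℝ) ≤ Prob p (fun G : SimpleGraph (Fin n) =>
      ∃ I : Finset (Fin n), Indep G I ∧ (2 - η) * LL p n ≤ I.card) := by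
  set a : ℝ := -Real.log (1 - p) with ha
  have ha0 : 0 < a := neg_log_pos h0 h1
  set C1 : ℝ := 3 / a with hC1
  have hC10 : 0 < C1 := by positivity
  filter_upwards [eventually_ge_atTop 1, log_nat_tendsto.eventually_ge_atTop a,
    polylog_eventually (8 * C1 + 8) 1 (show (0 : ℝ) < 1 by norm_num),
    log_nat_tendsto.eventually_ge_atTop 1,
    polylog_eventually (2 * C1 ^ 2) 2 (show (0 : ℝ) < η / 2 by positivity)]
    with n e1 e2 e3 e4 e5
  have hn0 : (0 : ℝ) < n := by exact_mod_cast e1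
  set lam : ℝ := Real.log (n : ℝ) with hlam
  have hLL : LL p n = lam / a := LL_eq n
  set k : ℕ := ⌈(2 - η) * LL p n⌉₊ with hk
  have hk1 : (2 - η) * LL p n ≤ k := Nat.le_ceil _
  have hk2 : (k : ℝ) < (2 - η) * LL p n + 1 := by
    refine Nat.ceil_lt_add_one ?_
    rw [hLL]
    have : 0 ≤ 2 - η := by linarith
    positivity
  have hla : 1 ≤ lam / a := by
    rw [le_div_iff₀ ha0]
    linarith
  have hkC : (k : ℝ) ≤ C1 * lam := by
    have e : C1 * lam = 2 * (lam / a) + lam / a := by
      rw [hC1]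
      field_simp
      ring
    rw [e]
    rw [hLL] at hk2
    have : (2 - η) * (lam / a) ≤ 2 * (lam / a) := by
      refine mul_le_mul_of_nonneg_right (by linarith) (by positivity)
    linarith
  rw [pow_one, Real.rpow_one] at e3
  have hkn : 4 * (k : ℝ) + 4 ≤ n := by
    nlinarith
  have h2 := exists_indep_prob (p := p) (n := n) h0 h1 (k := k) (by
    have : 2 * (k : ℝ) ≤ n := by
      have : (0 : ℝ) ≤ k := Nat.cast_nonneg _
      linarith
    exact_mod_cast this) (by
    have h3 : Real.exp (-Real.log (1 - p) * ((k : ℝ) - 1) / 2) ≤ (n : ℝ) ^ (1 - η / 2) := by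
      rw [← ha, Real.rpow_def_of_pos hn0, ← hlam]
      apply Real.exp_le_exp.2
      have h4 : a * ((k : ℝ) - 1) ≤ (2 - η) * lam := by
        have h5 : (k : ℝ) - 1 ≤ (2 - η) * (lam / a) := by
          rw [hLL] at hk2
          linarith
        have h6 := mul_le_mul_of_nonneg_left h5 ha0.le
        have e : a * ((2 - η) * (lam / a)) = (2 - η) * lam := by field_simp
        linarith
      linarith
    calc 2 * (k : ℝ) ^ 2 * Real.exp (-Real.log (1 - p) * ((k : ℝ) - 1) / 2)
        ≤ 2 * (C1 * lam) ^ 2 * (n : ℝ) ^ (1 - η / 2) := by gcongr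
      _ = 2 * C1 ^ 2 * lam ^ 2 * (n : ℝ) ^ (1 - η / 2) := by ring
      _ ≤ (n : ℝ) ^ (η / 2) * (n : ℝ) ^ (1 - η / 2) := by gcongr
      _ = n := by
          rw [← Real.rpow_add hn0]
          rw [show η / 2 + (1 - η / 2) = 1 by ring, Real.rpow_one])
  calc 1 / (n : ℝ) ≤ 1 / ((k : ℝ) + 1) := by
        refine one_div_le_one_div_of_le (by positivity) ?_
        have : (0 : ℝ) ≤ k := Nat.cast_nonneg _
        linarith
    _ ≤ _ := h2
    _ ≤ _ := by
        refine Prob_mono h0 h1 fun G hG => ?_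
        obtain ⟨I, hI, hc⟩ := hG
        refine ⟨I, hI, ?_⟩
        rw [hc]
        exact hk1

/-- large independent sets exist except with very small probability -/
theorem alpha_low (h0 : 0 < p) (h1 : p < 1) {η : ℝ} (hη : 0 < η) (hη1 : η < 1) {a : ℝ}
    (ha : 0 ≤ a) :
    ∀ᶠ n : ℕ in atTop, Prob p (fun G : SimpleGraph (Fin n) =>
      ¬ ∃ I : Finset (Fin n), Indep G I ∧ (2 - η) * LL p n ≤ I.card) ≤ (n : ℝ) ^ (-a) := by
  classical
  set γ : ℝ := η / 8 with hγ
  have hγ0 : 0 < γ := by positivity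
  have hγ1 : γ ≤ 1 / 4 := by rw [hγ]; linarith
  obtain ⟨n1, hn1⟩ := tail_gen (p := p) h0 h1 (γ := γ) (c := 1) (a := a) (b := -(γ / 4))
    hγ0 zero_le_one ha 1 (by push_cast; linarith) 1
  have hex := (ord_tendsto hγ0 hγ1).eventually
    (exists_indep_large (p := p) h0 h1 (half_pos hη) (by linarith))
  filter_upwards [hex, sizes hγ0 hγ1 one_pos, eventually_ge_atTop (max n1 2)] with n e1 e2 e3
  obtain ⟨s1, s2, s3, s4⟩ := e2
  set m := ord γ n with hm
  set g := grp γ n with hg
  have hn1' : n1 ≤ n := le_trans (le_max_left _ _) e3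
  have hn2 : 2 ≤ n := le_trans (le_max_right _ _) e3
  have hnr : (0 : ℝ) < n := by exact_mod_cast (show 0 < n by omega)
  have hnr1 : (1 : ℝ) < n := by exact_mod_cast (show 1 < n by omega)
  have hmg : m * g ≤ n := ord_mul_grp γ n
  have hmpos : (0 : ℝ) < m := lt_of_lt_of_le (Real.rpow_pos_of_pos hnr _) s4
  have hmn : (m : ℝ) ≤ n := by
    have : m ≤ n := le_trans (Nat.le_mul_of_pos_right m s2) hmg
    exact_mod_cast this
  set E : SimpleGraph (Fin m) → Prop := fun G =>
    ∃ I : Finset (Fin m), Indep G I ∧ (2 - η / 2) * LL p m ≤ I.card with hE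
  set hh : SimpleGraph (Fin m) → ℝ := fun G => if E G then 1 else 0 with hhh
  have hmean : EG p hh = Prob p E := by
    rw [Prob_eq]
    congr 1
    funext G
    by_cases h : E G
    · rw [hhh]
      simp [h]
    · rw [hhh]
      simp [h]
  have hmlow : (n : ℝ) ^ (-(1 : ℝ)) ≤ EG p hh := by
    rw [hmean, Real.rpow_neg_one, ← one_div]
    exact (one_div_le_one_div_of_le hmpos hmn).trans e1
  have hα : Nonempty (Fin m → Fin g) := ⟨fun _ => ⟨0, s2⟩⟩
  obtain ⟨α⟩ := hα
  have h3 := hn1 n hn1' m g hmg s1 ∅ (by simp) (fun T hT => vs_sdiff_pos (by simp) hT) α hh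
    (fun G => by rw [hhh]; dsimp only; split_ifs <;> norm_num)
    (fun G => by rw [hhh]; dsimp only; split_ifs <;> norm_num) hmlow
  refine le_trans (Prob_mono h0 h1 fun G hG => ?_) h3
  have hzero : ∀ f : Fin m → Fin g, hh (G.comap (sf hmg f)) = 0 := by
    intro f
    rw [hhh]
    dsimp only
    rw [if_neg]
    rintro ⟨I, hI, hc⟩
    apply hG
    refine ⟨I.map (sf hmg f), ?_, ?_⟩
    · intro u hu v hv
      obtain ⟨x, hx, rfl⟩ := Finset.mem_map.1 hu
      obtain ⟨y, hy, rfl⟩ := Finset.mem_map.1 hv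
      exact hI x hx y hy
    · rw [Finset.card_map]
      refine le_trans ?_ hc
      have hlog : (1 - 2 * γ) * Real.log n ≤ Real.log m := by
        have h2 := Real.log_le_log (Real.rpow_pos_of_pos hnr _) s4
        rwa [Real.log_rpow hnr] at h2
      have hlogn : 0 ≤ Real.log (n : ℝ) := Real.log_nonneg hnr1.le
      rw [LL_eq, LL_eq, ← mul_div_assoc, ← mul_div_assoc]
      refine div_le_div_of_nonneg_right ?_ (neg_log_pos h0 h1).le
      calc (2 - η) * Real.log n ≤ (2 - η / 2) * ((1 - 2 * γ) * Real.log n) := by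
            rw [← mul_assoc]
            refine mul_le_mul_of_nonneg_right ?_ hlogn
            rw [hγ]
            nlinarith
        _ ≤ (2 - η / 2) * Real.log m := mul_le_mul_of_nonneg_left hlog (by linarith)
  simp only [hzero, mul_zero, Finset.sum_const_zero, Finset.card_empty, pow_zero, one_mul,
    zero_sub, abs_neg]
  have hpos : 0 < EG p hh := lt_of_lt_of_le (Real.rpow_pos_of_pos hnr _) hmlow
  rw [abs_of_pos hpos]
  have hlt : (n : ℝ) ^ (-(γ / 4)) < 1 := Real.rpow_lt_one_of_one_lt_of_neg hnr1 (by linarith)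
  nlinarith

end Pool.Agent.H72.KarpS
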