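import Mathlib

/-!
Averages over finite sets, and the bounded difference inequality for a product.
-/

set_option autoImplicit false
set_option linter.unusedSectionVars false

namespace Pool.Agent.H72.KarpS

open Finset

/-- the average over a finite type -/
noncomputable def av {X : Type} [Fintype X] (F : X → ℝ) : ℝ := (∑ x, F x) / Fintype.card X

section basic

variable {X Y : Type} [Fintype X] [Fintype Y]

theorem av_mono {F G : X → ℝ} (h : ∀ x, F x ≤ G x) : av F ≤ av G :=
  div_le_div_of_nonneg_right (Finset.sum_le_sum fun x _ => h x) (Nat.cast_nonneg _)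

theorem av_congr {F G : X → ℝ} (h : ∀ x, F x = G x) : av F = av G := by
  rw [show F = G from funext h]

theorem av_nonneg {F : X → ℝ} (h : ∀ x, 0 ≤ F x) : 0 ≤ av F :=
  div_nonneg (Finset.sum_nonneg fun x _ => h x) (Nat.cast_nonneg _)

theorem av_add (F G : X → ℝ) : av (fun x => F x + G x) = av F + av G := by
  unfold av
  rw [Finset.sum_add_distrib, add_div]

theorem av_sub (F G : X → ℝ) : av (fun x => F x - G x) = av F - av G := by
  unfold av
  rw [Finset.sum_sub_distrib, sub_div]

theorem av_mul_left (c : ℝ) (F : X → ℝ) : av (fun x => c * F x) = c * av F := by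
  unfold av
  rw [← Finset.mul_sum, mul_div_assoc]

theorem av_mul_right (c : ℝ) (F : X → ℝ) : av (fun x => F x * c) = av F * c := by
  unfold av
  rw [← Finset.sum_mul, div_mul_eq_mul_div]

theorem av_neg (F : X → ℝ) : av (fun x => - F x) = - av F := by
  unfold av
  rw [Finset.sum_neg_distrib, neg_div]

theorem av_sum {α : Type} (s : Finset α) (F : α → X → ℝ) :
    av (fun x => ∑ a ∈ s, F a x) = ∑ a ∈ s, av (F a) := by
  unfold av
  rw [Finset.sum_comm, Finset.sum_div]

theorem av_const [Nonempty X] (c : ℝ) : av (fun _ : X => c) = c := by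
  unfold av
  have : (0 : ℝ) < Fintype.card X := by exact_mod_cast Fintype.card_pos
  rw [Finset.sum_const, Finset.card_univ, nsmul_eq_mul]
  field_simp

theorem av_le_const [Nonempty X] {F : X → ℝ} {c : ℝ} (h : ∀ x, F x ≤ c) : av F ≤ c := by
  rw [← av_const (X := X) c]
  exact av_mono h

theorem const_le_av [Nonempty X] {F : X → ℝ} {c : ℝ} (h : ∀ x, c ≤ F x) : c ≤ av F := by
  rw [← av_const (X := X) c]
  exact av_mono h

theorem av_comm (F : X → Y → ℝ) : av (fun x => av (F x)) = av (fun y => av fun x => F x y) := by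
  unfold av
  rw [← Finset.sum_div, ← Finset.sum_div, Finset.sum_comm, div_div, div_div, mul_comm]

/-- an average over functions on `Fin (N+1)` -/
theorem av_cons {N : ℕ} (F : (Fin (N + 1) → X) → ℝ) :
    av F = av (fun x : X => av fun y : Fin N → X => F (Fin.cons x y)) := by
  unfold av
  rw [← Finset.sum_div, div_div, ← Fintype.sum_prod_type',
    ← (Fin.consEquiv (fun _ => X)).sum_comp]
  congr 1
  simp only [Fintype.card_pi, Finset.prod_const, Finset.card_univ, Fintype.card_fin]
  push_cast
  rw [pow_succ]

theorem av_pi_zero (F : (Fin 0 → X) → ℝ) (y : Fin 0 → X) : av F = F y := by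
  have h : F = fun _ => F y := by
    funext x
    rw [Subsingleton.elim x y]
  rw [h]
  exact av_const (F y)

/-- the average of a product of functions of the different coordinates -/
theorem av_prod {N : ℕ} (f : Fin N → X → ℝ) :
    av (fun x : Fin N → X => ∏ i, f i (x i)) = ∏ i, av (f i) := by
  unfold av
  rw [Finset.prod_div_distrib, Finset.prod_univ_sum, Fintype.piFinset_univ]
  congr 1
  simp only [Fintype.card_pi, Finset.prod_const, Finset.card_univ, Fintype.card_fin]
  push_cast
  rfl

open Classical in
theorem av_ind_le_one [Nonempty X] (E : X → Prop) : av (fun x => if E x then (1 : ℝ) else 0) ≤ 1 :=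
  av_le_const fun x => by split_ifs <;> norm_num

open Classical in
theorem av_ind_nonneg (E : X → Prop) : 0 ≤ av (fun x => if E x then (1 : ℝ) else 0) :=
  av_nonneg fun x => by split_ifs <;> norm_num

open Classical in
/-- union bound -/
theorem av_exists {α : Type} (s : Finset α) (E : α → X → Prop) :
    av (fun x => if ∃ a ∈ s, E a x then (1 : ℝ) else 0)
      ≤ ∑ a ∈ s, av (fun x => if E a x then (1 : ℝ) else 0) := by
  rw [← av_sum]
  refine av_mono fun x => ?_
  split_ifs with h
  · obtain ⟨a, ha, hx⟩ := h
    refine le_trans ?_ (Finset.single_le_sum (f := fun a => if E a x then (1 : ℝ) else 0)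
      (fun a _ => by split_ifs <;> norm_num) ha)
    simp only [if_pos hx, le_refl]
  · exact Finset.sum_nonneg fun a _ => by split_ifs <;> norm_num

open Classical in
theorem av_or (E E' : X → Prop) :
    av (fun x => if E x ∨ E' x then (1 : ℝ) else 0)
      ≤ av (fun x => if E x then (1 : ℝ) else 0) + av (fun x => if E' x then (1 : ℝ) else 0) := by
  rw [← av_add]
  refine av_mono fun x => ?_
  by_cases h1 : E x <;> by_cases h2 : E' x <;> simp [h1, h2]

end basic

section mcd

variable {X : Type} [Fintype X] [Nonempty X]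

/-- Hoeffding's lemma -/
theorem hoeffding {z : X → ℝ} {c : ℝ} (hc : 0 ≤ c) (hz : ∀ x, |z x| ≤ c) (h0 : av z = 0) (s : ℝ) :
    av (fun x => Real.exp (s * z x)) ≤ Real.exp (s ^ 2 * c ^ 2 / 2) := by
  rcases hc.eq_or_lt with rfl | hc
  · have : ∀ x, z x = 0 := fun x => abs_nonpos_iff.1 (hz x)
    simp only [this, mul_zero, Real.exp_zero]
    rw [av_const]
    norm_num
  have h1 : ∀ x, Real.exp (s * z x)
      ≤ Real.cosh (s * c) + z x * (Real.sinh (s * c) / c) := by
    intro x
    have ht : |z x / c| ≤ 1 := by
      rw [abs_div, abs_of_pos hc, div_le_one hc]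
      exact hz x
    have h2 := Real.exp_mul_le_cosh_add_mul_sinh ht (s * c)
    have e1 : z x / c * (s * c) = s * z x := by field_simp
    have e2 : z x / c * Real.sinh (s * c) = z x * (Real.sinh (s * c) / c) := by ring
    rw [e1, e2] at h2
    exact h2
  calc av (fun x => Real.exp (s * z x))
      ≤ av (fun x => Real.cosh (s * c) + z x * (Real.sinh (s * c) / c)) := av_mono h1
    _ = Real.cosh (s * c) := by rw [av_add, av_const, av_mul_right, h0, zero_mul, add_zero]
    _ ≤ Real.exp ((s * c) ^ 2 / 2) := Real.cosh_le_exp_half_sq _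
    _ = _ := by
        congr 1
        ring

/-- the moment generating function of a function with bounded differences -/
theorem mcd_mgf (N : ℕ) : ∀ (f : (Fin N → X) → ℝ) (c : Fin N → ℝ) (_ : ∀ i, 0 ≤ c i)
    (_ : ∀ i x y, (∀ j, j ≠ i → x j = y j) → |f x - f y| ≤ c i) (s : ℝ),
    av (fun x => Real.exp (s * (f x - av f))) ≤ Real.exp (s ^ 2 * (∑ i, c i ^ 2) / 2) := by
  induction N with
  | zero =>
    intro f c _ _ s
    have h : ∀ x : Fin 0 → X, f x - av f = 0 := by
      intro x
      rw [av_pi_zero f x, sub_self]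
    simp only [h, mul_zero, Real.exp_zero]
    rw [av_const]
    simp
  | succ N ih =>
    intro f c hc hf s
    set g : X → ℝ := fun x => av fun y : Fin N → X => f (Fin.cons x y) with hg
    have havg : av f = av g := av_cons f
    have h1 : ∀ x : X, av (fun y : Fin N → X => Real.exp (s * (f (Fin.cons x y) - g x)))
        ≤ Real.exp (s ^ 2 * (∑ i : Fin N, c i.succ ^ 2) / 2) := by
      intro x
      refine ih (fun y => f (Fin.cons x y)) (fun i => c i.succ) (fun i => hc _) ?_ s
      intro i y y' hy
      refine hf i.succ _ _ ?_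
      intro j
      refine Fin.cases ?_ ?_ j
      · intro _
        simp
      · intro k hk
        simp only [Fin.cons_succ]
        exact hy k fun h => hk (by rw [h])
    have hgd : ∀ x x' : X, |g x - g x'| ≤ c 0 := by
      intro x x'
      rw [hg]
      simp only
      rw [← av_sub]
      have h2 : ∀ y : Fin N → X, |f (Fin.cons x y) - f (Fin.cons x' y)| ≤ c 0 := by
        intro y
        refine hf 0 _ _ ?_
        intro j
        refine Fin.cases ?_ ?_ j
        · intro h
          exact absurd rfl h
        · intro k _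
          simp
      rw [abs_le]
      exact ⟨const_le_av fun y => (abs_le.1 (h2 y)).1, av_le_const fun y => (abs_le.1 (h2 y)).2⟩
    have hgz : ∀ x, |g x - av g| ≤ c 0 := by
      intro x
      have e : g x - av g = av (fun x' => g x - g x') := by
        rw [av_sub, av_const]
      rw [e, abs_le]
      exact ⟨const_le_av fun y => (abs_le.1 (hgd x y)).1, av_le_const fun y => (abs_le.1 (hgd x y)).2⟩
    have h2 := hoeffding (z := fun x => g x - av g) (hc 0) hgz (by rw [av_sub, av_const, sub_self]) s
    rw [av_cons, havg]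
    calc av (fun x : X => av fun y : Fin N → X => Real.exp (s * (f (Fin.cons x y) - av g)))
        = av (fun x : X => Real.exp (s * (g x - av g)) *
            av fun y : Fin N → X => Real.exp (s * (f (Fin.cons x y) - g x))) := by
          refine av_congr fun x => ?_
          rw [← av_mul_left]
          refine av_congr fun y => ?_
          rw [← Real.exp_add]
          congr 1
          ring
      _ ≤ av (fun x : X => Real.exp (s * (g x - av g)) *
            Real.exp (s ^ 2 * (∑ i : Fin N, c i.succ ^ 2) / 2)) :=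
          av_mono fun x => mul_le_mul_of_nonneg_left (h1 x) (Real.exp_pos _).le
      _ = av (fun x : X => Real.exp (s * (g x - av g))) *
            Real.exp (s ^ 2 * (∑ i : Fin N, c i.succ ^ 2) / 2) := av_mul_right _ _
      _ ≤ Real.exp (s ^ 2 * c 0 ^ 2 / 2) * Real.exp (s ^ 2 * (∑ i : Fin N, c i.succ ^ 2) / 2) :=
          mul_le_mul_of_nonneg_right h2 (Real.exp_pos _).le
      _ = _ := by
          rw [← Real.exp_add, Fin.sum_univ_succ]
          congr 1
          ring

open Classical in
/-- the upper tail -/
theorem mcd_upper {N : ℕ} (f : (Fin N → X) → ℝ) (c : Fin N → ℝ) (hc : ∀ i, 0 ≤ c i)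
    (hf : ∀ i x y, (∀ j, j ≠ i → x j = y j) → |f x - f y| ≤ c i) {S lam : ℝ} (hS : 0 < S)
    (hcS : ∑ i, c i ^ 2 ≤ S) (hlam : 0 ≤ lam) :
    av (fun x => if lam ≤ f x - av f then (1 : ℝ) else 0) ≤ Real.exp (-(lam ^ 2 / (2 * S))) := by
  set s : ℝ := lam / S with hs
  have hs0 : 0 ≤ s := div_nonneg hlam hS.le
  have h1 := mcd_mgf N f c hc hf s
  have h2 : av (fun x => if lam ≤ f x - av f then (1 : ℝ) else 0)
      ≤ av (fun x => Real.exp (s * (f x - av f)) * Real.exp (-(s * lam))) := by
    refine av_mono fun x => ?_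
    split_ifs with h
    · rw [← Real.exp_add]
      apply Real.one_le_exp
      nlinarith
    · positivity
  refine h2.trans ?_
  rw [av_mul_right]
  calc av (fun x => Real.exp (s * (f x - av f))) * Real.exp (-(s * lam))
      ≤ Real.exp (s ^ 2 * (∑ i, c i ^ 2) / 2) * Real.exp (-(s * lam)) :=
        mul_le_mul_of_nonneg_right h1 (Real.exp_pos _).le
    _ = Real.exp (s ^ 2 * (∑ i, c i ^ 2) / 2 - s * lam) := by
        rw [← Real.exp_add]
        congr 1
    _ ≤ _ := by
        apply Real.exp_le_exp.2
        have h3 : s ^ 2 * (∑ i, c i ^ 2) / 2 ≤ s ^ 2 * S / 2 := by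
          have := mul_le_mul_of_nonneg_left hcS (sq_nonneg s)
          linarith
        have h4 : s ^ 2 * S / 2 - s * lam = -(lam ^ 2 / (2 * S)) := by
          rw [hs]
          field_simp
          ring
        linarith

open Classical in
/-- the lower tail -/
theorem mcd_lower {N : ℕ} (f : (Fin N → X) → ℝ) (c : Fin N → ℝ) (hc : ∀ i, 0 ≤ c i)
    (hf : ∀ i x y, (∀ j, j ≠ i → x j = y j) → |f x - f y| ≤ c i) {S lam : ℝ} (hS : 0 < S)
    (hcS : ∑ i, c i ^ 2 ≤ S) (hlam : 0 ≤ lam) :
    av (fun x => if lam ≤ av f - f x then (1 : ℝ) else 0) ≤ Real.exp (-(lam ^ 2 / (2 * S))) := by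
  have h := mcd_upper (fun x => - f x) c hc (fun i x y hxy => by
    have := hf i x y hxy
    rw [← abs_neg] at this
    have e : -(f x - f y) = -f x - -f y := by ring
    rwa [e] at this) hS hcS hlam
  refine le_trans (le_of_eq ?_) h
  refine av_congr fun x => ?_
  rw [av_neg]
  have e : -f x - -av f = av f - f x := by ring
  rw [e]

end mcd

end Pool.Agent.H72.KarpS
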