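import Pool.Agent.H72.Karp.Defs

/-!
Definitions: the colouring procedure with several rounds, which uses an algorithm for independent
sets as a black box on induced subgraphs of the random graph.
-/

set_option autoImplicit false

namespace Pool.Agent.H72.KarpS

open Pool.Agent.H85.Online Pool.Agent.H72.Karp Finset

/-- the `k` smallest elements of `O` (all of `O` if it has fewer than `k` elements) -/
def trim {m : ℕ} (k : ℕ) (O : Finset (Fin m)) : Finset (Fin m) :=
  ((O.sort (· ≤ ·)).take k).toFinset

open Classical in
/-- The set found in a sample: the algorithm is applied to the induced subgraph given by the sample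
(relabelled in the order given by the permutation), and if its output is an independent set with at
least `k` vertices, this output is cut down to `k` vertices; otherwise the empty set is found. -/
noncomputable def found (A : SetAlg) {n m g : ℕ} (h : m * g ≤ n) (k : ℕ) (G : SimpleGraph (Fin n))
    (σ : Sample m g (A.seeds m)) : Finset (Fin n) :=
  if Indep (G.comap (emb h σ.1 σ.2.1)) (A.out m (G.comap (emb h σ.1 σ.2.1)) σ.2.2) ∧
      k ≤ (A.out m (G.comap (emb h σ.1 σ.2.1)) σ.2.2).card
    then (trim k (A.out m (G.comap (emb h σ.1 σ.2.1)) σ.2.2)).map (emb h σ.1 σ.2.1) else ∅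

/-- the first set in the list which is nonempty and disjoint from `C`, or the empty set -/
def firstNew {V : Type} [DecidableEq V] (C : Finset V) : List (Finset V) → Finset V
  | [] => ∅
  | I :: l => if I.Nonempty ∧ Disjoint I C then I else firstNew C l

/-- One round. `L` is the list of the classes found so far. For every `i < M` the `i`-th block
`y i` of samples is searched for a set which is disjoint from all the classes in `L`. The sets found
in this way are added one after the other to the list, each without the vertices which are already
covered. -/
noncomputable def roundStep (A : SetAlg) {n m g : ℕ} (h : m * g ≤ n) (k M : ℕ)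
    (G : SimpleGraph (Fin n)) {N B : ℕ} (L : List (Finset (Fin n)))
    (y : Fin N → Fin B → Sample m g (A.seeds m)) : List (Finset (Fin n)) :=
  ((List.ofFn fun i => firstNew (covered L) (List.ofFn fun j => found A h k G (y i j))).take
    M).foldl (fun L' I => (I \ covered L') :: L') L

/-- the number of sets which are added in the round number `r` -/
noncomputable def msize (θ : ℝ) (k n r : ℕ) : ℕ := ⌊θ * (n * Real.exp (-θ) ^ r) / k⌋₊

/-- The rounds number `r`, `r + 1`, ..., one for every element of the list. -/
noncomputable def rounds (A : SetAlg) {n m g : ℕ} (h : m * g ≤ n) (k : ℕ) (θ : ℝ)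
    (G : SimpleGraph (Fin n)) {N B : ℕ} : ℕ → List (Finset (Fin n)) →
    List (Fin N → Fin B → Sample m g (A.seeds m)) → List (Finset (Fin n))
  | _, L, [] => L
  | r, L, y :: ys => rounds A h k θ G (r + 1) (roundStep A h k (msize θ k n r) G L y) ys

/-- the size of the independent sets which are used -/
noncomputable def ksize (p ε γ : ℝ) (n : ℕ) : ℕ := ⌈(1 + ε) * Real.logb (1 / (1 - p)) (ord γ n)⌉₊

/-- The seeds of the procedure: `R n ^ (K + 1)` samples, where `K + 1` comes from the `n` blocks
with `n ^ K` samples in each of the `R` rounds. -/
abbrev Seeds (A : SetAlg) (γ : ℝ) (R K n : ℕ) : Type :=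
  Fin R → Fin n → Fin (n ^ K) → Sample (ord γ n) (grp γ n) (A.seeds (ord γ n))

/-- The colouring procedure: `R` rounds, and then the remaining vertices are coloured by the greedy
algorithm. -/
noncomputable def colouringS (A : SetAlg) (p ε γ θ : ℝ) (R K n : ℕ) (G : SimpleGraph (Fin n))
    (ω : Seeds A γ R K n) : List (Finset (Fin n)) :=
  peel G (Finset.univ \ covered (rounds A (ord_mul_grp γ n) (ksize p ε γ n) θ G 0 []
    (List.ofFn ω))) ++ rounds A (ord_mul_grp γ n) (ksize p ε γ n) θ G 0 [] (List.ofFn ω)

end Pool.Agent.H72.KarpS
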