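import Pool.Agent.H72.KarpS.Nib

/-!
The probability that the sets chosen in one round avoid a given small set.
-/

set_option autoImplicit false
set_option linter.unusedSectionVars false

namespace Pool.Agent.H72.KarpS

open Finset

theorem exp_le_one_sub {P : ℝ} (h0 : 0 ≤ P) (h1 : P ≤ 1 / 3) :
    Real.exp (-(P + P ^ 2)) ≤ 1 - P := by
  have h2 := Real.quadratic_le_exp_of_nonneg (show 0 ≤ P + P ^ 2 by positivity)
  have h3 : 0 < Real.exp (P + P ^ 2) := Real.exp_pos _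
  rw [Real.exp_neg, inv_le_comm₀ h3 (by linarith), inv_le_iff_one_le_mul₀ (by linarith)]
  have h4 : 1 ≤ (1 + (P + P ^ 2) + (P + P ^ 2) ^ 2 / 2) * (1 - P) := by
    have e : (1 + (P + P ^ 2) + (P + P ^ 2) ^ 2 / 2) * (1 - P)
        = 1 + P ^ 2 * (1 / 2 - P * (1 / 2 + P / 2 + P ^ 2 / 2)) := by ring
    rw [e]
    have h5 : P * (1 / 2 + P / 2 + P ^ 2 / 2) ≤ 1 / 2 := by nlinarith [sq_nonneg P]
    have := mul_nonneg (sq_nonneg P) (sub_nonneg.2 h5)
    linarith
  exact h4.trans (mul_le_mul_of_nonneg_right h2 (by linarith))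

theorem exp_le_one_add {x : ℝ} (h0 : 0 ≤ x) (h1 : x ≤ 1 / 2) : Real.exp x ≤ 1 + 2 * x := by
  have h2 := Real.one_sub_le_exp_neg x
  have h3 : 0 < Real.exp x := Real.exp_pos _
  have h4 : Real.exp x * (1 - x) ≤ 1 := by
    calc Real.exp x * (1 - x) ≤ Real.exp x * Real.exp (-x) :=
          mul_le_mul_of_nonneg_left h2 h3.le
      _ = 1 := by rw [← Real.exp_add, add_neg_cancel, Real.exp_zero]
  nlinarith

variable {V Ω : Type} [Fintype V] [DecidableEq V] [Fintype Ω] [Nonempty Ω] (I : Ω → Finset V)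

/-- the mass of the sets which avoid `C` -/
theorem aC_bounds {k : ℕ} {U : Finset V} (hk : ∀ σ, (I σ).Nonempty → (I σ).card = k)
    (hU : ∀ σ, I σ ⊆ U) (C : Finset V) {D κ Nn : ℝ} (hD : 0 < D) (hκ0 : 0 < κ)
    (hκ1 : κ ≤ 1) (h1 : ∀ v ∈ U, |eJ I C {v} - D| ≤ κ * D)
    (h3 : |((U \ C).card : ℝ) - Nn| ≤ κ * Nn) :
    (1 - κ) ^ 2 * (Nn * D) ≤ k * aC I C ∧ k * aC I C ≤ (1 + κ) ^ 2 * (Nn * D) := by
  rw [mass_eq I hk hU C]
  rw [abs_le] at h3
  have h4 : ∀ v ∈ U \ C, (1 - κ) * D ≤ eJ I C {v} ∧ eJ I C {v} ≤ (1 + κ) * D := by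
    intro v hv
    have := h1 v (Finset.mem_sdiff.1 hv).1
    rw [abs_le] at this
    constructor <;> linarith [this.1, this.2]
  constructor
  · calc (1 - κ) ^ 2 * (Nn * D) = ((1 - κ) * Nn) * ((1 - κ) * D) := by ring
      _ ≤ ((U \ C).card : ℝ) * ((1 - κ) * D) := by
          refine mul_le_mul_of_nonneg_right ?_ ?_
          · linarith [h3.1]
          · exact mul_nonneg (by linarith) hD.le
      _ = ∑ _v ∈ U \ C, (1 - κ) * D := by rw [Finset.sum_const, nsmul_eq_mul]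
      _ ≤ _ := Finset.sum_le_sum fun v hv => (h4 v hv).1
  · calc ∑ v ∈ U \ C, eJ I C {v} ≤ ∑ _v ∈ U \ C, (1 + κ) * D :=
          Finset.sum_le_sum fun v hv => (h4 v hv).2
      _ = ((U \ C).card : ℝ) * ((1 + κ) * D) := by rw [Finset.sum_const, nsmul_eq_mul]
      _ ≤ ((1 + κ) * Nn) * ((1 + κ) * D) := by
          refine mul_le_mul_of_nonneg_right ?_ ?_
          · linarith [h3.2]
          · exact mul_nonneg (by linarith) hD.le
      _ = _ := by ring

theorem avoid_bounds {k M B : ℕ} {U : Finset V}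
    (hk : ∀ σ, (I σ).Nonempty → (I σ).card = k)
    (hU : ∀ σ, I σ ⊆ U) (C : Finset V) {D κ Nn θ E2 : ℝ} (hk1 : 1 ≤ k) (hD : 0 < D) (hN : 0 < Nn)
    (hκ0 : 0 < κ) (hκ1 : 12 * k * κ ≤ 1) (hθ0 : 0 < θ) (hθ1 : θ ≤ 1) (hM1 : M * k ≤ θ * Nn)
    (hM2 : θ * Nn ≤ (M + 1) * k)
    (h1 : ∀ v ∈ U, |eJ I C {v} - D| ≤ κ * D)
    (h2 : ∀ J : Finset V, J.card = 2 → eJ I C J ≤ E2)
    (h3 : |((U \ C).card : ℝ) - Nn| ≤ κ * Nn) (c1 : k * E2 ≤ κ * D) (hE2 : 0 ≤ E2)
    (c2 : 2 * k ≤ κ * θ * Nn) (c3 : 4 * (k : ℝ) ^ 3 ≤ κ * Nn) (c4 : (1 - aC I C) ^ B ≤ κ)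
    (W : Finset V) (hW : W ⊆ U \ C) (hWk : W.card ≤ k) :
    Real.exp (-(θ * W.card)) * (1 - 6 * k * κ) ≤ (1 - pickHit I B C W) ^ M ∧
      (1 - pickHit I B C W) ^ M ≤ Real.exp (-(θ * W.card)) * (1 + 12 * k * κ) := by
  have hkr : (1 : ℝ) ≤ k := by exact_mod_cast hk1
  have hκs : κ ≤ 1 / 12 := by
    have h1 : 1 * κ ≤ k * κ := mul_le_mul_of_nonneg_right hkr hκ0.le
    linarith only [h1, hκ1]
  obtain ⟨a1, a2⟩ := aC_bounds I hk hU C hD hκ0 (by linarith) h1 h3
  set a := aC I C with ha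
  set l : ℝ := (W.card : ℝ) with hl
  have hl0 : 0 ≤ l := by positivity
  have hlk : l ≤ k := by
    rw [hl]
    exact_mod_cast hWk
  have hND : 0 < Nn * D := mul_pos hN hD
  have ha0 : 0 < a := by
    have : 0 < (1 - κ) ^ 2 * (Nn * D) := mul_pos (pow_pos (by linarith) 2) hND
    have h5 : 0 < k * a := lt_of_lt_of_le this a1
    exact pos_of_mul_pos_right h5 (by linarith)
  have ha1 : a ≤ 1 := aC_le_one I C
  set β := (1 - a) ^ B with hβ
  have hβ0 : 0 ≤ β := pow_nonneg (by linarith) B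
  set hit := hitC I C W with hhit
  have hWC : Disjoint W C := by
    rw [Finset.disjoint_left]
    intro v hv
    exact (Finset.mem_sdiff.1 (hW hv)).2
  have hsum_up : ∑ v ∈ W, eJ I C {v} ≤ l * ((1 + κ) * D) := by
    calc ∑ v ∈ W, eJ I C {v} ≤ ∑ _v ∈ W, (1 + κ) * D := by
          refine Finset.sum_le_sum fun v hv => ?_
          have := h1 v (Finset.mem_sdiff.1 (hW hv)).1
          rw [abs_le] at this
          linarith [this.2]
      _ = _ := by rw [Finset.sum_const, nsmul_eq_mul]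
  have hsum_lo : l * ((1 - κ) * D) ≤ ∑ v ∈ W, eJ I C {v} := by
    calc l * ((1 - κ) * D) = ∑ _v ∈ W, (1 - κ) * D := by rw [Finset.sum_const, nsmul_eq_mul]
      _ ≤ _ := by
          refine Finset.sum_le_sum fun v hv => ?_
          have := h1 v (Finset.mem_sdiff.1 (hW hv)).1
          rw [abs_le] at this
          linarith [this.1]
  have hhit_up : hit ≤ l * ((1 + κ) * D) := (hit_le I C W).trans hsum_up
  have hhit_lo : l * ((1 - 3 / 2 * κ) * D) ≤ hit := by
    have h5 := le_hit I C W hWC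
    have h6 : ∑ J ∈ W.powersetCard 2, eJ I C J ≤ l * (κ / 2 * D) := by
      calc ∑ J ∈ W.powersetCard 2, eJ I C J ≤ ∑ _J ∈ W.powersetCard 2, E2 :=
            Finset.sum_le_sum fun J hJ => h2 J (Finset.mem_powersetCard.1 hJ).2
        _ = ((W.card.choose 2 : ℕ) : ℝ) * E2 := by
            rw [Finset.sum_const, nsmul_eq_mul, Finset.card_powersetCard]
        _ = l * (l - 1) / 2 * E2 := by rw [Nat.cast_choose_two]
        _ ≤ l * (k / 2) * E2 := by
            refine mul_le_mul_of_nonneg_right ?_ hE2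
            have h8 := mul_nonneg hl0 (sub_nonneg.2 hlk)
            linarith only [h8, hl0]
        _ = l / 2 * (k * E2) := by ring
        _ ≤ l / 2 * (κ * D) := mul_le_mul_of_nonneg_left c1 (by positivity)
        _ = _ := by ring
    have h7 : l * ((1 - 3 / 2 * κ) * D) = l * ((1 - κ) * D) - l * (κ / 2 * D) := by ring
    rw [h7]
    linarith
  have hhit0 : 0 ≤ hit := hitC_nonneg I C W
  -- the probability of a hit in one block
  set P := pickHit I B C W with hP
  have hPa : P * a = hit * (1 - β) := pickHit_eq I B C W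
  have hP0 : 0 ≤ P := av_nonneg fun x => by split_ifs <;> norm_num
  have hPup : P * Nn ≤ l * k * (1 + 4 * κ) := by
    have e1 : P * ((1 - κ) ^ 2 * (Nn * D)) ≤ l * k * ((1 + κ) * D) := by
      calc P * ((1 - κ) ^ 2 * (Nn * D)) ≤ P * (k * a) := mul_le_mul_of_nonneg_left a1 hP0
        _ = k * (hit * (1 - β)) := by rw [← hPa]; ring
        _ ≤ k * (hit * 1) := by
            refine mul_le_mul_of_nonneg_left ?_ (by linarith)
            exact mul_le_mul_of_nonneg_left (by linarith) hhit0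
        _ ≤ k * (l * ((1 + κ) * D)) := by
            rw [mul_one]
            exact mul_le_mul_of_nonneg_left hhit_up (by linarith)
        _ = _ := by ring
    have e2 : l * k * ((1 + κ) * D) ≤ l * k * (1 + 4 * κ) * ((1 - κ) ^ 2 * D) := by
      have : 1 + κ ≤ (1 + 4 * κ) * (1 - κ) ^ 2 := by
        have h1 : 0 ≤ κ * (1 - 12 * κ) := mul_nonneg hκ0.le (by linarith only [hκs])
        have h2 : 0 ≤ κ ^ 3 := pow_nonneg hκ0.le 3
        linarith only [h1, h2, sq_nonneg κ]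
      calc l * k * ((1 + κ) * D) = (l * k * D) * (1 + κ) := by ring
        _ ≤ (l * k * D) * ((1 + 4 * κ) * (1 - κ) ^ 2) :=
            mul_le_mul_of_nonneg_left this (by positivity)
        _ = _ := by ring
    have e3 : 0 < (1 - κ) ^ 2 * D := mul_pos (pow_pos (by linarith) 2) hD
    have e4 : (P * Nn) * ((1 - κ) ^ 2 * D) ≤ (l * k * (1 + 4 * κ)) * ((1 - κ) ^ 2 * D) := by
      calc (P * Nn) * ((1 - κ) ^ 2 * D) = P * ((1 - κ) ^ 2 * (Nn * D)) := by ring
        _ ≤ _ := e1.trans e2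
    exact le_of_mul_le_mul_right e4 e3
  have hPlo : l * k * (1 - 9 / 2 * κ) ≤ P * Nn := by
    have e1 : l * k * ((1 - 3 / 2 * κ) * (1 - κ) * D) ≤ P * ((1 + κ) ^ 2 * (Nn * D)) := by
      calc l * k * ((1 - 3 / 2 * κ) * (1 - κ) * D)
          = k * ((l * ((1 - 3 / 2 * κ) * D)) * (1 - κ)) := by ring
        _ ≤ k * (hit * (1 - κ)) := by
            refine mul_le_mul_of_nonneg_left ?_ (by linarith)
            exact mul_le_mul_of_nonneg_right hhit_lo (by linarith)
        _ ≤ k * (hit * (1 - β)) := by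
            refine mul_le_mul_of_nonneg_left ?_ (by linarith)
            exact mul_le_mul_of_nonneg_left (by linarith) hhit0
        _ = P * (k * a) := by rw [← hPa]; ring
        _ ≤ _ := mul_le_mul_of_nonneg_left a2 hP0
    have e2 : l * k * (1 - 9 / 2 * κ) * ((1 + κ) ^ 2 * D)
        ≤ l * k * ((1 - 3 / 2 * κ) * (1 - κ) * D) := by
      have : (1 - 9 / 2 * κ) * (1 + κ) ^ 2 ≤ (1 - 3 / 2 * κ) * (1 - κ) := by
        have h2 : 0 ≤ κ ^ 3 := pow_nonneg hκ0.le 3
        linarith only [h2, sq_nonneg κ]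
      calc l * k * (1 - 9 / 2 * κ) * ((1 + κ) ^ 2 * D)
          = (l * k * D) * ((1 - 9 / 2 * κ) * (1 + κ) ^ 2) := by ring
        _ ≤ (l * k * D) * ((1 - 3 / 2 * κ) * (1 - κ)) :=
            mul_le_mul_of_nonneg_left this (by positivity)
        _ = _ := by ring
    have e3 : 0 < (1 + κ) ^ 2 * D := mul_pos (pow_pos (by linarith) 2) hD
    have e4 : (l * k * (1 - 9 / 2 * κ)) * ((1 + κ) ^ 2 * D) ≤ (P * Nn) * ((1 + κ) ^ 2 * D) := by
      calc _ ≤ _ := e2.trans e1
        _ = (P * Nn) * ((1 + κ) ^ 2 * D) := by ring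
    exact le_of_mul_le_mul_right e4 e3
  -- bounds for P
  have hPN2 : P * Nn ≤ 2 * (l * k) := by
    refine hPup.trans ?_
    have : 0 ≤ l * k := by positivity
    have h1 := mul_nonneg this (show (0 : ℝ) ≤ 1 - 4 * κ by linarith only [hκs])
    linarith only [h1]
  have hPl : P ≤ l * κ * θ := by
    have : P * Nn ≤ (l * κ * θ) * Nn := by
      calc P * Nn ≤ 2 * (l * k) := hPN2
        _ = l * (2 * k) := by ring
        _ ≤ l * (κ * θ * Nn) := mul_le_mul_of_nonneg_left c2 hl0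
        _ = _ := by ring
    exact le_of_mul_le_mul_right this hN
  have hPk : 2 * k * P ≤ κ := by
    have : (2 * k * P) * Nn ≤ κ * Nn := by
      calc (2 * k * P) * Nn = 2 * k * (P * Nn) := by ring
        _ ≤ 2 * k * (2 * (l * k)) := mul_le_mul_of_nonneg_left hPN2 (by positivity)
        _ ≤ 2 * k * (2 * (k * k)) := by gcongr
        _ = 4 * (k : ℝ) ^ 3 := by ring
        _ ≤ _ := c3
    exact le_of_mul_le_mul_right this hN
  have hkP : 1 * P ≤ k * P := mul_le_mul_of_nonneg_right hkr hP0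
  have hP3 : P ≤ 1 / 3 := by linarith only [hkP, hPk, hκs]
  -- bounds for M P
  have hMP : M * P ≤ l * θ * (1 + 4 * κ) := by
    have : (M * P) * k ≤ (l * θ * (1 + 4 * κ)) * k := by
      calc (M * P) * k = (M * k) * P := by ring
        _ ≤ (θ * Nn) * P := mul_le_mul_of_nonneg_right hM1 hP0
        _ = θ * (P * Nn) := by ring
        _ ≤ θ * (l * k * (1 + 4 * κ)) := mul_le_mul_of_nonneg_left hPup hθ0.le
        _ = _ := by ring
    exact le_of_mul_le_mul_right this (by linarith)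
  have hMP2 : l * θ * (1 - 9 / 2 * κ) ≤ (M + 1) * P := by
    have : (l * θ * (1 - 9 / 2 * κ)) * k ≤ ((M + 1) * P) * k := by
      calc (l * θ * (1 - 9 / 2 * κ)) * k = θ * (l * k * (1 - 9 / 2 * κ)) := by ring
        _ ≤ θ * (P * Nn) := mul_le_mul_of_nonneg_left hPlo hθ0.le
        _ = (θ * Nn) * P := by ring
        _ ≤ ((M + 1) * k) * P := mul_le_mul_of_nonneg_right hM2 hP0
        _ = _ := by ring
    exact le_of_mul_le_mul_right this (by linarith)
  have hlθ : 0 ≤ l * θ := by positivity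
  have hMPlo : l * θ * (1 - 6 * κ) ≤ M * P := by
    linarith only [hMP2, hPl, mul_nonneg hlθ hκ0.le]
  have hMPP : M * (P + P ^ 2) ≤ l * θ * (1 + 6 * κ) := by
    have e1 : (M * P) * P ≤ l * θ * κ := by
      have e2 : (M * P) * P ≤ (l * θ * (1 + 4 * κ)) * P := mul_le_mul_of_nonneg_right hMP hP0
      have e3 : (1 + 4 * κ) * P ≤ κ := by
        have h1 := mul_le_mul_of_nonneg_right hκs hP0
        linarith only [h1, hkP, hPk, hP0]
      calc (M * P) * P ≤ (l * θ * (1 + 4 * κ)) * P := e2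
        _ = (l * θ) * ((1 + 4 * κ) * P) := by ring
        _ ≤ _ := mul_le_mul_of_nonneg_left e3 hlθ
    linarith only [e1, hMP, mul_nonneg hlθ hκ0.le]
  have hP1 : 0 ≤ 1 - P := by linarith
  have hlκ : l * θ * κ ≤ k * κ := by
    refine mul_le_mul_of_nonneg_right ?_ hκ0.le
    calc l * θ ≤ k * 1 := mul_le_mul hlk hθ1 hθ0.le (by linarith only [hkr])
      _ = k := mul_one _
  constructor
  · have e1 : Real.exp (-(P + P ^ 2)) ^ M ≤ (1 - P) ^ M :=
      pow_le_pow_left₀ (Real.exp_pos _).le (exp_le_one_sub hP0 hP3) M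
    rw [← Real.exp_nat_mul] at e1
    refine le_trans ?_ e1
    have e2 : -(θ * l) + -(6 * k * κ) ≤ M * -(P + P ^ 2) := by
      linarith only [hMPP, hlκ]
    have e3 : 1 - 6 * k * κ ≤ Real.exp (-(6 * k * κ)) := Real.one_sub_le_exp_neg _
    calc Real.exp (-(θ * l)) * (1 - 6 * k * κ)
        ≤ Real.exp (-(θ * l)) * Real.exp (-(6 * k * κ)) :=
          mul_le_mul_of_nonneg_left e3 (Real.exp_pos _).le
      _ = Real.exp (-(θ * l) + -(6 * k * κ)) := by rw [← Real.exp_add]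
      _ ≤ _ := Real.exp_le_exp.2 e2
  · have e1 : (1 - P) ^ M ≤ Real.exp (-P) ^ M :=
      pow_le_pow_left₀ hP1 (Real.one_sub_le_exp_neg P) M
    rw [← Real.exp_nat_mul] at e1
    refine e1.trans ?_
    have e2 : M * -P ≤ -(θ * l) + 6 * k * κ := by linarith only [hMPlo, hlκ]
    have e3 : Real.exp (6 * k * κ) ≤ 1 + 2 * (6 * k * κ) :=
      exp_le_one_add (by positivity) (by linarith)
    calc Real.exp (M * -P) ≤ Real.exp (-(θ * l) + 6 * k * κ) := Real.exp_le_exp.2 e2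
      _ = Real.exp (-(θ * l)) * Real.exp (6 * k * κ) := by rw [Real.exp_add]
      _ ≤ Real.exp (-(θ * l)) * (1 + 2 * (6 * k * κ)) :=
          mul_le_mul_of_nonneg_left e3 (Real.exp_pos _).le
      _ = _ := by ring

end Pool.Agent.H72.KarpS
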