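import Pool.Agent.H72.Karp.Good

/-!
Tail bounds for averages over the induced subgraphs with one vertex in every group: the failure
probability is smaller than any fixed power of `1/n`.
-/

set_option autoImplicit false
set_option linter.unusedSectionVars false

namespace Pool.Agent.H72.KarpS

open Finset Pool.Agent.H85.Online Pool.Agent.H72.Karp

section pull

variable {ι κ : Type} [Fintype ι] [DecidableEq ι] [Fintype κ] [DecidableEq κ] {p : ℝ}

/-- the part of the average of copies of `h` which comes from the frequencies in `𝓛` -/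
noncomputable def part (p : ℝ) {Φ : Type} [Fintype Φ] (τ : Φ → ι → κ) (c : Φ → ℝ)
    (h : (ι → Bool) → ℝ) (𝓛 : Finset (Finset ι)) (ω : κ → Bool) : ℝ :=
  ∑ T ∈ 𝓛, ∑ f, (cf p h T * c f) * chi p (T.image (τ f)) ω

theorem part_sum (h0 : 0 < p) (h1 : p < 1) {Φ : Type} [Fintype Φ] (τ : Φ → ι → κ)
    (hinj : ∀ f, Function.Injective (τ f)) (c : Φ → ℝ) (h : (ι → Bool) → ℝ) (ω : κ → Bool) :
    (∑ f, c f * h (fun e => ω (τ f e)) - (∑ f, c f) * EE p h)
      = part p τ c h (Finset.univ.erase ∅) ω := by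
  have e2 : ∀ f, h (fun e => ω (τ f e)) - EE p h
      = ∑ T ∈ Finset.univ.erase ∅, cf p h T * chi p (T.image (τ f)) ω := by
    intro f
    rw [inversion h0 h1 h, ← Finset.add_sum_erase _ _ (Finset.mem_univ (∅ : Finset ι)), cf_empty,
      chi_empty, mul_one, add_sub_cancel_left]
    exact Finset.sum_congr rfl fun T _ => by rw [chi_comp (hinj f)]
  calc (∑ f, c f * h (fun e => ω (τ f e)) - (∑ f, c f) * EE p h)
      = ∑ f, c f * (h (fun e => ω (τ f e)) - EE p h) := by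
        rw [Finset.sum_mul, ← Finset.sum_sub_distrib]
        exact Finset.sum_congr rfl fun f _ => by ring
    _ = ∑ f, ∑ T ∈ Finset.univ.erase ∅, (cf p h T * c f) * chi p (T.image (τ f)) ω := by
        refine Finset.sum_congr rfl fun f _ => ?_
        rw [e2, Finset.mul_sum]
        exact Finset.sum_congr rfl fun T _ => by ring
    _ = _ := Finset.sum_comm

theorem part_split {Φ : Type} [Fintype Φ] (τ : Φ → ι → κ) (c : Φ → ℝ) (h : (ι → Bool) → ℝ)
    (𝓛 : Finset (Finset ι)) (P : Finset ι → Prop) [DecidablePred P] (ω : κ → Bool) :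
    part p τ c h 𝓛 ω
      = part p τ c h (𝓛.filter P) ω + part p τ c h (𝓛.filter fun T => ¬ P T) ω := by
  unfold part
  rw [Finset.sum_filter_add_sum_filter_not]

open Classical in
/-- the second moment of a part -/
theorem part_sq (h0 : 0 < p) (h1 : p < 1) {Φ : Type} [Fintype Φ] (τ : Φ → ι → κ)
    (hτ : ∀ f f' e e', τ f e = τ f' e' → e = e') (c : Φ → ℝ) (h : (ι → Bool) → ℝ)
    (𝓛 : Finset (Finset ι)) :
    EE p (fun ω : κ → Bool => part p τ c h 𝓛 ω ^ 2)
      = ∑ T ∈ 𝓛, cf p h T ^ 2 *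
          ∑ f, ∑ f', c f * c f' * (if ∀ e ∈ T, τ f e = τ f' e then 1 else 0) := by
  have e3 : ∀ ω : κ → Bool, part p τ c h 𝓛 ω ^ 2
      = ∑ T ∈ 𝓛, ∑ T' ∈ 𝓛, ∑ f, ∑ f',
        (cf p h T * cf p h T' * (c f * c f')) *
          (chi p (T.image (τ f)) ω * chi p (T'.image (τ f')) ω) := by
    intro ω
    unfold part
    rw [sq, Finset.sum_mul_sum]
    refine Finset.sum_congr rfl fun T _ => Finset.sum_congr rfl fun T' _ => ?_
    rw [Finset.sum_mul_sum]
    exact Finset.sum_congr rfl fun f _ => Finset.sum_congr rfl fun f' _ => by ring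
  rw [EE_congr e3, EE_sum]
  refine Finset.sum_congr rfl fun T hT => ?_
  rw [EE_sum, Finset.sum_eq_single T]
  · rw [EE_sum, Finset.mul_sum]
    refine Finset.sum_congr rfl fun f _ => ?_
    rw [EE_sum, Finset.mul_sum]
    refine Finset.sum_congr rfl fun f' _ => ?_
    rw [EE_mul_left, EE_chi_mul h0 h1]
    have hiff : T.image (τ f) = T.image (τ f') ↔ ∀ e ∈ T, τ f e = τ f' e := by
      constructor
      · intro he e heT
        have h2 : τ f e ∈ T.image (τ f') := by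
          rw [← he]
          exact Finset.mem_image_of_mem _ heT
        obtain ⟨e', _, he'⟩ := Finset.mem_image.1 h2
        have := hτ f' f e' e he'
        rw [this] at he'
        exact he'.symm
      · intro he
        exact Finset.image_congr he
    simp only [hiff]
    ring
  · intro T' _ hT'
    rw [EE_sum]
    refine Finset.sum_eq_zero fun f _ => ?_
    rw [EE_sum]
    refine Finset.sum_eq_zero fun f' _ => ?_
    rw [EE_mul_left, EE_chi_mul h0 h1, if_neg, mul_zero]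
    intro he
    apply hT'
    ext e
    constructor
    · intro heT
      have h2 : τ f' e ∈ T.image (τ f) := by
        rw [he]
        exact Finset.mem_image_of_mem _ heT
      obtain ⟨e', he'T, he'⟩ := Finset.mem_image.1 h2
      rw [← hτ f f' e' e he']
      exact he'T
    · intro heT
      have h2 : τ f e ∈ T'.image (τ f') := by
        rw [← he]
        exact Finset.mem_image_of_mem _ heT
      obtain ⟨e', he'T, he'⟩ := Finset.mem_image.1 h2
      rw [← hτ f' f e' e he']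
      exact he'T
  · intro h
    exact absurd hT h

/-- the degree of a part -/
theorem part_deg (h0 : 0 < p) (h1 : p < 1) {Φ : Type} [Fintype Φ] (τ : Φ → ι → κ) (c : Φ → ℝ)
    (h : (ι → Bool) → ℝ) (𝓛 : Finset (Finset ι)) {d : ℕ} (hd : ∀ T ∈ 𝓛, T.card ≤ d) :
    Deg p d (part p τ c h 𝓛) := by
  intro U hU
  unfold cf
  have e : ∀ ω : κ → Bool, part p τ c h 𝓛 ω * chi p U ω
      = ∑ T ∈ 𝓛, ∑ f, (cf p h T * c f) * (chi p (T.image (τ f)) ω * chi p U ω) := by
    intro ω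
    unfold part
    rw [Finset.sum_mul]
    refine Finset.sum_congr rfl fun T _ => ?_
    rw [Finset.sum_mul]
    exact Finset.sum_congr rfl fun f _ => by ring
  rw [EE_congr e, EE_sum]
  refine Finset.sum_eq_zero fun T hT => ?_
  rw [EE_sum]
  refine Finset.sum_eq_zero fun f _ => ?_
  rw [EE_mul_left, EE_chi_mul h0 h1, if_neg, mul_zero]
  rintro rfl
  have := Finset.card_image_le (s := T) (f := τ f)
  have := hd T hT
  omega

end pull

section tail

variable {n m g : ℕ} {p : ℝ}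

theorem card_le_of_vs' {J : Finset (Fin m)} {j1 : ℕ} (hJ : J.card ≤ j1)
    {T : Finset (Prs (Fin m))} {j0 : ℕ}
    (hT : (vs T \ J).card < j0) : T.card ≤ (j0 + j1).choose 2 := by
  classical
  have h1 : (vs T).card + 1 ≤ j0 + j1 := by
    have h2 := Finset.card_le_card (Finset.subset_union_left (s₁ := vs T) (s₂ := J))
    rw [← Finset.sdiff_union_self_eq_union] at h2
    have h3 := Finset.card_union_le (vs T \ J) J
    omega
  have h2 : T.image Subtype.val ⊆ (vs T).sym2 := by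
    intro e he
    obtain ⟨e', he', rfl⟩ := Finset.mem_image.1 he
    rw [Finset.mem_sym2_iff]
    exact fun j hj => mem_vs he' hj
  have h3 := Finset.card_le_card h2
  rw [Finset.card_image_of_injective _ Subtype.val_injective, Finset.card_sym2] at h3
  exact h3.trans (Nat.choose_le_choose 2 h1)

open Classical in
/-- Markov's inequality for a function of the configuration -/
theorem EE_markov (h0 : 0 < p) (h1 : p < 1) {κ : Type} [Fintype κ] [DecidableEq κ]
    (E : (κ → Bool) → Prop) (F : (κ → Bool) → ℝ) (hF : ∀ ω, 0 ≤ F ω) {t : ℝ} (ht : 0 < t)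
    (hE : ∀ ω, E ω → t ≤ F ω) : EE p (fun ω => if E ω then 1 else 0) ≤ EE p F / t := by
  rw [le_div_iff₀ ht, mul_comm, ← EE_mul_left]
  refine EE_mono h0 h1 fun ω => ?_
  split_ifs with h
  · rw [mul_one]
    exact hE ω h
  · rw [mul_zero]
    exact hF ω

theorem tail_gen (h0 : 0 < p) (h1 : p < 1) {γ c a b : ℝ} (hγ : 0 < γ) (hc : 0 ≤ c)
    (ha : 0 ≤ a) (e : ℕ)
    (hb : 0 < 2 * b + γ * e) (j1 : ℕ) :
    ∃ n0 : ℕ, ∀ n : ℕ, n0 ≤ n → ∀ (m g : ℕ) (h : m * g ≤ n), (n : ℝ) ^ γ ≤ 2 * g →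
      ∀ (J : Finset (Fin m)), J.card ≤ j1 → (∀ T : Finset (Prs (Fin m)), T ≠ ∅ →
        e ≤ (vs T \ J).card) → ∀ (α : Fin m → Fin g) (hh : SimpleGraph (Fin m) → ℝ),
      (∀ G, 0 ≤ hh G) → (∀ G, hh G ≤ 1) → (n : ℝ) ^ (-c) ≤ EG p hh →
      Prob p (fun G : SimpleGraph (Fin n) =>
        (n : ℝ) ^ b * ((1 / (g : ℝ)) ^ J.card * EG p hh)
          < |∑ f : Fin m → Fin g, cw J α f * hh (G.comap (sf h f))
            - (1 / (g : ℝ)) ^ J.card * EG p hh|) ≤ (n : ℝ) ^ (-a) := by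
  classical
  -- the parameters
  set τ : ℝ := min ((2 * b + γ * e) / 3) 1 with hτ
  have hτ0 : 0 < τ := lt_min (by positivity) one_pos
  have hτ3 : 3 * τ ≤ 2 * b + γ * e := by
    have := min_le_left ((2 * b + γ * e) / 3) 1
    rw [← hτ] at this
    linarith
  obtain ⟨s, hs⟩ : ∃ s : ℕ, (a + c + 2) / τ ≤ 2 ^ s := by
    obtain ⟨s, hs⟩ := pow_unbounded_of_one_lt ((a + c + 2) / τ) (show (1 : ℝ) < 2 by norm_num)
    exact ⟨s, hs.le⟩
  obtain ⟨j0, hj0⟩ : ∃ j0 : ℕ, 2 * (a + c + 1 - 2 * b) / γ ≤ j0 := exists_nat_ge _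
  obtain ⟨K, hK, hlev⟩ := level (p := p) h0 h1 ((j0 + j1).choose 2) s
  obtain ⟨K2, hK2, hmom⟩ := moments (p := p) h0 h1 ((j0 + j1).choose 2) s
  have hev1 : ∀ᶠ n : ℕ in Filter.atTop, 2 ≤ (n : ℝ) ^ (γ / 2) :=
    ((tendsto_rpow_atTop (half_pos hγ)).comp tendsto_natCast_atTop_atTop).eventually_ge_atTop 2
  have hev2 : ∀ᶠ n : ℕ in Filter.atTop, 4 * 2 ^ e ≤ (n : ℝ) ^ τ :=
    ((tendsto_rpow_atTop hτ0).comp tendsto_natCast_atTop_atTop).eventually_ge_atTop _
  have hev3 : ∀ᶠ n : ℕ in Filter.atTop, max (max K 8) (2 * K2) ≤ (n : ℝ) :=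
    tendsto_natCast_atTop_atTop.eventually_ge_atTop _
  obtain ⟨n1, hn1⟩ := Filter.eventually_atTop.1 ((hev1.and hev2).and hev3)
  refine ⟨max n1 1, fun n hn m g h hg J hJ hJe α hh hh0 hh1 hq => ?_⟩
  obtain ⟨⟨f1, f2⟩, f3⟩ := hn1 n (le_trans (le_max_left _ _) hn)
  have hKn : K ≤ n := le_trans (le_trans (le_max_left _ _) (le_max_left _ _)) f3
  have h8n : (8 : ℝ) ≤ n := le_trans (le_trans (le_max_right _ _) (le_max_left _ _)) f3
  have hK2n : 2 * K2 ≤ n := le_trans (le_max_right _ _) f3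
  have hn2 : (1 : ℝ) ≤ n := by linarith
  have hn0 : (0 : ℝ) < n := by linarith
  set q := EG p hh with hqdef
  have hq0 : 0 < q := lt_of_lt_of_le (Real.rpow_pos_of_pos hn0 _) hq
  have hnγ : 0 < (n : ℝ) ^ γ := Real.rpow_pos_of_pos hn0 _
  have hgr : (0 : ℝ) < g := by linarith
  have hg0 : 0 < g := by exact_mod_cast hgr
  set θ : ℝ := 1 / (g : ℝ) with hθ
  have hθ0 : 0 < θ := by positivity
  have hθ1 : θ ≤ 2 * (n : ℝ) ^ (-γ) := by
    rw [hθ, Real.rpow_neg hn0.le, div_le_iff₀ hgr, mul_assoc, mul_comm, ← div_eq_inv_mul,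
      div_mul_eq_mul_div, le_div_iff₀ hnγ]
    linarith
  have hinv : (n : ℝ) ^ (-(γ / 2)) * (n : ℝ) ^ (γ / 2) = 1 := by
    rw [← Real.rpow_add hn0]
    simp
  have hy0 : 0 < (n : ℝ) ^ (-(γ / 2)) := Real.rpow_pos_of_pos hn0 _
  have hsplit : (n : ℝ) ^ (-γ) = (n : ℝ) ^ (-(γ / 2)) * (n : ℝ) ^ (-(γ / 2)) := by
    rw [← Real.rpow_add hn0]
    congr 1
    ring
  have hθ2 : θ ≤ (n : ℝ) ^ (-(γ / 2)) := by
    refine hθ1.trans ?_
    rw [hsplit]
    have : 2 * (n : ℝ) ^ (-(γ / 2)) ≤ 1 := by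
      rw [← hinv, mul_comm (2 : ℝ)]
      exact mul_le_mul_of_nonneg_left f1 hy0.le
    have h3 := mul_le_mul_of_nonneg_right this hy0.le
    linarith only [h3]
  have hθle1 : θ ≤ 1 := by
    rw [hθ, div_le_one hgr]
    exact_mod_cast hg0
  set hω : (Prs (Fin m) → Bool) → ℝ := fun ω => hh (gr ω) with hωdef
  have hEq : EE p hω = q := by rw [hqdef, EG_eq]
  have hω0 : ∀ ω, 0 ≤ hω ω := fun ω => hh0 _
  have hω1 : ∀ ω, hω ω ≤ 1 := fun ω => hh1 _
  -- the low and the high part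
  set Tm : (Fin m → Fin g) → Prs (Fin m) → Prs (Fin n) := fun f => pmap (sf h f) with hTm
  have hTm' : ∀ f f' e e', Tm f e = Tm f' e' → e = e' := fun f f' e e' => pmap_sf_eq h f f' e e'
  set 𝓛 : Finset (Finset (Prs (Fin m))) :=
    (Finset.univ.erase ∅).filter (fun T => (vs T \ J).card < j0) with h𝓛
  set 𝓗 : Finset (Finset (Prs (Fin m))) :=
    (Finset.univ.erase ∅).filter (fun T => ¬ (vs T \ J).card < j0) with h𝓗
  set P1 : (Prs (Fin n) → Bool) → ℝ := part p Tm (cw J α) hω 𝓛 with hP1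
  set P2 : (Prs (Fin n) → Bool) → ℝ := part p Tm (cw J α) hω 𝓗 with hP2
  have hdec : ∀ ω : Prs (Fin n) → Bool,
      (∑ f : Fin m → Fin g, cw J α f * hh ((gr ω).comap (sf h f)) - θ ^ J.card * q)
        = P1 ω + P2 ω := by
    intro ω
    have h2 := part_sum (p := p) h0 h1 Tm (fun f => fun e e' he => hTm' f f e e' he) (cw J α)
      hω ω
    rw [part_split Tm (cw J α) hω (Finset.univ.erase ∅) (fun T => (vs T \ J).card < j0)] at h2
    rw [cw_sum hg0, hEq] at h2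
    rw [← h2]
    congr 1
    refine Finset.sum_congr rfl fun f _ => ?_
    rw [hωdef]
    simp only [hTm]
    rw [gr_comp]
  -- the second moments
  have hagree : ∀ T : Finset (Prs (Fin m)), ∑ f, ∑ f', cw J α f * cw J α f' *
        (if ∀ e ∈ T, Tm f e = Tm f' e then (1 : ℝ) else 0)
      ≤ θ ^ (2 * J.card + (vs T \ J).card) := fun T => cw_agree_le hg0 h J α T
  set w := ∑ T ∈ 𝓛, cf p hω T ^ 2 with hw
  have hw0 : 0 ≤ w := Finset.sum_nonneg fun _ _ => sq_nonneg _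
  have hm1 : EE p (fun ω => P1 ω ^ 2) ≤ θ ^ (2 * J.card) * (θ ^ e * w) := by
    rw [hP1, part_sq h0 h1 Tm hTm', hw, Finset.mul_sum, Finset.mul_sum]
    refine Finset.sum_le_sum fun T hT => ?_
    have hT' := Finset.mem_filter.1 hT
    have hpos := hJe T (Finset.ne_of_mem_erase hT'.1)
    have h3 : θ ^ (vs T \ J).card ≤ θ ^ e := pow_le_pow_of_le_one hθ0.le hθle1 hpos
    calc _ ≤ cf p hω T ^ 2 * θ ^ (2 * J.card + (vs T \ J).card) :=
          mul_le_mul_of_nonneg_left (hagree T) (sq_nonneg _)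
      _ = cf p hω T ^ 2 * (θ ^ (2 * J.card) * θ ^ (vs T \ J).card) := by rw [pow_add]
      _ ≤ cf p hω T ^ 2 * (θ ^ (2 * J.card) * θ ^ e) := by gcongr
      _ = _ := by ring
  have hm2 : EE p (fun ω => P2 ω ^ 2) ≤ θ ^ (2 * J.card) * (θ ^ j0 * q) := by
    have hpars : ∑ T : Finset (Prs (Fin m)), cf p hω T ^ 2 ≤ q := by
      rw [parseval h0 h1, ← hEq]
      refine EE_mono h0 h1 fun ω => ?_
      rw [sq]
      exact mul_le_of_le_one_left (hω0 ω) (hω1 ω)
    rw [hP2, part_sq h0 h1 Tm hTm']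
    calc _ ≤ ∑ T ∈ 𝓗, cf p hω T ^ 2 * (θ ^ (2 * J.card) * θ ^ j0) := by
          refine Finset.sum_le_sum fun T hT => ?_
          have hT' := (Finset.mem_filter.1 hT).2
          have : θ ^ (vs T \ J).card ≤ θ ^ j0 := pow_le_pow_of_le_one hθ0.le hθle1 (by omega)
          calc _ ≤ cf p hω T ^ 2 * θ ^ (2 * J.card + (vs T \ J).card) :=
                mul_le_mul_of_nonneg_left (hagree T) (sq_nonneg _)
            _ = cf p hω T ^ 2 * (θ ^ (2 * J.card) * θ ^ (vs T \ J).card) := by rw [pow_add]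
            _ ≤ _ := by gcongr
      _ ≤ ∑ T : Finset (Prs (Fin m)), cf p hω T ^ 2 * (θ ^ (2 * J.card) * θ ^ j0) :=
          Finset.sum_le_sum_of_subset_of_nonneg (Finset.subset_univ _)
            fun _ _ _ => by positivity
      _ = (∑ T : Finset (Prs (Fin m)), cf p hω T ^ 2) * (θ ^ (2 * J.card) * θ ^ j0) := by
          rw [Finset.sum_mul]
      _ ≤ q * (θ ^ (2 * J.card) * θ ^ j0) := by gcongr
      _ = _ := by ring
  -- the level inequality
  have hwN := hlev (Prs (Fin m)) hω hω0 hω1 𝓛 (fun T hT => card_le_of_vs' hJ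
    (Finset.mem_filter.1 hT).2)
  rw [← hw, hEq] at hwN
  have hqc : 1 ≤ (n : ℝ) ^ c * q := by
    have e' : (n : ℝ) ^ c * (n : ℝ) ^ (-c) = 1 := by
      rw [← Real.rpow_add hn0]
      simp
    calc (1 : ℝ) = (n : ℝ) ^ c * (n : ℝ) ^ (-c) := e'.symm
      _ ≤ _ := mul_le_mul_of_nonneg_left hq (Real.rpow_nonneg hn0.le _)
  have hsτ : a + c + 2 ≤ τ * 2 ^ s := by
    rw [div_le_iff₀ hτ0] at hs
    linarith
  have hwle : w ≤ (n : ℝ) ^ τ * q ^ 2 := by
    have hN : (2 ^ s : ℕ) ≠ 0 := pow_ne_zero s two_ne_zero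
    rw [← pow_le_pow_iff_left₀ hw0
      (mul_nonneg (Real.rpow_nonneg hn0.le _) (sq_nonneg q)) hN]
    refine hwN.trans ?_
    have e1 : ((n : ℝ) ^ τ * q ^ 2) ^ (2 ^ s)
        = ((n : ℝ) ^ τ) ^ (2 ^ s) * (q * q ^ (2 ^ (s + 1) - 1)) := by
      have h1' : 2 ^ (s + 1) - 1 + 1 = 2 * 2 ^ s := by
        have : 1 ≤ 2 ^ (s + 1) := Nat.one_le_two_pow
        have e' : 2 ^ (s + 1) = 2 * 2 ^ s := by ring
        omega
      have h2' : q * q ^ (2 ^ (s + 1) - 1) = q ^ (2 * 2 ^ s) := by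
        rw [← h1']
        exact (pow_succ' q _).symm
      rw [mul_pow, ← pow_mul q, h2']
    have e2 : (n : ℝ) * (n : ℝ) ^ c ≤ ((n : ℝ) ^ τ) ^ (2 ^ s) := by
      rw [← Real.rpow_natCast, ← Real.rpow_mul hn0.le]
      have e3 : (n : ℝ) * (n : ℝ) ^ c = (n : ℝ) ^ (1 + c) := by
        rw [Real.rpow_add hn0, Real.rpow_one]
      rw [e3]
      refine Real.rpow_le_rpow_of_exponent_le hn2 ?_
      push_cast
      linarith
    rw [e1]
    have hq2 : 0 ≤ q ^ (2 ^ (s + 1) - 1) := by positivity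
    calc K * q ^ (2 ^ (s + 1) - 1) ≤ (n * ((n : ℝ) ^ c * q)) * q ^ (2 ^ (s + 1) - 1) := by
          refine mul_le_mul_of_nonneg_right ?_ hq2
          calc K ≤ n * 1 := by rw [mul_one]; exact hKn
            _ ≤ _ := mul_le_mul_of_nonneg_left hqc hn0.le
      _ = (n * (n : ℝ) ^ c) * (q * q ^ (2 ^ (s + 1) - 1)) := by ring
      _ ≤ _ := by gcongr
  -- the threshold
  set S : ℝ := θ ^ J.card * q with hS
  have hS0 : 0 < S := by positivity
  set x : ℝ := (n : ℝ) ^ b with hx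
  have hx0 : 0 < x := Real.rpow_pos_of_pos hn0 _
  set lam : ℝ := x * S / 2 with hlam
  have hlam0 : 0 < lam := by positivity
  have hθe : θ ^ e ≤ 2 ^ e * (n : ℝ) ^ (-(γ * e)) := by
    calc θ ^ e ≤ (2 * (n : ℝ) ^ (-γ)) ^ e := pow_le_pow_left₀ hθ0.le hθ1 e
      _ = 2 ^ e * (n : ℝ) ^ (-(γ * e)) := by
          rw [mul_pow, ← Real.rpow_natCast ((n : ℝ) ^ (-γ)) e, ← Real.rpow_mul hn0.le]
          congr 2
          ring
  have hr1 : EE p (fun ω => P1 ω ^ 2) ≤ (n : ℝ) ^ (-τ) * lam ^ 2 := by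
    calc EE p (fun ω => P1 ω ^ 2) ≤ θ ^ (2 * J.card) * (θ ^ e * w) := hm1
      _ ≤ θ ^ (2 * J.card) * ((2 ^ e * (n : ℝ) ^ (-(γ * e))) * ((n : ℝ) ^ τ * q ^ 2)) :=
          mul_le_mul_of_nonneg_left (mul_le_mul hθe hwle hw0
            (mul_nonneg (pow_nonneg zero_le_two e) (Real.rpow_nonneg hn0.le _)))
            (pow_nonneg hθ0.le _)
      _ = (4 * 2 ^ e) * ((n : ℝ) ^ (-(γ * e)) * (n : ℝ) ^ τ) * (S ^ 2 / 4) := by
          rw [hS, mul_pow, ← pow_mul, mul_comm J.card 2]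
          ring
      _ ≤ (n : ℝ) ^ τ * ((n : ℝ) ^ (-(γ * e)) * (n : ℝ) ^ τ) * (S ^ 2 / 4) := by gcongr
      _ = (n : ℝ) ^ (τ - γ * e + τ - 2 * b) * (x ^ 2 * S ^ 2 / 4) := by
          have e1 : x ^ 2 = (n : ℝ) ^ (2 * b) := by
            rw [hx, ← Real.rpow_natCast ((n : ℝ) ^ b) 2, ← Real.rpow_mul hn0.le]
            congr 1
            push_cast
            ring
          have e2 : (n : ℝ) ^ (τ - γ * e + τ - 2 * b) * (n : ℝ) ^ (2 * b)
              = (n : ℝ) ^ τ * ((n : ℝ) ^ (-(γ * e)) * (n : ℝ) ^ τ) := by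
            rw [← Real.rpow_add hn0, ← Real.rpow_add hn0, ← Real.rpow_add hn0]
            congr 1
            ring
          rw [e1, ← e2]
          ring
      _ ≤ (n : ℝ) ^ (-τ) * (x ^ 2 * S ^ 2 / 4) := by
          refine mul_le_mul_of_nonneg_right ?_ (by positivity)
          exact Real.rpow_le_rpow_of_exponent_le hn2 (by linarith)
      _ = _ := by
          rw [hlam]
          ring
  have hev2 : ∀ y : ℝ, 0 ≤ y ^ (2 ^ (s + 1)) := fun y => by
    rw [pow_succ, mul_comm (2 ^ s) 2, pow_mul]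
    positivity
  have hlt : ∀ y : ℝ, lam ≤ |y| → lam ^ (2 ^ (s + 1)) ≤ y ^ (2 ^ (s + 1)) := by
    intro y hy
    have h3 := pow_le_pow_left₀ hlam0.le hy (2 ^ (s + 1))
    have h4 : |y| ^ (2 ^ (s + 1)) = y ^ (2 ^ (s + 1)) := by
      rw [pow_succ, mul_comm (2 ^ s) 2, pow_mul, pow_mul, sq_abs]
    rwa [h4] at h3
  have hhalf : (n : ℝ) ^ (-a - 1) * 8 ≤ (n : ℝ) ^ (-a) := by
    have e1 : (n : ℝ) ^ (-a) = (n : ℝ) ^ (-a - 1) * n := by
      rw [← Real.rpow_add_one hn0.ne']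
      congr 1
      ring
    rw [e1]
    exact mul_le_mul_of_nonneg_left h8n (Real.rpow_nonneg hn0.le _)
  have hq1 : EE p (fun ω : Prs (Fin n) → Bool => if lam ≤ |P1 ω| then 1 else 0)
      ≤ (n : ℝ) ^ (-a) / 2 := by
    refine (EE_markov h0 h1 (fun ω : Prs (Fin n) → Bool => lam ≤ |P1 ω|)
      (fun ω => P1 ω ^ (2 ^ (s + 1))) (fun ω => hev2 _)
      (t := lam ^ (2 ^ (s + 1))) (by positivity) (fun ω hω' => hlt _ hω')).trans ?_
    rw [div_le_iff₀ (by positivity)]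
    have hdeg : Deg p ((j0 + j1).choose 2) P1 := part_deg h0 h1 Tm (cw J α) hω 𝓛
      (fun T hT => card_le_of_vs' hJ (Finset.mem_filter.1 hT).2)
    have h5 := hmom (Prs (Fin n)) P1 hdeg
    have hE0 : 0 ≤ EE p (fun ω => P1 ω ^ 2) := EE_nonneg h0 h1 fun ω => sq_nonneg _
    have e5 : (n : ℝ) ^ (-τ * 2 ^ s) * K2 ≤ (n : ℝ) ^ (-a) / 2 := by
      have h6 : (n : ℝ) ^ (-τ * 2 ^ s) ≤ (n : ℝ) ^ (-a - 1) :=
        Real.rpow_le_rpow_of_exponent_le hn2 (by linarith)
      have h7 : 0 ≤ (n : ℝ) ^ (-a - 1) := Real.rpow_nonneg hn0.le _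
      have e1 : (n : ℝ) ^ (-a) = (n : ℝ) ^ (-a - 1) * n := by
        rw [← Real.rpow_add_one hn0.ne']
        congr 1
        ring
      calc (n : ℝ) ^ (-τ * 2 ^ s) * K2 ≤ (n : ℝ) ^ (-a - 1) * K2 :=
            mul_le_mul_of_nonneg_right h6 hK2.le
        _ ≤ (n : ℝ) ^ (-a - 1) * (n / 2) := mul_le_mul_of_nonneg_left (by linarith) h7
        _ = _ := by
            rw [e1]
            ring
    have e6 : lam ^ (2 ^ (s + 1)) = (lam ^ 2) ^ (2 ^ s) := by
      rw [← pow_mul]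
      congr 1
      ring
    calc EE p (fun ω => P1 ω ^ (2 ^ (s + 1))) ≤ K2 * EE p (fun ω => P1 ω ^ 2) ^ (2 ^ s) := h5
      _ ≤ K2 * ((n : ℝ) ^ (-τ) * lam ^ 2) ^ (2 ^ s) := by gcongr
      _ = ((n : ℝ) ^ (-τ * 2 ^ s) * K2) * (lam ^ 2) ^ (2 ^ s) := by
          rw [mul_pow, ← Real.rpow_natCast ((n : ℝ) ^ (-τ)) (2 ^ s), ← Real.rpow_mul hn0.le]
          push_cast
          ring
      _ ≤ (n : ℝ) ^ (-a) / 2 * (lam ^ 2) ^ (2 ^ s) := by gcongr
      _ = _ := by rw [e6]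
  have hq2 : EE p (fun ω : Prs (Fin n) → Bool => if lam ≤ |P2 ω| then 1 else 0)
      ≤ (n : ℝ) ^ (-a) / 2 := by
    refine (EE_markov h0 h1 (fun ω : Prs (Fin n) → Bool => lam ≤ |P2 ω|)
      (fun ω => P2 ω ^ 2) (fun ω => sq_nonneg _)
      (t := lam ^ 2) (by positivity) (fun ω hω' => ?_)).trans ?_
    · rw [← sq_abs (P2 ω)]
      exact pow_le_pow_left₀ hlam0.le hω' 2
    rw [div_le_iff₀ (by positivity)]
    refine hm2.trans ?_
    have e7 : θ ^ j0 ≤ (n : ℝ) ^ (-(a + c + 1 - 2 * b)) := by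
      calc θ ^ j0 ≤ ((n : ℝ) ^ (-(γ / 2))) ^ j0 := pow_le_pow_left₀ hθ0.le hθ2 _
        _ = (n : ℝ) ^ (-(γ / 2) * j0) := by rw [← Real.rpow_natCast, ← Real.rpow_mul hn0.le]
        _ ≤ _ := by
            refine Real.rpow_le_rpow_of_exponent_le hn2 ?_
            have h8 : γ / 2 * (2 * (a + c + 1 - 2 * b) / γ) ≤ γ / 2 * j0 :=
              mul_le_mul_of_nonneg_left hj0 (by positivity)
            have e8 : γ / 2 * (2 * (a + c + 1 - 2 * b) / γ) = a + c + 1 - 2 * b := by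
              field_simp
            linarith
    have e9 : (n : ℝ) ^ (-(a + c + 1 - 2 * b)) ≤ (n : ℝ) ^ (-a - 1) * (x ^ 2 * q) := by
      have h9 : (n : ℝ) ^ (-(a + c + 1 - 2 * b)) = (n : ℝ) ^ (-a - 1) * ((x ^ 2) * (n : ℝ) ^ (-c)) := by
        have e1 : x ^ 2 = (n : ℝ) ^ (2 * b) := by
          rw [hx, ← Real.rpow_natCast ((n : ℝ) ^ b) 2, ← Real.rpow_mul hn0.le]
          congr 1
          push_cast
          ring
        rw [e1, ← Real.rpow_add hn0, ← Real.rpow_add hn0]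
        congr 1
        ring
      rw [h9]
      gcongr
    calc θ ^ (2 * J.card) * (θ ^ j0 * q)
        ≤ θ ^ (2 * J.card) * (((n : ℝ) ^ (-a - 1) * (x ^ 2 * q)) * q) := by
          gcongr
          exact e7.trans e9
      _ = ((n : ℝ) ^ (-a - 1) * 8) / 2 * lam ^ 2 := by
          rw [hlam, hS, mul_comm 2 J.card, pow_mul]
          ring
      _ ≤ (n : ℝ) ^ (-a) / 2 * lam ^ 2 := by gcongr
  rw [Prob_eq, EG_eq]
  calc _ ≤ EE p (fun ω : Prs (Fin n) → Bool => (if lam ≤ |P1 ω| then 1 else 0)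
        + (if lam ≤ |P2 ω| then 1 else 0)) := by
        refine EE_mono h0 h1 fun ω => ?_
        by_cases hE : x * S < |∑ f : Fin m → Fin g, cw J α f * hh ((gr ω).comap (sf h f)) - S|
        · rw [if_pos hE]
          rw [hdec] at hE
          have h10 := hE.trans_le (abs_add_le _ _)
          by_cases c1 : lam ≤ |P1 ω|
          · rw [if_pos c1]
            split_ifs <;> norm_num
          · rw [if_neg c1, if_pos]
            · norm_num
            · push Not at c1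
              rw [hlam] at c1 ⊢
              linarith
        · rw [if_neg hE]
          split_ifs <;> norm_num
    _ = _ := EE_add _ _
    _ ≤ (n : ℝ) ^ (-a) / 2 + (n : ℝ) ^ (-a) / 2 := add_le_add hq1 hq2
    _ = _ := by ring

end tail

end Pool.Agent.H72.KarpS
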