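import Pool.Agent.H72.KarpS.Rounds
import Pool.Agent.H72.KarpS.Low

/-!
The mass of the sets found by the samples, as averages over the induced subgraphs; the means of
these averages.
-/

set_option autoImplicit false
set_option linter.unusedSectionVars false

namespace Pool.Agent.H72.KarpS

open Finset Pool.Agent.H85.Online Pool.Agent.H72.Karp

variable {n m g : ℕ} {p : ℝ} (A : SetAlg) (k : ℕ)

open Classical in
/-- the set found in the relabelled graph -/
noncomputable def outT (H : SimpleGraph (Fin m)) (π : Equiv.Perm (Fin m)) (ρ : Fin (A.seeds m)) :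
    Finset (Fin m) := if Suc A (k : ℝ) H π ρ then trim k (outp A H π ρ) else ∅

open Classical in
/-- the average over relabellings and seeds of the indicator that the set contains `J` -/
noncomputable def hJ (J : Finset (Fin m)) (H : SimpleGraph (Fin m)) : ℝ :=
  (∑ x : Equiv.Perm (Fin m) × Fin (A.seeds m),
    if J ⊆ (outT A k H x.1 x.2).map x.1.toEmbedding then (1 : ℝ) else 0)
    / ((m.factorial : ℝ) * A.seeds m)

theorem found_eq (h : m * g ≤ n) (G : SimpleGraph (Fin n)) (σ : Sample m g (A.seeds m)) :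
    found A h k G σ = (outT A k (G.comap (sf h σ.2.1)) σ.1 σ.2.2).map (emb h σ.1 σ.2.1) := by
  classical
  unfold found outT
  have hc : (Indep (G.comap (emb h σ.1 σ.2.1)) (A.out m (G.comap (emb h σ.1 σ.2.1)) σ.2.2) ∧
      k ≤ (A.out m (G.comap (emb h σ.1 σ.2.1)) σ.2.2).card)
      ↔ Suc A (k : ℝ) (G.comap (sf h σ.2.1)) σ.1 σ.2.2 := by
    unfold Suc outp
    rw [comap_emb, Nat.cast_le]
  by_cases hs : Suc A (k : ℝ) (G.comap (sf h σ.2.1)) σ.1 σ.2.2
  · rw [if_pos hs, if_pos (hc.2 hs)]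
    unfold outp
    rw [comap_emb]
  · rw [if_neg hs, if_neg (fun h' => hs (hc.1 h'))]
    simp

theorem sub_found (h : m * g ≤ n) (G : SimpleGraph (Fin n)) (σ : Sample m g (A.seeds m))
    (J : Finset (Fin m)) (α : Fin m → Fin g) : J.map (sf h α) ⊆ found A h k G σ ↔
      (∀ i ∈ J, σ.2.1 i = α i) ∧
        J ⊆ (outT A k (G.comap (sf h σ.2.1)) σ.1 σ.2.2).map σ.1.toEmbedding := by
  rw [found_eq]
  constructor
  · intro hs
    have h1 : ∀ i ∈ J, σ.2.1 i = α i ∧
        i ∈ (outT A k (G.comap (sf h σ.2.1)) σ.1 σ.2.2).map σ.1.toEmbedding := by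
      intro i hi
      have h2 := hs (Finset.mem_map_of_mem (sf h α) hi)
      obtain ⟨b, hb, he⟩ := Finset.mem_map.1 h2
      have h3 : pt h (σ.1 b) (σ.2.1 (σ.1 b)) = pt h i (α i) := he
      obtain ⟨e1, e2⟩ := pt_inj h h3
      rw [← e1]
      refine ⟨?_, ?_⟩
      · rw [e1] at e2 ⊢
        exact e2
      · exact Finset.mem_map_of_mem σ.1.toEmbedding hb
    exact ⟨fun i hi => (h1 i hi).1, fun i hi => (h1 i hi).2⟩
  · rintro ⟨h1, h2⟩ v hv
    obtain ⟨i, hi, rfl⟩ := Finset.mem_map.1 hv
    obtain ⟨b, hb, he⟩ := Finset.mem_map.1 (h2 hi)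
    have he' : σ.1 b = i := he
    refine Finset.mem_map.2 ⟨b, hb, ?_⟩
    change pt h (σ.1 b) (σ.2.1 (σ.1 b)) = pt h i (α i)
    rw [he', h1 i hi]

theorem hJ_nonneg (J : Finset (Fin m)) (H : SimpleGraph (Fin m)) : 0 ≤ hJ A k J H := by
  unfold hJ
  refine div_nonneg (Finset.sum_nonneg fun _ _ => ?_) (by positivity)
  split_ifs <;> norm_num

theorem hJ_le_one (J : Finset (Fin m)) (H : SimpleGraph (Fin m)) : hJ A k J H ≤ 1 := by
  unfold hJ
  refine avg_le_one A _ fun x => ?_
  split_ifs <;> norm_num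

/-- the mass of the sets which contain the vertices of the groups in `J` given by `α` -/
theorem eJ_eq (h : m * g ≤ n) (G : SimpleGraph (Fin n)) (J : Finset (Fin m))
    (α : Fin m → Fin g) : eJ (found A h k G) ∅ (J.map (sf h α))
      = ∑ f : Fin m → Fin g, cw J α f * hJ A k J (G.comap (sf h f)) := by
  classical
  have e0 : eJ (found A h k G) ∅ (J.map (sf h α))
      = avS A (fun σ => if J.map (sf h α) ⊆ found A h k G σ then (1 : ℝ) else 0) := by
    unfold eJ avS av
    simp
  rw [e0, avS_eq]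
  refine Finset.sum_congr rfl fun f _ => ?_
  unfold cw hJ
  by_cases hf : ∀ i ∈ J, f i = α i
  · rw [if_pos hf]
    congr 2
    refine Finset.sum_congr rfl fun x _ => ?_
    have hs := sub_found A k h G (x.1, f, x.2) J α
    simp only at hs
    by_cases h2 : J ⊆ (outT A k (G.comap (sf h f)) x.1 x.2).map x.1.toEmbedding
    · rw [if_pos h2, if_pos (hs.2 ⟨hf, h2⟩)]
    · rw [if_neg h2, if_neg (fun h3 => h2 (hs.1 h3).2)]
  · rw [if_neg hf, zero_div, zero_mul]
    rw [Finset.sum_eq_zero, zero_div, mul_zero]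
    intro x _
    have hs := sub_found A k h G (x.1, f, x.2) J α
    rw [if_neg (fun h3 => hf (hs.1 h3).1)]

/-- a set of vertices which is contained in a set found by a sample has one vertex in each of some
groups -/
theorem transversal (h : m * g ≤ n) (G : SimpleGraph (Fin n)) (σ : Sample m g (A.seeds m))
    (J : Finset (Fin n)) (hJ' : J ⊆ found A h k G σ) :
    ∃ J' : Finset (Fin m), J = J'.map (sf h σ.2.1) := by
  classical
  refine ⟨univ.filter fun i => sf h σ.2.1 i ∈ J, ?_⟩
  ext v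
  rw [Finset.mem_map]
  constructor
  · intro hv
    have h1 := hJ' hv
    rw [found_eq] at h1
    obtain ⟨b, hb, he⟩ := Finset.mem_map.1 h1
    have he' : sf h σ.2.1 (σ.1 b) = v := he
    exact ⟨σ.1 b, Finset.mem_filter.2 ⟨Finset.mem_univ _, by rw [he']; exact hv⟩, he'⟩
  · rintro ⟨i, hi, rfl⟩
    exact (Finset.mem_filter.1 hi).2

theorem eJ_zero (h : m * g ≤ n) (G : SimpleGraph (Fin n)) (J : Finset (Fin n))
    (hn : ∀ (J' : Finset (Fin m)) (α : Fin m → Fin g), J ≠ J'.map (sf h α)) :
    eJ (found A h k G) ∅ J = 0 := by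
  unfold eJ av
  rw [Finset.sum_eq_zero, zero_div]
  intro σ _
  rw [if_neg]
  rintro ⟨h1, _⟩
  obtain ⟨J', hJ'⟩ := transversal A k h G σ J h1
  exact hn _ _ hJ'

/-! ### the means -/

theorem hJ_perm (τ : Equiv.Perm (Fin m)) (J : Finset (Fin m)) (H : SimpleGraph (Fin m)) :
    hJ A k (J.map τ.toEmbedding) H = hJ A k J (H.comap τ) := by
  classical
  unfold hJ
  congr 1
  symm
  refine Fintype.sum_equiv ((Equiv.mulLeft τ).prodCongr (Equiv.refl _)) _ _ fun x => ?_
  have e1 : H.comap ((τ * x.1 : Equiv.Perm (Fin m)) : Fin m → Fin m)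
      = (H.comap τ).comap x.1 := by
    rw [SimpleGraph.comap_comap]
    rfl
  have e2 : outp A H (τ * x.1) x.2 = outp A (H.comap τ) x.1 x.2 := by
    unfold outp
    rw [e1]
  have e3 : Suc A (k : ℝ) H (τ * x.1) x.2 = Suc A (k : ℝ) (H.comap τ) x.1 x.2 := by
    unfold Suc
    rw [e1, e2]
  have e4 : outT A k H (τ * x.1) x.2 = outT A k (H.comap τ) x.1 x.2 := by
    unfold outT
    rw [e2]
    simp only [e3]
  have e5 : (outT A k (H.comap τ) x.1 x.2).map (τ * x.1 : Equiv.Perm (Fin m)).toEmbedding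
      = ((outT A k (H.comap τ) x.1 x.2).map x.1.toEmbedding).map τ.toEmbedding := by
    rw [Finset.map_map]
    rfl
  simp only [Equiv.prodCongr_apply, Prod.map_fst, Prod.map_snd, Equiv.coe_mulLeft, Equiv.refl_apply,
    e4, e5, Finset.map_subset_map]

theorem exists_perm {J J' : Finset (Fin m)} (h : J.card = J'.card) :
    ∃ τ : Equiv.Perm (Fin m), J.map τ.toEmbedding = J' := by
  classical
  refine ⟨(Finset.equivOfCardEq h).extendSubtype, ?_⟩
  refine Finset.eq_of_subset_of_card_le ?_ ?_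
  · intro v hv
    obtain ⟨u, hu, rfl⟩ := Finset.mem_map.1 hv
    exact (Finset.equivOfCardEq h).extendSubtype_mem u hu
  · rw [Finset.card_map, h]

theorem outT_card (H : SimpleGraph (Fin m)) (π : Equiv.Perm (Fin m)) (ρ : Fin (A.seeds m))
    (hs : Suc A (k : ℝ) H π ρ) : (outT A k H π ρ).card = k := by
  unfold outT
  rw [if_pos hs, card_trim]
  exact_mod_cast hs.2

theorem hJ_sum {j : ℕ} (hj : 1 ≤ j) (H : SimpleGraph (Fin m)) :
    ∑ J ∈ (univ : Finset (Fin m)).powersetCard j, hJ A k J H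
      = (k.choose j : ℝ) * hw A (k : ℝ) H := by
  classical
  unfold hJ hw
  rw [← Finset.sum_div, Finset.sum_comm, ← mul_div_assoc, Finset.mul_sum]
  congr 1
  refine Finset.sum_congr rfl fun x _ => ?_
  by_cases h : Suc A (k : ℝ) H x.1 x.2
  · rw [if_pos h, mul_one]
    have e : ∀ J ∈ (univ : Finset (Fin m)).powersetCard j,
        (if J ⊆ (outT A k H x.1 x.2).map x.1.toEmbedding then (1 : ℝ) else 0)
        = if J ∈ ((outT A k H x.1 x.2).map x.1.toEmbedding).powersetCard j then 1 else 0 := by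
      intro J hJm
      rw [Finset.mem_powersetCard] at hJm
      by_cases h2 : J ⊆ (outT A k H x.1 x.2).map x.1.toEmbedding
      · rw [if_pos h2, if_pos (Finset.mem_powersetCard.2 ⟨h2, hJm.2⟩)]
      · rw [if_neg h2, if_neg (fun h3 => h2 (Finset.mem_powersetCard.1 h3).1)]
    rw [Finset.sum_congr rfl e, Finset.sum_ite_mem, Finset.sum_const, nsmul_eq_mul, mul_one]
    rw [Finset.inter_eq_right.2 (Finset.powersetCard_mono (Finset.subset_univ _)),
      Finset.card_powersetCard, Finset.card_map, outT_card A k H x.1 x.2 h]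
  · rw [if_neg h, mul_zero]
    refine Finset.sum_eq_zero fun J hJm => ?_
    have : outT A k H x.1 x.2 = ∅ := by
      unfold outT
      rw [if_neg h]
    rw [this, Finset.map_empty, if_neg]
    intro h2
    rw [Finset.mem_powersetCard] at hJm
    have := Finset.subset_empty.1 h2
    rw [this] at hJm
    simp at hJm
    omega

theorem EG_hJ (h0 : 0 < p) (h1 : p < 1) (J : Finset (Fin m)) (hJ1 : 1 ≤ J.card) :
    EG p (hJ A k J : SimpleGraph (Fin m) → ℝ)
      = (k.choose J.card : ℝ) * A.success p m k / (m.choose J.card : ℝ) := by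
  have hsame : ∀ J' ∈ (univ : Finset (Fin m)).powersetCard J.card,
      EG p (hJ A k J' : SimpleGraph (Fin m) → ℝ) = EG p (hJ A k J : SimpleGraph (Fin m) → ℝ) := by
    intro J' hJ'
    obtain ⟨τ, hτ⟩ := exists_perm (Finset.mem_powersetCard.1 hJ').2.symm
    rw [← EG_comap h0 h1 τ.toEmbedding (hJ A k J)]
    have e : ∀ H : SimpleGraph (Fin m), hJ A k J' H = hJ A k J (H.comap τ.toEmbedding) := by
      intro H
      have := hJ_perm A k τ J H
      rw [hτ] at this
      exact this
    rw [show (hJ A k J' : SimpleGraph (Fin m) → ℝ) = fun H => _ from funext e]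
  have h2 : ∑ J' ∈ (univ : Finset (Fin m)).powersetCard J.card,
      EG p (hJ A k J' : SimpleGraph (Fin m) → ℝ) = (k.choose J.card : ℝ) * A.success p m k := by
    rw [← EG_hw A (k : ℝ) h0 h1, ← EG_sum, ← EG_mul_left]
    congr 1
    funext H
    exact hJ_sum A k hJ1 H
  rw [Finset.sum_congr rfl hsame, Finset.sum_const, Finset.card_powersetCard, Finset.card_univ,
    Fintype.card_fin, nsmul_eq_mul] at h2
  have hm : (0 : ℝ) < (m.choose J.card : ℝ) := by
    have : J.card ≤ m := by
      have := Finset.card_le_univ J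
      rwa [Fintype.card_fin] at this
    exact_mod_cast Nat.choose_pos this
  rw [eq_div_iff hm.ne', ← h2]
  ring

end Pool.Agent.H72.KarpS
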