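import Pool.Agent.H72.KarpS.Av
import Pool.Agent.H72.KarpS.Defs

/-!
A random family of sets: the mass of the sets which avoid a given set, the choice of new sets, and
the expectations and the bounded differences of these masses.
-/

set_option autoImplicit false
set_option linter.unusedSectionVars false

namespace Pool.Agent.H72.KarpS

open Finset

variable {V Ω : Type} [Fintype V] [DecidableEq V] [Fintype Ω] [Nonempty Ω] (I : Ω → Finset V)

/-- the mass of the sets which contain `J` and avoid `C` outside `J` -/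
noncomputable def eJ (C J : Finset V) : ℝ :=
  av fun σ => if J ⊆ I σ ∧ Disjoint (I σ \ J) C then (1 : ℝ) else 0

/-- the mass of the nonempty sets which avoid `C` -/
noncomputable def aC (C : Finset V) : ℝ :=
  av fun σ => if (I σ).Nonempty ∧ Disjoint (I σ) C then (1 : ℝ) else 0

/-- the mass of the sets which avoid `C` and meet `D` -/
noncomputable def hitC (C D : Finset V) : ℝ :=
  av fun σ => if ((I σ).Nonempty ∧ Disjoint (I σ) C) ∧ ¬ Disjoint (I σ) D then (1 : ℝ) else 0

/-- the probability that the chosen set meets `D` -/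
noncomputable def pickHit (B : ℕ) (C D : Finset V) : ℝ :=
  av fun x : Fin B → Ω =>
    if ¬ Disjoint (firstNew C (List.ofFn fun j => I (x j))) D then (1 : ℝ) else 0

theorem eJ_nonneg (C J : Finset V) : 0 ≤ eJ I C J := av_nonneg fun σ => by split_ifs <;> norm_num

theorem aC_nonneg (C : Finset V) : 0 ≤ aC I C := av_nonneg fun σ => by split_ifs <;> norm_num

theorem aC_le_one (C : Finset V) : aC I C ≤ 1 := av_le_const fun σ => by split_ifs <;> norm_num

theorem hitC_nonneg (C D : Finset V) : 0 ≤ hitC I C D :=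
  av_nonneg fun σ => by split_ifs <;> norm_num

theorem eJ_anti {C C' : Finset V} (h : C ⊆ C') (J : Finset V) : eJ I C' J ≤ eJ I C J := by
  refine av_mono fun σ => ?_
  by_cases h1 : J ⊆ I σ ∧ Disjoint (I σ \ J) C'
  · rw [if_pos h1, if_pos ⟨h1.1, Finset.disjoint_of_subset_right h h1.2⟩]
  · rw [if_neg h1]
    split_ifs <;> norm_num

theorem firstNew_cases (C : Finset V) (l : List (Finset V)) :
    firstNew C l = ∅ ∨ (firstNew C l ∈ l ∧ (firstNew C l).Nonempty ∧ Disjoint (firstNew C l) C) := by
  induction l with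
  | nil => exact Or.inl rfl
  | cons I l ih =>
    unfold firstNew
    split_ifs with h
    · exact Or.inr ⟨List.mem_cons_self, h⟩
    · rcases ih with h1 | h1
      · exact Or.inl h1
      · exact Or.inr ⟨List.mem_cons_of_mem _ h1.1, h1.2⟩

theorem firstNew_card {k : ℕ} (C : Finset V) (l : List (Finset V)) (hl : ∀ I ∈ l, I.card ≤ k) :
    (firstNew C l).card ≤ k := by
  rcases firstNew_cases C l with h | h
  · rw [h]
    simp
  · exact hl _ h.1

/-- the mass of the sets which avoid `C`, counted through their elements -/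
theorem mass_eq {k : ℕ} {U : Finset V} (hk : ∀ σ, (I σ).Nonempty → (I σ).card = k)
    (hU : ∀ σ, I σ ⊆ U) (C : Finset V) : k * aC I C = ∑ v ∈ U \ C, eJ I C {v} := by
  unfold aC eJ
  rw [← av_sum, ← av_mul_left]
  refine av_congr fun σ => ?_
  have e : ∀ v ∈ U \ C, (if ({v} : Finset V) ⊆ I σ ∧ Disjoint (I σ \ {v}) C then (1 : ℝ) else 0)
      = if Disjoint (I σ) C then (if v ∈ I σ then 1 else 0) else 0 := by
    intro v hv
    have hvC := (Finset.mem_sdiff.1 hv).2
    by_cases h1 : v ∈ I σ
    · by_cases h2 : Disjoint (I σ) C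
      · rw [if_pos ⟨Finset.singleton_subset_iff.2 h1,
          Finset.disjoint_of_subset_left Finset.sdiff_subset h2⟩, if_pos h2, if_pos h1]
      · rw [if_neg, if_neg h2]
        rintro ⟨_, h3⟩
        apply h2
        rw [Finset.disjoint_left] at h3 ⊢
        intro u hu huC
        refine h3 (Finset.mem_sdiff.2 ⟨hu, ?_⟩) huC
        rw [Finset.mem_singleton]
        rintro rfl
        exact hvC huC
    · rw [if_neg (fun h => h1 (Finset.singleton_subset_iff.1 h.1)), if_neg h1]
      split_ifs <;> rfl
  rw [Finset.sum_congr rfl e]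
  by_cases h2 : Disjoint (I σ) C
  · simp only [if_pos h2]
    rw [Finset.sum_ite_mem, Finset.sum_const, nsmul_eq_mul, mul_one]
    have hsub : I σ ⊆ U \ C := by
      intro v hv
      exact Finset.mem_sdiff.2 ⟨hU σ hv, fun h => (Finset.disjoint_left.1 h2) hv h⟩
    rw [Finset.inter_eq_right.2 hsub]
    by_cases h3 : (I σ).Nonempty
    · rw [if_pos ⟨h3, h2⟩, hk σ h3, mul_one]
    · rw [if_neg (fun h => h3 h.1), Finset.not_nonempty_iff_eq_empty.1 h3]
      simp
  · simp [h2]

theorem hit_le (C D : Finset V) : hitC I C D ≤ ∑ v ∈ D, eJ I C {v} := by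
  unfold hitC eJ
  rw [← av_sum]
  refine av_mono fun σ => ?_
  split_ifs with h
  · obtain ⟨⟨_, h1⟩, h2⟩ := h
    rw [Finset.not_disjoint_iff] at h2
    obtain ⟨v, hv, hvD⟩ := h2
    refine le_trans ?_ (Finset.single_le_sum (f := fun v =>
      if ({v} : Finset V) ⊆ I σ ∧ Disjoint (I σ \ {v}) C then (1 : ℝ) else 0)
      (fun a _ => by split_ifs <;> norm_num) hvD)
    rw [if_pos ⟨Finset.singleton_subset_iff.2 hv,
      Finset.disjoint_of_subset_left Finset.sdiff_subset h1⟩]
  · exact Finset.sum_nonneg fun a _ => by split_ifs <;> norm_num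

theorem le_hit (C D : Finset V) (hD : Disjoint D C) :
    ∑ v ∈ D, eJ I C {v} - ∑ J ∈ D.powersetCard 2, eJ I C J ≤ hitC I C D := by
  unfold hitC eJ
  rw [← av_sum, ← av_sum, ← av_sub]
  refine av_mono fun σ => ?_
  by_cases h2 : Disjoint (I σ) C
  · have e1 : ∑ v ∈ D, (if ({v} : Finset V) ⊆ I σ ∧ Disjoint (I σ \ {v}) C then (1 : ℝ) else 0)
        = ((D ∩ I σ).card : ℝ) := by
      have : ∀ v ∈ D, (if ({v} : Finset V) ⊆ I σ ∧ Disjoint (I σ \ {v}) C then (1 : ℝ) else 0)
          = if v ∈ I σ then 1 else 0 := by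
        intro v _
        by_cases h1 : v ∈ I σ
        · rw [if_pos ⟨Finset.singleton_subset_iff.2 h1,
            Finset.disjoint_of_subset_left Finset.sdiff_subset h2⟩, if_pos h1]
        · rw [if_neg (fun h => h1 (Finset.singleton_subset_iff.1 h.1)), if_neg h1]
      rw [Finset.sum_congr rfl this, Finset.sum_ite_mem, Finset.sum_const, nsmul_eq_mul, mul_one]
    have e2 : ∑ J ∈ D.powersetCard 2, (if J ⊆ I σ ∧ Disjoint (I σ \ J) C then (1 : ℝ) else 0)
        = (((D ∩ I σ).card.choose 2 : ℕ) : ℝ) := by
      have : ∀ J ∈ D.powersetCard 2, (if J ⊆ I σ ∧ Disjoint (I σ \ J) C then (1 : ℝ) else 0)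
          = if J ∈ (D ∩ I σ).powersetCard 2 then 1 else 0 := by
        intro J hJ
        rw [Finset.mem_powersetCard] at hJ
        by_cases h1 : J ⊆ I σ
        · rw [if_pos ⟨h1, Finset.disjoint_of_subset_left Finset.sdiff_subset h2⟩, if_pos]
          rw [Finset.mem_powersetCard]
          exact ⟨Finset.subset_inter hJ.1 h1, hJ.2⟩
        · rw [if_neg (fun h => h1 h.1), if_neg]
          rw [Finset.mem_powersetCard]
          exact fun h => h1 (h.1.trans Finset.inter_subset_right)
      rw [Finset.sum_congr rfl this, Finset.sum_ite_mem, Finset.sum_const, nsmul_eq_mul, mul_one]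
      have h3 : D.powersetCard 2 ∩ (D ∩ I σ).powersetCard 2 = (D ∩ I σ).powersetCard 2 :=
        Finset.inter_eq_right.2 (Finset.powersetCard_mono Finset.inter_subset_left)
      rw [h3, Finset.card_powersetCard]
    rw [e1, e2]
    by_cases h3 : Disjoint (I σ) D
    · rw [if_neg (fun h => h.2 h3)]
      have : D ∩ I σ = ∅ := by
        rw [Finset.inter_comm]
        exact Finset.disjoint_iff_inter_eq_empty.1 h3
      rw [this]
      simp
    · have h4 : (I σ).Nonempty := by
        rw [Finset.not_disjoint_iff] at h3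
        obtain ⟨v, hv, _⟩ := h3
        exact ⟨v, hv⟩
      rw [if_pos ⟨⟨h4, h2⟩, h3⟩]
      set t := (D ∩ I σ).card
      have h5 : t ≤ t.choose 2 + 1 := by
        rcases t with _ | t
        · simp
        · rw [Nat.choose_succ_left _ _ (by norm_num)]
          simp
      have h6 : (t : ℝ) ≤ ((t.choose 2 : ℕ) : ℝ) + 1 := by exact_mod_cast h5
      linarith
  · rw [if_neg (fun h => h2 h.1.2)]
    have e1 : ∑ v ∈ D, (if ({v} : Finset V) ⊆ I σ ∧ Disjoint (I σ \ {v}) C then (1 : ℝ) else 0)
        = 0 := by
      refine Finset.sum_eq_zero fun v hv => ?_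
      rw [if_neg]
      rintro ⟨_, h3⟩
      apply h2
      rw [Finset.disjoint_left] at h3 ⊢
      intro u hu huC
      refine h3 (Finset.mem_sdiff.2 ⟨hu, ?_⟩) huC
      rw [Finset.mem_singleton]
      rintro rfl
      exact (Finset.disjoint_left.1 hD) hv huC
    rw [e1, zero_sub]
    have : 0 ≤ ∑ J ∈ D.powersetCard 2,
        (if J ⊆ I σ ∧ Disjoint (I σ \ J) C then (1 : ℝ) else 0) :=
      Finset.sum_nonneg fun a _ => by split_ifs <;> norm_num
    linarith

/-- the law of the chosen set -/
theorem pickHit_eq (B : ℕ) (C D : Finset V) :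
    pickHit I B C D * aC I C = hitC I C D * (1 - (1 - aC I C) ^ B) := by
  induction B with
  | zero =>
    have : pickHit I 0 C D = 0 := by
      unfold pickHit
      rw [av_pi_zero _ (fun i => i.elim0)]
      simp [firstNew]
    rw [this]
    simp
  | succ B ih =>
    have h1 : pickHit I (B + 1) C D = hitC I C D + (1 - aC I C) * pickHit I B C D := by
      unfold pickHit
      rw [av_cons]
      have e1 : ∀ x : Ω, (av fun y : Fin B → Ω => if ¬ Disjoint (firstNew C (List.ofFn fun j =>
            I ((Fin.cons x y : Fin (B + 1) → Ω) j))) D then (1 : ℝ) else 0)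
          = (if ((I x).Nonempty ∧ Disjoint (I x) C) ∧ ¬ Disjoint (I x) D then (1 : ℝ) else 0)
            + (1 - (if (I x).Nonempty ∧ Disjoint (I x) C then (1 : ℝ) else 0)) * pickHit I B C D := by
        intro x
        have e2 : ∀ y : Fin B → Ω, firstNew C (List.ofFn fun j =>
            I ((Fin.cons x y : Fin (B + 1) → Ω) j))
            = if (I x).Nonempty ∧ Disjoint (I x) C then I x
              else firstNew C (List.ofFn fun j => I (y j)) := by
          intro y
          rw [List.ofFn_succ]
          simp only [Fin.cons_zero, Fin.cons_succ]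
          rw [firstNew]
        simp only [e2]
        by_cases h2 : (I x).Nonempty ∧ Disjoint (I x) C
        · simp only [if_pos h2, sub_self, zero_mul, add_zero]
          rw [av_const]
          simp only [h2, true_and, and_true]
        · simp only [if_neg h2, sub_zero, one_mul]
          rw [if_neg (fun h => h2 h.1), zero_add]
          rfl
      rw [av_congr e1, av_add, av_mul_right, av_sub, av_const]
      rfl
    rw [h1, add_mul, mul_assoc, ih, pow_succ]
    ring

/-- the union of the chosen sets -/
def unionW {N B : ℕ} (M : ℕ) (C : Finset V) (y : Fin N → Fin B → Ω) : Finset V :=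
  (univ.filter fun i : Fin N => (i : ℕ) < M).biUnion fun i =>
    firstNew C (List.ofFn fun j => I (y i j))

theorem card_filter_lt {N M : ℕ} (h : M ≤ N) :
    (univ.filter fun i : Fin N => (i : ℕ) < M).card = M := by
  have : (univ.filter fun i : Fin N => (i : ℕ) < M)
      = (univ : Finset (Fin M)).map (Fin.castLEEmb h) := by
    ext i
    simp only [Finset.mem_filter, Finset.mem_univ, true_and, Finset.mem_map]
    constructor
    · intro hi
      exact ⟨⟨i, hi⟩, Fin.ext rfl⟩
    · rintro ⟨j, hj⟩
      rw [← hj]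
      exact j.isLt
  rw [this, Finset.card_map, Finset.card_univ, Fintype.card_fin]

/-- the probability that the chosen sets avoid `D` -/
theorem av_disj {N B M : ℕ} (hM : M ≤ N) (C D : Finset V) :
    av (fun y : Fin N → Fin B → Ω => if Disjoint D (unionW I M C y) then (1 : ℝ) else 0)
      = (1 - pickHit I B C D) ^ M := by
  have e1 : ∀ y : Fin N → Fin B → Ω, (if Disjoint D (unionW I M C y) then (1 : ℝ) else 0)
      = ∏ i : Fin N, (if (i : ℕ) < M then
        (if Disjoint (firstNew C (List.ofFn fun j => I (y i j))) D then (1 : ℝ) else 0) else 1) := by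
    intro y
    by_cases h : Disjoint D (unionW I M C y)
    · rw [if_pos h]
      symm
      refine Finset.prod_eq_one fun i _ => ?_
      by_cases hi : (i : ℕ) < M
      · rw [if_pos hi, if_pos]
        unfold unionW at h
        rw [Finset.disjoint_biUnion_right] at h
        exact (h i (Finset.mem_filter.2 ⟨Finset.mem_univ _, hi⟩)).symm
      · rw [if_neg hi]
    · rw [if_neg h]
      unfold unionW at h
      rw [Finset.disjoint_biUnion_right] at h
      push Not at h
      obtain ⟨i, hi, hd⟩ := h
      symm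
      refine Finset.prod_eq_zero (Finset.mem_univ i) ?_
      rw [if_pos (Finset.mem_filter.1 hi).2, if_neg]
      exact fun h' => hd h'.symm
  rw [av_congr e1, av_prod (fun (i : Fin N) (x : Fin B → Ω) => if (i : ℕ) < M then
        (if Disjoint (firstNew C (List.ofFn fun j => I (x j))) D then (1 : ℝ) else 0) else 1)]
  have e2 : ∀ i : Fin N, av (fun x : Fin B → Ω => if (i : ℕ) < M then
        (if Disjoint (firstNew C (List.ofFn fun j => I (x j))) D then (1 : ℝ) else 0) else 1)
      = if (i : ℕ) < M then 1 - pickHit I B C D else 1 := by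
    intro i
    by_cases hi : (i : ℕ) < M
    · simp only [if_pos hi]
      unfold pickHit
      rw [eq_sub_iff_add_eq, ← av_add]
      refine Eq.trans (av_congr fun x => ?_) (av_const (X := Fin B → Ω) (1 : ℝ))
      by_cases h : Disjoint (firstNew C (List.ofFn fun j => I (x j))) D
      · simp [h]
      · simp [h]
    · simp only [if_neg hi]
      exact av_const 1
  simp only [e2]
  rw [← Finset.prod_filter, Finset.prod_const, card_filter_lt hM]

/-- the expected mass after a round -/
theorem av_eJ {N B M : ℕ} (hM : M ≤ N) (C J : Finset V) :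
    av (fun y : Fin N → Fin B → Ω => eJ I (C ∪ unionW I M C y) J)
      = av (fun σ => if J ⊆ I σ ∧ Disjoint (I σ \ J) C then
          (1 - pickHit I B C (I σ \ J)) ^ M else 0) := by
  unfold eJ
  rw [av_comm]
  refine av_congr fun σ => ?_
  by_cases h : J ⊆ I σ ∧ Disjoint (I σ \ J) C
  · rw [if_pos h, ← av_disj I hM (N := N) (B := B) C (I σ \ J)]
    refine av_congr fun y => ?_
    by_cases h2 : Disjoint (I σ \ J) (unionW I M C y)
    · rw [if_pos h2, if_pos ⟨h.1, Finset.disjoint_union_right.2 ⟨h.2, h2⟩⟩]
    · rw [if_neg h2, if_neg (fun h3 => h2 (Finset.disjoint_union_right.1 h3.2).2)]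
  · rw [if_neg h]
    have : ∀ y : Fin N → Fin B → Ω,
        (if J ⊆ I σ ∧ Disjoint (I σ \ J) (C ∪ unionW I M C y) then (1 : ℝ) else 0) = 0 := by
      intro y
      rw [if_neg (fun h3 => h ⟨h3.1, (Finset.disjoint_union_right.1 h3.2).1⟩)]
    simp only [this]
    exact av_const 0

/-- the expected number of the remaining vertices after a round -/
theorem av_left {N B M : ℕ} (hM : M ≤ N) (C U : Finset V) :
    av (fun y : Fin N → Fin B → Ω => ((U \ (C ∪ unionW I M C y)).card : ℝ))
      = ∑ v ∈ U \ C, (1 - pickHit I B C {v}) ^ M := by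
  have e1 : ∀ y : Fin N → Fin B → Ω, ((U \ (C ∪ unionW I M C y)).card : ℝ)
      = ∑ v ∈ U \ C, if Disjoint {v} (unionW I M C y) then (1 : ℝ) else 0 := by
    intro y
    rw [← Finset.sum_filter, Finset.sum_const, nsmul_eq_mul, mul_one]
    congr 2
    ext v
    simp only [Finset.mem_sdiff, Finset.mem_union, Finset.mem_filter, Finset.disjoint_singleton_left]
    tauto
  rw [av_congr e1, av_sum]
  exact Finset.sum_congr rfl fun v _ => av_disj I hM C {v}

/-- the loss of mass when a set `P` is added -/
theorem eJ_union_ge {k : ℕ} {E : ℝ} (C J P : Finset V) (hP : P.card ≤ k) (hE0 : 0 ≤ E)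
    (hE : ∀ J' : Finset V, J'.card = J.card + 1 → eJ I C J' ≤ E) :
    eJ I C J - k * E ≤ eJ I (C ∪ P) J := by
  have h1 : eJ I C J - eJ I (C ∪ P) J ≤ ∑ u ∈ P \ J, eJ I C (insert u J) := by
    unfold eJ
    rw [← av_sub, ← av_sum]
    refine av_mono fun σ => ?_
    by_cases h : J ⊆ I σ ∧ Disjoint (I σ \ J) C
    · by_cases h2 : Disjoint (I σ \ J) P
      · rw [if_pos h, if_pos ⟨h.1, Finset.disjoint_union_right.2 ⟨h.2, h2⟩⟩, sub_self]
        exact Finset.sum_nonneg fun a _ => by split_ifs <;> norm_num
      · rw [if_pos h, if_neg (fun h3 => h2 (Finset.disjoint_union_right.1 h3.2).2), sub_zero]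
        rw [Finset.not_disjoint_iff] at h2
        obtain ⟨u, hu, huP⟩ := h2
        rw [Finset.mem_sdiff] at hu
        refine le_trans ?_ (Finset.single_le_sum (f := fun u =>
          if insert u J ⊆ I σ ∧ Disjoint (I σ \ insert u J) C then (1 : ℝ) else 0)
          (fun a _ => by split_ifs <;> norm_num) (Finset.mem_sdiff.2 ⟨huP, hu.2⟩))
        rw [if_pos]
        refine ⟨Finset.insert_subset hu.1 h.1, ?_⟩
        exact Finset.disjoint_of_subset_left
          (Finset.sdiff_subset_sdiff (Finset.Subset.refl _) (Finset.subset_insert _ _)) h.2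
    · rw [if_neg h, if_neg (fun h3 => h ⟨h3.1, (Finset.disjoint_union_right.1 h3.2).1⟩), sub_zero]
      exact Finset.sum_nonneg fun a _ => by split_ifs <;> norm_num
  have h2 : ∑ u ∈ P \ J, eJ I C (insert u J) ≤ k * E := by
    calc ∑ u ∈ P \ J, eJ I C (insert u J) ≤ ∑ _u ∈ P \ J, E := by
          refine Finset.sum_le_sum fun u hu => hE _ ?_
          rw [Finset.card_insert_of_notMem (Finset.mem_sdiff.1 hu).2]
      _ = ((P \ J).card : ℝ) * E := by rw [Finset.sum_const, nsmul_eq_mul]
      _ ≤ k * E := by
          refine mul_le_mul_of_nonneg_right ?_ hE0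
          exact_mod_cast (Finset.card_le_card Finset.sdiff_subset).trans hP
  linarith

/-- The union of the chosen sets without the one with the number `i`. -/
theorem unionW_split {N B M : ℕ} (C : Finset V) (y : Fin N → Fin B → Ω) (i : Fin N) :
    unionW I M C y = ((univ.filter fun i' : Fin N => (i' : ℕ) < M).erase i).biUnion (fun i' =>
      firstNew C (List.ofFn fun j => I (y i' j))) ∪
      (if (i : ℕ) < M then firstNew C (List.ofFn fun j => I (y i j)) else ∅) := by
  unfold unionW
  by_cases hi : (i : ℕ) < M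
  · rw [if_pos hi]
    conv_lhs => rw [← Finset.insert_erase (show i ∈ univ.filter fun i' : Fin N => (i' : ℕ) < M from
      Finset.mem_filter.2 ⟨Finset.mem_univ _, hi⟩)]
    rw [Finset.biUnion_insert, Finset.union_comm]
  · rw [if_neg hi, Finset.union_empty, Finset.erase_eq_of_notMem]
    exact fun h => hi (Finset.mem_filter.1 h).2

theorem rest_eq {N B M : ℕ} (C : Finset V) (y y' : Fin N → Fin B → Ω) (i : Fin N)
    (h : ∀ j, j ≠ i → y j = y' j) :
    ((univ.filter fun i' : Fin N => (i' : ℕ) < M).erase i).biUnion (fun i' =>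
      firstNew C (List.ofFn fun j => I (y i' j)))
    = ((univ.filter fun i' : Fin N => (i' : ℕ) < M).erase i).biUnion (fun i' =>
      firstNew C (List.ofFn fun j => I (y' i' j))) := by
  refine Finset.biUnion_congr rfl fun j hj => ?_
  rw [h j (Finset.ne_of_mem_erase hj)]

/-- bounded differences of the masses -/
theorem eJ_diff {k N B M : ℕ} (hk : ∀ σ, (I σ).card ≤ k) {E : ℝ} (C J : Finset V)
    (hE0 : 0 ≤ E) (hE : ∀ J' : Finset V, J'.card = J.card + 1 → eJ I C J' ≤ E) (i : Fin N)
    (y y' : Fin N → Fin B → Ω) (h : ∀ j, j ≠ i → y j = y' j) :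
    |eJ I (C ∪ unionW I M C y) J - eJ I (C ∪ unionW I M C y') J|
      ≤ if (i : ℕ) < M then k * E else 0 := by
  rw [unionW_split I C y i, unionW_split I C y' i, rest_eq I C y y' i h]
  set R := ((univ.filter fun i' : Fin N => (i' : ℕ) < M).erase i).biUnion (fun i' =>
      firstNew C (List.ofFn fun j => I (y' i' j))) with hR
  by_cases hi : (i : ℕ) < M
  · rw [if_pos hi, if_pos hi, if_pos hi]
    have key : ∀ z : Fin B → Ω, eJ I (C ∪ R) J - k * E
        ≤ eJ I (C ∪ (R ∪ firstNew C (List.ofFn fun j => I (z j)))) J ∧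
        eJ I (C ∪ (R ∪ firstNew C (List.ofFn fun j => I (z j)))) J ≤ eJ I (C ∪ R) J := by
      intro z
      rw [← Finset.union_assoc]
      refine ⟨?_, eJ_anti I Finset.subset_union_left J⟩
      refine eJ_union_ge I (C ∪ R) J _ (firstNew_card C _ ?_) hE0 fun J' hJ' =>
        (eJ_anti I Finset.subset_union_left J').trans (hE J' hJ')
      intro S hS
      obtain ⟨j, rfl⟩ := (List.mem_ofFn' _ _).1 hS
      exact hk _
    have k1 := key (y i)
    have k2 := key (y' i)
    rw [abs_le]
    constructor <;> linarith [k1.1, k1.2, k2.1, k2.2]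
  · rw [if_neg hi, if_neg hi, if_neg hi, sub_self, abs_zero]

/-- bounded differences of the number of the remaining vertices -/
theorem left_diff {k N B M : ℕ} (hk : ∀ σ, (I σ).card ≤ k) (C U : Finset V) (i : Fin N)
    (y y' : Fin N → Fin B → Ω) (h : ∀ j, j ≠ i → y j = y' j) :
    |((U \ (C ∪ unionW I M C y)).card : ℝ) - ((U \ (C ∪ unionW I M C y')).card : ℝ)|
      ≤ if (i : ℕ) < M then (k : ℝ) else 0 := by
  rw [unionW_split I C y i, unionW_split I C y' i, rest_eq I C y y' i h]
  set R := ((univ.filter fun i' : Fin N => (i' : ℕ) < M).erase i).biUnion (fun i' =>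
      firstNew C (List.ofFn fun j => I (y' i' j))) with hR
  by_cases hi : (i : ℕ) < M
  · rw [if_pos hi, if_pos hi, if_pos hi]
    have key : ∀ z : Fin B → Ω, ((U \ (C ∪ R)).card : ℝ) - k
        ≤ ((U \ (C ∪ (R ∪ firstNew C (List.ofFn fun j => I (z j))))).card : ℝ) ∧
        ((U \ (C ∪ (R ∪ firstNew C (List.ofFn fun j => I (z j))))).card : ℝ)
          ≤ ((U \ (C ∪ R)).card : ℝ) := by
      intro z
      rw [← Finset.union_assoc]
      set P := firstNew C (List.ofFn fun j => I (z j)) with hP
      have hPk : P.card ≤ k := by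
        refine firstNew_card C _ ?_
        intro S hS
        obtain ⟨j, rfl⟩ := (List.mem_ofFn' _ _).1 hS
        exact hk _
      constructor
      · have h3 : (U \ (C ∪ R)).card ≤ (U \ (C ∪ R ∪ P)).card + P.card := by
          have : U \ (C ∪ R) ⊆ (U \ (C ∪ R ∪ P)) ∪ P := by
            intro v
            simp only [Finset.mem_sdiff, Finset.mem_union]
            tauto
          exact (Finset.card_le_card this).trans (Finset.card_union_le _ _)
        have h4 : ((U \ (C ∪ R)).card : ℝ) ≤ ((U \ (C ∪ R ∪ P)).card : ℝ) + P.card := by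
          exact_mod_cast h3
        have h5 : (P.card : ℝ) ≤ k := by exact_mod_cast hPk
        linarith
      · exact_mod_cast Finset.card_le_card
          (Finset.sdiff_subset_sdiff (Finset.Subset.refl _) Finset.subset_union_left)
    have k1 := key (y i)
    have k2 := key (y' i)
    rw [abs_le]
    constructor <;> linarith [k1.1, k1.2, k2.1, k2.2]
  · rw [if_neg hi, if_neg hi, if_neg hi, sub_self, abs_zero]

end Pool.Agent.H72.KarpS
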