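import Pool.Agent.H72.KarpS.Est

/-!
One round: the regularity of the family of sets is preserved, except with exponentially small
probability.
-/

set_option autoImplicit false
set_option linter.unusedSectionVars false

namespace Pool.Agent.H72.KarpS

open Finset

variable {V Ω : Type} [Fintype V] [DecidableEq V] [Fintype Ω] [Nonempty Ω] (I : Ω → Finset V)

/-- The state: every vertex has mass about `D`, the sets of `j` vertices with `2 ≤ j ≤ j1` have mass
at most `E j`, and about `Nn` vertices of `U` are left. -/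
def St (U : Finset V) (D κ Nn : ℝ) (E : ℕ → ℝ) (j1 : ℕ) (C : Finset V) : Prop :=
  (∀ v ∈ U, |eJ I C {v} - D| ≤ κ * D) ∧
    (∀ J : Finset V, 2 ≤ J.card → J.card ≤ j1 → eJ I C J ≤ E J.card) ∧
    |((U \ C).card : ℝ) - Nn| ≤ κ * Nn

theorem sum_ite_sq {N M : ℕ} (h : M ≤ N) (c : ℝ) :
    ∑ i : Fin N, (if (i : ℕ) < M then c else 0) ^ 2 = M * c ^ 2 := by
  have : ∀ i : Fin N, (if (i : ℕ) < M then c else 0) ^ 2 = if (i : ℕ) < M then c ^ 2 else 0 := by
    intro i
    split_ifs <;> simp
  simp only [this]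
  rw [← Finset.sum_filter, Finset.sum_const, card_filter_lt h, nsmul_eq_mul]

open Classical in
/-- the two sided tail for a function of the blocks with bounded differences -/
theorem block_tail {X : Type} [Fintype X] [Nonempty X] {N M : ℕ} (hM : M ≤ N)
    (f : (Fin N → X) → ℝ) {c lam Lam : ℝ} (hc : 0 ≤ c) (hlam : 0 < lam) (hLam : 0 < Lam)
    (hcond : 2 * Lam * (M * c ^ 2) ≤ lam ^ 2)
    (hf : ∀ (i : Fin N) (x y : Fin N → X), (∀ j, j ≠ i → x j = y j) →
      |f x - f y| ≤ if (i : ℕ) < M then c else 0) :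
    av (fun x => if lam ≤ f x - av f then (1 : ℝ) else 0) ≤ Real.exp (-Lam) ∧
      av (fun x => if lam ≤ av f - f x then (1 : ℝ) else 0) ≤ Real.exp (-Lam) := by
  have hS : 0 < lam ^ 2 / (2 * Lam) := by positivity
  have hcS : ∑ i : Fin N, (if (i : ℕ) < M then c else 0) ^ 2 ≤ lam ^ 2 / (2 * Lam) := by
    rw [sum_ite_sq hM, le_div_iff₀ (by positivity)]
    linarith
  have e : lam ^ 2 / (2 * (lam ^ 2 / (2 * Lam))) = Lam := by field_simp
  have hc' : ∀ i : Fin N, 0 ≤ (if (i : ℕ) < M then c else 0) := by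
    intro i
    split_ifs
    · exact hc
    · exact le_rfl
  constructor
  · have := mcd_upper f _ hc' hf hS hcS hlam.le
    rwa [e] at this
  · have := mcd_lower f _ hc' hf hS hcS hlam.le
    rwa [e] at this

open Classical in
theorem round_bad {k M B N j1 : ℕ} {U : Finset V}
    (hk : ∀ σ, (I σ).Nonempty → (I σ).card = k)
    (hU : ∀ σ, I σ ⊆ U) (C : Finset V) {D κ Nn θ L Lam : ℝ} {E : ℕ → ℝ} (hk1 : 1 ≤ k)
    (hD : 0 < D) (hN : 0 < Nn)
    (hκ0 : 0 < κ) (hκ1 : 12 * k * κ ≤ 1) (hθ0 : 0 < θ) (hθ1 : θ ≤ 1) (hM1 : M * k ≤ θ * Nn)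
    (hM2 : θ * Nn ≤ (M + 1) * k) (hMN : M ≤ N) (hE : ∀ j, 0 < E j)
    (hSt : St I U D κ Nn E (j1 + 1) C) (hj1 : 1 ≤ j1) (c1 : k * E 2 ≤ κ * D)
    (c2 : 2 * k ≤ κ * θ * Nn) (c3 : 4 * (k : ℝ) ^ 3 ≤ κ * Nn) (c4 : (1 - aC I C) ^ B ≤ κ)
    (hLam : 0 < Lam)
    (c5 : 2 * Lam * (M * (k * E 2) ^ 2) ≤ (κ * (D * Real.exp (-(θ * (k - 1))))) ^ 2)
    (c6 : ∀ j, 2 ≤ j → j ≤ j1 →
      2 * Lam * (M * (k * E (j + 1)) ^ 2) ≤ (E j * Real.exp (-(θ * k))) ^ 2)
    (c7 : 2 * Lam * (M * (k : ℝ) ^ 2) ≤ (κ * (Nn * Real.exp (-θ))) ^ 2)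
    (hL : ∀ j, j ≤ j1 → 1 + 2 * Real.exp (θ * j) ≤ L) :
    av (fun y : Fin N → Fin B → Ω => if ¬ St I U (D * Real.exp (-(θ * (k - 1)))) (20 * k * κ)
        (Nn * Real.exp (-θ)) (fun j => E j * (Real.exp (-(θ * k)) * L)) j1 (C ∪ unionW I M C y)
        then (1 : ℝ) else 0)
      ≤ (2 * (U.card : ℝ) + ((univ.filter fun J : Finset V => J.card ≤ j1).card : ℝ) + 2)
        * Real.exp (-Lam) := by
  obtain ⟨s1, s2, s3⟩ := hSt
  have hkr : (1 : ℝ) ≤ k := by exact_mod_cast hk1
  have hκk : κ ≤ k * κ := le_mul_of_one_le_left hκ0.le hkr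
  have hκs : κ ≤ 1 / 12 := by linarith only [hκk, hκ1]
  have hkc : ∀ σ, (I σ).card ≤ k := by
    intro σ
    by_cases h : (I σ).Nonempty
    · exact (hk σ h).le
    · rw [Finset.not_nonempty_iff_eq_empty.1 h]
      simp
  have hE2' : ∀ J : Finset V, J.card = 2 → eJ I C J ≤ E 2 := by
    intro J hJ
    have := s2 J (by omega) (by omega)
    rwa [hJ] at this
  have hbd := avoid_bounds I hk hU C (θ := θ) (M := M) (B := B) hk1 hD hN hκ0 hκ1 hθ0 hθ1 hM1 hM2
    s1 hE2' s3 c1 (hE 2).le c2 c3 c4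
  set q : ℝ := Real.exp (-(θ * (k - 1))) with hq
  set y0 : ℝ := Real.exp (-θ) with hy0
  set qk : ℝ := Real.exp (-(θ * k)) with hqk
  have hq0 : 0 < q := Real.exp_pos _
  have hy00 : 0 < y0 := Real.exp_pos _
  have hqk0 : 0 < qk := Real.exp_pos _
  have hkκ : 0 ≤ k * κ := by positivity
  have hkκ2 : 12 * k * κ * κ ≤ κ := by
    have := mul_le_mul_of_nonneg_right hκ1 hκ0.le
    linarith
  -- the vertices
  have hv : ∀ v ∈ U, av (fun y : Fin N → Fin B → Ω =>
      if ¬ |eJ I (C ∪ unionW I M C y) {v} - D * q| ≤ 20 * k * κ * (D * q) then (1 : ℝ) else 0)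
      ≤ 2 * Real.exp (-Lam) := by
    intro v hvU
    set f : (Fin N → Fin B → Ω) → ℝ := fun y => eJ I (C ∪ unionW I M C y) {v} with hf
    have hav : av f = _ := av_eJ I hMN C {v}
    have hlo : eJ I C {v} * (q * (1 - 6 * k * κ)) ≤ av f := by
      rw [hav]
      unfold eJ
      rw [← av_mul_right]
      refine av_mono fun σ => ?_
      by_cases h : ({v} : Finset V) ⊆ I σ ∧ Disjoint (I σ \ {v}) C
      · rw [if_pos h, if_pos h, one_mul]
        have hvI := Finset.singleton_subset_iff.1 h.1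
        have hc : (I σ \ {v}).card = k - 1 := by
          rw [Finset.card_sdiff_of_subset h.1, hk σ ⟨v, hvI⟩, Finset.card_singleton]
        have := (hbd (I σ \ {v}) (fun u hu => Finset.mem_sdiff.2
          ⟨hU σ (Finset.mem_sdiff.1 hu).1, (Finset.disjoint_left.1 h.2) hu⟩) (by omega)).1
        rw [hc, Nat.cast_sub hk1, Nat.cast_one] at this
        exact this
      · rw [if_neg h, if_neg h, zero_mul]
    have hup : av f ≤ eJ I C {v} * (q * (1 + 12 * k * κ)) := by
      rw [hav]
      unfold eJ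
      rw [← av_mul_right]
      refine av_mono fun σ => ?_
      by_cases h : ({v} : Finset V) ⊆ I σ ∧ Disjoint (I σ \ {v}) C
      · rw [if_pos h, if_pos h, one_mul]
        have hvI := Finset.singleton_subset_iff.1 h.1
        have hc : (I σ \ {v}).card = k - 1 := by
          rw [Finset.card_sdiff_of_subset h.1, hk σ ⟨v, hvI⟩, Finset.card_singleton]
        have := (hbd (I σ \ {v}) (fun u hu => Finset.mem_sdiff.2
          ⟨hU σ (Finset.mem_sdiff.1 hu).1, (Finset.disjoint_left.1 h.2) hu⟩) (by omega)).2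
        rw [hc, Nat.cast_sub hk1, Nat.cast_one] at this
        exact this
      · rw [if_neg h, if_neg h, zero_mul]
    have hs := s1 v hvU
    rw [abs_le] at hs
    have hDq : 0 < D * q := mul_pos hD hq0
    have hlo2 : (D * q) * (1 - 8 * (k * κ) + κ) ≤ av f := by
      refine le_trans ?_ hlo
      have e1 : (1 - κ) * D ≤ eJ I C {v} := by linarith [hs.1]
      have e2 : 0 ≤ 1 - 6 * k * κ := by linarith only [hκ1, hkκ]
      calc (D * q) * (1 - 8 * (k * κ) + κ) ≤ (D * q) * ((1 - κ) * (1 - 6 * k * κ)) := by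
            refine mul_le_mul_of_nonneg_left ?_ hDq.le
            linarith only [hκk, mul_nonneg hkκ hκ0.le]
        _ = ((1 - κ) * D) * (q * (1 - 6 * k * κ)) := by ring
        _ ≤ _ := mul_le_mul_of_nonneg_right e1 (mul_nonneg hq0.le e2)
    have hup2 : av f ≤ (D * q) * (1 + 15 * (k * κ) - κ) := by
      refine hup.trans ?_
      have e1 : eJ I C {v} ≤ (1 + κ) * D := by linarith [hs.2]
      calc eJ I C {v} * (q * (1 + 12 * k * κ)) ≤ ((1 + κ) * D) * (q * (1 + 12 * k * κ)) :=
            mul_le_mul_of_nonneg_right e1 (by positivity)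
        _ = (D * q) * ((1 + κ) * (1 + 12 * k * κ)) := by ring
        _ ≤ _ := by
            refine mul_le_mul_of_nonneg_left ?_ hDq.le
            linarith only [hκk, hkκ2]
    have hlam : 0 < κ * (D * q) := mul_pos hκ0 hDq
    obtain ⟨t1, t2⟩ := block_tail hMN f (c := k * E 2) (mul_nonneg (by linarith) (hE 2).le) hlam hLam
      c5 (fun i x y hxy => eJ_diff I hkc C {v} (hE 2).le (fun J' hJ' => hE2' J' (by
        rw [hJ', Finset.card_singleton])) i x y hxy)
    have h5 := (av_or (fun y : Fin N → Fin B → Ω => κ * (D * q) ≤ f y - av f)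
      (fun y => κ * (D * q) ≤ av f - f y)).trans (add_le_add t1 t2)
    refine le_trans (av_mono fun y => ?_) (h5.trans (le_of_eq (two_mul _).symm))
    by_cases hb : |eJ I (C ∪ unionW I M C y) {v} - D * q| ≤ 20 * k * κ * (D * q)
    · rw [if_neg (fun h => h hb)]
      split_ifs <;> norm_num
    · rw [if_pos hb, if_pos]
      by_contra hcon
      push Not at hcon
      apply hb
      change |f y - D * q| ≤ _
      have e3 : 0 ≤ (D * q) * (k * κ) := mul_nonneg hDq.le hkκ
      rw [abs_le]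
      constructor <;> linarith only [hcon.1, hcon.2, hlo2, hup2, e3]
  -- the sets of vertices
  have hJ : ∀ J : Finset V, 2 ≤ J.card → J.card ≤ j1 → av (fun y : Fin N → Fin B → Ω =>
      if ¬ eJ I (C ∪ unionW I M C y) J ≤ E J.card * (qk * L) then (1 : ℝ) else 0)
      ≤ Real.exp (-Lam) := by
    intro J hJ2 hJ1
    set f : (Fin N → Fin B → Ω) → ℝ := fun y => eJ I (C ∪ unionW I M C y) J with hf
    have hav : av f = _ := av_eJ I hMN C J
    have hJne : J.Nonempty := Finset.card_pos.1 (by omega)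
    have hup : av f ≤ eJ I C J * (qk * (2 * Real.exp (θ * J.card))) := by
      rw [hav]
      unfold eJ
      rw [← av_mul_right]
      refine av_mono fun σ => ?_
      by_cases h : J ⊆ I σ ∧ Disjoint (I σ \ J) C
      · rw [if_pos h, if_pos h, one_mul]
        have hIk := hk σ (hJne.mono h.1)
        have hc : (I σ \ J).card = k - J.card := by
          rw [Finset.card_sdiff_of_subset h.1, hIk]
        have hJk : J.card ≤ k := by
          rw [← hIk]
          exact Finset.card_le_card h.1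
        have := (hbd (I σ \ J) (fun u hu => Finset.mem_sdiff.2
          ⟨hU σ (Finset.mem_sdiff.1 hu).1, (Finset.disjoint_left.1 h.2) hu⟩) (by omega)).2
        rw [hc, Nat.cast_sub hJk] at this
        refine this.trans ?_
        calc Real.exp (-(θ * ((k : ℝ) - J.card))) * (1 + 12 * k * κ)
            ≤ Real.exp (-(θ * ((k : ℝ) - J.card))) * 2 :=
              mul_le_mul_of_nonneg_left (by linarith) (Real.exp_pos _).le
          _ = _ := by
              rw [hqk]
              have : Real.exp (-(θ * ((k : ℝ) - J.card)))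
                  = Real.exp (-(θ * k)) * Real.exp (θ * J.card) := by
                rw [← Real.exp_add]
                congr 1
                ring
              rw [this]
              ring
      · rw [if_neg h, if_neg h, zero_mul]
    have hup2 : av f ≤ E J.card * (qk * (2 * Real.exp (θ * J.card))) :=
      hup.trans (mul_le_mul_of_nonneg_right (s2 J hJ2 (by omega)) (by positivity))
    have hlam : 0 < E J.card * qk := mul_pos (hE _) hqk0
    obtain ⟨t1, _⟩ := block_tail hMN f (c := k * E (J.card + 1))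
      (mul_nonneg (by linarith) (hE _).le) hlam hLam
      (c6 J.card hJ2 hJ1) (fun i x y hxy => eJ_diff I hkc C J (hE _).le (fun J' hJ' => by
        have := s2 J' (by omega) (by omega)
        rwa [hJ'] at this) i x y hxy)
    refine le_trans (av_mono fun y => ?_) t1
    by_cases hb : eJ I (C ∪ unionW I M C y) J ≤ E J.card * (qk * L)
    · rw [if_neg (fun h => h hb)]
      split_ifs <;> norm_num
    · rw [if_pos hb, if_pos]
      by_contra hcon
      push Not at hcon
      apply hb
      change f y ≤ _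
      have h6 := hL J.card hJ1
      have h7 : E J.card * (qk * (1 + 2 * Real.exp (θ * J.card))) ≤ E J.card * (qk * L) :=
        mul_le_mul_of_nonneg_left (mul_le_mul_of_nonneg_left h6 hqk0.le) (hE _).le
      have h8 : E J.card * (qk * (1 + 2 * Real.exp (θ * J.card)))
          = E J.card * qk + E J.card * (qk * (2 * Real.exp (θ * J.card))) := by ring
      linarith
  -- the remaining vertices
  have hleft : av (fun y : Fin N → Fin B → Ω =>
      if ¬ |((U \ (C ∪ unionW I M C y)).card : ℝ) - Nn * y0| ≤ 20 * k * κ * (Nn * y0)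
        then (1 : ℝ) else 0) ≤ 2 * Real.exp (-Lam) := by
    set f : (Fin N → Fin B → Ω) → ℝ := fun y => ((U \ (C ∪ unionW I M C y)).card : ℝ) with hf
    have hav : av f = _ := av_left I hMN C U
    have hsing : ∀ v ∈ U \ C, y0 * (1 - 6 * k * κ) ≤ (1 - pickHit I B C {v}) ^ M ∧
        (1 - pickHit I B C {v}) ^ M ≤ y0 * (1 + 12 * k * κ) := by
      intro v hv
      have := hbd {v} (Finset.singleton_subset_iff.2 hv) (by rw [Finset.card_singleton]; omega)
      rw [Finset.card_singleton, Nat.cast_one, mul_one] at this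
      exact this
    rw [abs_le] at s3
    have hNy : 0 < Nn * y0 := mul_pos hN hy00
    have hlo2 : (Nn * y0) * (1 - 8 * (k * κ) + κ) ≤ av f := by
      rw [hav]
      have e2 : 0 ≤ 1 - 6 * k * κ := by linarith only [hκ1, hkκ]
      calc (Nn * y0) * (1 - 8 * (k * κ) + κ) ≤ (Nn * y0) * ((1 - κ) * (1 - 6 * k * κ)) := by
            refine mul_le_mul_of_nonneg_left ?_ hNy.le
            linarith only [hκk, mul_nonneg hkκ hκ0.le]
        _ = ((1 - κ) * Nn) * (y0 * (1 - 6 * k * κ)) := by ring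
        _ ≤ ((U \ C).card : ℝ) * (y0 * (1 - 6 * k * κ)) := by
            refine mul_le_mul_of_nonneg_right ?_ (mul_nonneg hy00.le e2)
            linarith [s3.1]
        _ = ∑ _v ∈ U \ C, y0 * (1 - 6 * k * κ) := by rw [Finset.sum_const, nsmul_eq_mul]
        _ ≤ _ := Finset.sum_le_sum fun v hv => (hsing v hv).1
    have hup2 : av f ≤ (Nn * y0) * (1 + 15 * (k * κ) - κ) := by
      rw [hav]
      calc ∑ v ∈ U \ C, (1 - pickHit I B C {v}) ^ M
          ≤ ∑ _v ∈ U \ C, y0 * (1 + 12 * k * κ) := Finset.sum_le_sum fun v hv => (hsing v hv).2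
        _ = ((U \ C).card : ℝ) * (y0 * (1 + 12 * k * κ)) := by rw [Finset.sum_const, nsmul_eq_mul]
        _ ≤ ((1 + κ) * Nn) * (y0 * (1 + 12 * k * κ)) := by
            refine mul_le_mul_of_nonneg_right ?_ (by positivity)
            linarith [s3.2]
        _ = (Nn * y0) * ((1 + κ) * (1 + 12 * k * κ)) := by ring
        _ ≤ _ := by
            refine mul_le_mul_of_nonneg_left ?_ hNy.le
            linarith only [hκk, hkκ2]
    have hlam : 0 < κ * (Nn * y0) := mul_pos hκ0 hNy
    obtain ⟨t1, t2⟩ := block_tail hMN f (c := (k : ℝ)) (by linarith) hlam hLam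
      c7 (fun i x y hxy => left_diff I hkc C U i x y hxy)
    have h5 := (av_or (fun y : Fin N → Fin B → Ω => κ * (Nn * y0) ≤ f y - av f)
      (fun y => κ * (Nn * y0) ≤ av f - f y)).trans (add_le_add t1 t2)
    refine le_trans (av_mono fun y => ?_) (h5.trans (le_of_eq (two_mul _).symm))
    by_cases hb : |((U \ (C ∪ unionW I M C y)).card : ℝ) - Nn * y0| ≤ 20 * k * κ * (Nn * y0)
    · rw [if_neg (fun h => h hb)]
      split_ifs <;> norm_num
    · rw [if_pos hb, if_pos]
      by_contra hcon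
      push Not at hcon
      apply hb
      change |f y - Nn * y0| ≤ _
      have e3 : 0 ≤ (Nn * y0) * (k * κ) := mul_nonneg hNy.le hkκ
      rw [abs_le]
      constructor <;> linarith only [hcon.1, hcon.2, hlo2, hup2, e3]
  -- union bound
  set FJ : Finset (Finset V) := univ.filter fun J : Finset V => J.card ≤ j1 with hFJ
  have key : ∀ y : Fin N → Fin B → Ω, (if ¬ St I U (D * q) (20 * k * κ)
        (Nn * y0) (fun j => E j * (qk * L)) j1 (C ∪ unionW I M C y)
        then (1 : ℝ) else 0)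
      ≤ (∑ v ∈ U, if ¬ |eJ I (C ∪ unionW I M C y) {v} - D * q| ≤ 20 * k * κ * (D * q)
          then (1 : ℝ) else 0)
        + (∑ J ∈ FJ, if 2 ≤ J.card then (if ¬ eJ I (C ∪ unionW I M C y) J ≤ E J.card * (qk * L)
          then (1 : ℝ) else 0) else 0)
        + (if ¬ |((U \ (C ∪ unionW I M C y)).card : ℝ) - Nn * y0| ≤ 20 * k * κ * (Nn * y0)
          then (1 : ℝ) else 0) := by
    intro y
    have n1 : 0 ≤ (∑ v ∈ U, if ¬ |eJ I (C ∪ unionW I M C y) {v} - D * q| ≤ 20 * k * κ * (D * q)
          then (1 : ℝ) else 0) := Finset.sum_nonneg fun _ _ => by split_ifs <;> norm_num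
    have n2 : 0 ≤ (∑ J ∈ FJ, if 2 ≤ J.card then
          (if ¬ eJ I (C ∪ unionW I M C y) J ≤ E J.card * (qk * L)
          then (1 : ℝ) else 0) else 0) := Finset.sum_nonneg fun _ _ => by split_ifs <;> norm_num
    have n3 : 0 ≤ (if ¬ |((U \ (C ∪ unionW I M C y)).card : ℝ) - Nn * y0|
        ≤ 20 * k * κ * (Nn * y0) then (1 : ℝ) else 0) := by split_ifs <;> norm_num
    split_ifs with hst hl hl
    · linarith
    · linarith
    · -- not St, but the last condition holds
      by_cases hvv : ∀ v ∈ U, |eJ I (C ∪ unionW I M C y) {v} - D * q| ≤ 20 * k * κ * (D * q)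
      · have : ∃ J : Finset V, 2 ≤ J.card ∧ J.card ≤ j1 ∧
            ¬ eJ I (C ∪ unionW I M C y) J ≤ E J.card * (qk * L) := by
          by_contra hcon
          push Not at hcon
          apply hst
          exact ⟨hvv, hcon, hl⟩
        obtain ⟨J, hJ2, hJ1, hbad⟩ := this
        have h9 := Finset.single_le_sum (f := fun J : Finset V => if 2 ≤ J.card then
          (if ¬ eJ I (C ∪ unionW I M C y) J ≤ E J.card * (qk * L)
          then (1 : ℝ) else 0) else 0) (fun _ _ => by split_ifs <;> norm_num)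
          (show J ∈ FJ from Finset.mem_filter.2 ⟨Finset.mem_univ _, hJ1⟩)
        rw [if_pos hJ2, if_pos hbad] at h9
        linarith
      · push Not at hvv
        obtain ⟨v, hvU, hbad⟩ := hvv
        have h9 := Finset.single_le_sum (f := fun v : V =>
          if ¬ |eJ I (C ∪ unionW I M C y) {v} - D * q| ≤ 20 * k * κ * (D * q)
          then (1 : ℝ) else 0) (fun _ _ => by split_ifs <;> norm_num) hvU
        rw [if_pos (not_le.2 hbad)] at h9
        linarith
    · linarith
  refine (av_mono key).trans ?_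
  rw [av_add, av_add, av_sum, av_sum]
  have b1 : ∑ v ∈ U, av (fun y : Fin N → Fin B → Ω =>
      if ¬ |eJ I (C ∪ unionW I M C y) {v} - D * q| ≤ 20 * k * κ * (D * q) then (1 : ℝ) else 0)
      ≤ (U.card : ℝ) * (2 * Real.exp (-Lam)) := by
    rw [← nsmul_eq_mul]
    exact Finset.sum_le_card_nsmul _ _ _ hv
  have b2 : ∑ J ∈ FJ, av (fun y : Fin N → Fin B → Ω => if 2 ≤ J.card then
      (if ¬ eJ I (C ∪ unionW I M C y) J ≤ E J.card * (qk * L) then (1 : ℝ) else 0) else 0)
      ≤ (FJ.card : ℝ) * Real.exp (-Lam) := by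
    rw [← nsmul_eq_mul]
    refine Finset.sum_le_card_nsmul _ _ _ fun J hJF => ?_
    by_cases h2 : 2 ≤ J.card
    · simp only [if_pos h2]
      exact hJ J h2 (Finset.mem_filter.1 hJF).2
    · simp only [if_neg h2]
      rw [av_const]
      exact (Real.exp_pos _).le
  have := add_le_add (add_le_add b1 b2) hleft
  refine this.trans (le_of_eq ?_)
  ring

end Pool.Agent.H72.KarpS
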