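import Pool.Agent.H72.KarpS.Round
import Pool.Agent.H72.Karp.Final

/-!
The rounds of the procedure: the classes are independent and disjoint, there are few of them, and
the probability that the state gets bad.
-/

set_option autoImplicit false
set_option linter.unusedSectionVars false

namespace Pool.Agent.H72.KarpS

open Finset Pool.Agent.H85.Online Pool.Agent.H72.Karp

variable {n m g : ℕ} (A : SetAlg)

theorem mem_trim {k : ℕ} {O : Finset (Fin m)} {v : Fin m} (h : v ∈ trim k O) : v ∈ O := by
  unfold trim at h
  rw [List.mem_toFinset] at h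
  have := List.mem_of_mem_take h
  rwa [Finset.mem_sort] at this

theorem trim_subset (k : ℕ) (O : Finset (Fin m)) : trim k O ⊆ O := fun _ h => mem_trim h

theorem card_trim {k : ℕ} {O : Finset (Fin m)} (h : k ≤ O.card) : (trim k O).card = k := by
  unfold trim
  rw [List.toFinset_card_of_nodup, List.length_take, Finset.length_sort, min_eq_left h]
  exact List.Nodup.sublist (List.take_sublist _ _) (Finset.sort_nodup _ _)

theorem indep_mono {V : Type*} {G : SimpleGraph V} {I J : Finset V} (h : I ⊆ J)
    (hJ : Indep G J) : Indep G I := fun u hu v hv => hJ u (h hu) v (h hv)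

theorem found_indep (h : m * g ≤ n) (k : ℕ) (G : SimpleGraph (Fin n))
    (σ : Sample m g (A.seeds m)) : Indep G (found A h k G σ) := by
  unfold found
  split_ifs with hc
  · rw [indep_map]
    exact indep_mono (trim_subset _ _) hc.1
  · intro u hu
    simp at hu

theorem found_card (h : m * g ≤ n) (k : ℕ) (G : SimpleGraph (Fin n))
    (σ : Sample m g (A.seeds m)) (hne : (found A h k G σ).Nonempty) :
    (found A h k G σ).card = k := by
  unfold found at hne ⊢
  split_ifs at hne ⊢ with hc
  · rw [Finset.card_map, card_trim hc.2]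
  · simp at hne

/-- the vertices in the groups -/
def inGroups (n m g : ℕ) : Finset (Fin n) := univ.filter fun v => (v : ℕ) < m * g

theorem found_subset (h : m * g ≤ n) (k : ℕ) (G : SimpleGraph (Fin n))
    (σ : Sample m g (A.seeds m)) : found A h k G σ ⊆ inGroups n m g := by
  unfold found
  split_ifs with hc
  · intro v hv
    obtain ⟨u, _, rfl⟩ := Finset.mem_map.1 hv
    unfold inGroups
    rw [Finset.mem_filter]
    refine ⟨Finset.mem_univ _, ?_⟩
    change ((σ.1 u : Fin m) : ℕ) * g + (σ.2.1 (σ.1 u) : ℕ) < m * g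
    have h1 := (σ.1 u).isLt
    have h2 := (σ.2.1 (σ.1 u)).isLt
    calc ((σ.1 u : Fin m) : ℕ) * g + (σ.2.1 (σ.1 u) : ℕ)
        < ((σ.1 u : Fin m) : ℕ) * g + g := by omega
      _ = (((σ.1 u : Fin m) : ℕ) + 1) * g := by ring
      _ ≤ m * g := Nat.mul_le_mul_right _ h1
  · simp

/-- adding sets one after the other -/
theorem mem_covered_fold (l : List (Finset (Fin n))) : ∀ (L : List (Finset (Fin n))) (v : Fin n),
    v ∈ covered (l.foldl (fun L' I => (I \ covered L') :: L') L)
      ↔ v ∈ covered L ∨ ∃ I ∈ l, v ∈ I := by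
  induction l with
  | nil => intro L v; simp
  | cons I l ih =>
    intro L v
    rw [List.foldl_cons, ih, covered_cons, Finset.mem_union, Finset.mem_sdiff]
    simp only [List.mem_cons, exists_eq_or_imp]
    tauto

theorem fold_ok (G : SimpleGraph (Fin n)) (l : List (Finset (Fin n))) (hl : ∀ I ∈ l, Indep G I) :
    ∀ L : List (Finset (Fin n)), ((∀ I ∈ L, Indep G I) ∧ L.Pairwise Disjoint) →
      ((∀ I ∈ l.foldl (fun L' I => (I \ covered L') :: L') L, Indep G I) ∧
        (l.foldl (fun L' I => (I \ covered L') :: L') L).Pairwise Disjoint) := by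
  induction l with
  | nil => exact fun L hL => hL
  | cons I l ih =>
    intro L hL
    rw [List.foldl_cons]
    apply ih (fun J hJ => hl J (List.mem_cons_of_mem _ hJ))
    refine ⟨?_, ?_⟩
    · intro J hJ
      rcases List.mem_cons.1 hJ with rfl | hJ
      · exact indep_mono Finset.sdiff_subset (hl I List.mem_cons_self)
      · exact hL.1 J hJ
    · refine List.pairwise_cons.2 ⟨?_, hL.2⟩
      intro J hJ
      rw [Finset.disjoint_left]
      intro v hv hvJ
      exact (Finset.mem_sdiff.1 hv).2 (mem_covered.2 ⟨J, hJ, hvJ⟩)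

theorem fold_length (l : List (Finset (Fin n))) : ∀ L : List (Finset (Fin n)),
    (l.foldl (fun L' I => (I \ covered L') :: L') L).length = L.length + l.length := by
  induction l with
  | nil => intro L; simp
  | cons I l ih =>
    intro L
    rw [List.foldl_cons, ih, List.length_cons, List.length_cons]
    ring

theorem firstNew_indep (G : SimpleGraph (Fin n)) (C : Finset (Fin n)) (l : List (Finset (Fin n)))
    (hl : ∀ I ∈ l, Indep G I) : Indep G (firstNew C l) := by
  rcases firstNew_cases C l with h | h
  · rw [h]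
    intro u hu
    simp at hu
  · exact hl _ h.1

theorem round_ok (h : m * g ≤ n) (k M : ℕ) (G : SimpleGraph (Fin n)) {N B : ℕ}
    (L : List (Finset (Fin n))) (y : Fin N → Fin B → Sample m g (A.seeds m))
    (hL : (∀ I ∈ L, Indep G I) ∧ L.Pairwise Disjoint) :
    (∀ I ∈ roundStep A h k M G L y, Indep G I) ∧ (roundStep A h k M G L y).Pairwise Disjoint := by
  unfold roundStep
  refine fold_ok G _ ?_ L hL
  intro I hI
  have h1 := List.mem_of_mem_take hI
  obtain ⟨i, rfl⟩ := (List.mem_ofFn' _ _).1 h1
  refine firstNew_indep G _ _ ?_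
  intro J hJ
  obtain ⟨j, rfl⟩ := (List.mem_ofFn' _ _).1 hJ
  exact found_indep A h k G _

theorem round_length (h : m * g ≤ n) (k M : ℕ) (G : SimpleGraph (Fin n)) {N B : ℕ}
    (L : List (Finset (Fin n))) (y : Fin N → Fin B → Sample m g (A.seeds m)) :
    (roundStep A h k M G L y).length ≤ L.length + M := by
  unfold roundStep
  rw [fold_length, List.length_take]
  have := min_le_left M (List.ofFn fun i => firstNew (covered L)
    (List.ofFn fun j => found A h k G (y i j))).length
  omega

theorem round_covered (h : m * g ≤ n) (k M : ℕ) (G : SimpleGraph (Fin n)) {N B : ℕ}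
    (L : List (Finset (Fin n))) (y : Fin N → Fin B → Sample m g (A.seeds m)) :
    covered (roundStep A h k M G L y)
      = covered L ∪ unionW (found A h k G) M (covered L) y := by
  ext v
  unfold roundStep
  rw [mem_covered_fold, Finset.mem_union]
  refine or_congr Iff.rfl ?_
  unfold unionW
  rw [Finset.mem_biUnion]
  constructor
  · rintro ⟨I, hI, hv⟩
    rw [List.mem_take_iff_getElem] at hI
    obtain ⟨i, hi, rfl⟩ := hI
    rw [List.length_ofFn] at hi
    have hiM : i < M := lt_of_lt_of_le hi (min_le_left _ _)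
    have hiN : i < N := lt_of_lt_of_le hi (min_le_right _ _)
    refine ⟨⟨i, hiN⟩, Finset.mem_filter.2 ⟨Finset.mem_univ _, hiM⟩, ?_⟩
    rw [List.getElem_ofFn] at hv
    exact hv
  · rintro ⟨i, hi, hv⟩
    have hiM := (Finset.mem_filter.1 hi).2
    refine ⟨_, ?_, hv⟩
    rw [List.mem_take_iff_getElem]
    refine ⟨i, ?_, ?_⟩
    · rw [List.length_ofFn]
      exact lt_min hiM i.isLt
    · rw [List.getElem_ofFn]

theorem rounds_ok (h : m * g ≤ n) (k : ℕ) (θ : ℝ) (G : SimpleGraph (Fin n)) {N B : ℕ}
    (ys : List (Fin N → Fin B → Sample m g (A.seeds m))) :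
    ∀ (r : ℕ) (L : List (Finset (Fin n))), ((∀ I ∈ L, Indep G I) ∧ L.Pairwise Disjoint) →
    (∀ I ∈ rounds A h k θ G r L ys, Indep G I) ∧ (rounds A h k θ G r L ys).Pairwise Disjoint := by
  induction ys with
  | nil => exact fun r L hL => hL
  | cons y ys ih =>
    intro r L hL
    exact ih (r + 1) _ (round_ok A h k _ G L y hL)

theorem rounds_length (h : m * g ≤ n) (k : ℕ) (θ : ℝ) (G : SimpleGraph (Fin n)) {N B : ℕ}
    (ys : List (Fin N → Fin B → Sample m g (A.seeds m))) :
    ∀ (r : ℕ) (L : List (Finset (Fin n))),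
    (rounds A h k θ G r L ys).length
      ≤ L.length + ∑ i ∈ Finset.range ys.length, msize θ k n (r + i) := by
  induction ys with
  | nil => intro r L; simp [rounds]
  | cons y ys ih =>
    intro r L
    have h1 := ih (r + 1) (roundStep A h k (msize θ k n r) G L y)
    have h2 := round_length A h k (msize θ k n r) G L y
    rw [List.length_cons, Finset.sum_range_succ']
    have e : ∑ i ∈ Finset.range ys.length, msize θ k n (r + 1 + i)
        = ∑ i ∈ Finset.range ys.length, msize θ k n (r + (i + 1)) :=
      Finset.sum_congr rfl fun i _ => by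
        congr 1
        ring
    change (rounds A h k θ G (r + 1) (roundStep A h k (msize θ k n r) G L y) ys).length ≤ _
    rw [e] at h1
    simp only [add_zero]
    omega

/-- the procedure always returns a colouring -/
theorem colouringS_ok (p ε γ θ : ℝ) (R K n : ℕ) (G : SimpleGraph (Fin n))
    (ω : Seeds A γ R K n) : IsColouring G (colouringS A p ε γ θ R K n G ω) := by
  unfold colouringS
  set L := rounds A (ord_mul_grp γ n) (ksize p ε γ n) θ G 0 [] (List.ofFn ω) with hL
  obtain ⟨h1, h2⟩ := rounds_ok A (ord_mul_grp γ n) (ksize p ε γ n) θ G (List.ofFn ω) 0 []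
    (by simp)
  rw [← hL] at h1 h2
  obtain ⟨p1, p2, p3, p4⟩ := peel_spec G (Finset.univ \ covered L)
  refine ⟨?_, ?_, ?_⟩
  · intro I hI
    rcases List.mem_append.1 hI with hI | hI
    · exact p1 I hI
    · exact h1 I hI
  · refine List.pairwise_append.2 ⟨p2, h2, ?_⟩
    intro I hI J hJ
    rw [Finset.disjoint_left]
    intro v hv hvJ
    exact (Finset.mem_sdiff.1 (p3 I hI hv)).2 (mem_covered.2 ⟨J, hJ, hvJ⟩)
  · intro v
    by_cases hv : v ∈ covered L
    · obtain ⟨I, hI, hvI⟩ := mem_covered.1 hv
      exact ⟨I, List.mem_append_right _ hI, hvI⟩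
    · obtain ⟨I, hI, hvI⟩ := p4 v (Finset.mem_sdiff.2 ⟨Finset.mem_univ _, hv⟩)
      exact ⟨I, List.mem_append_left _ hI, hvI⟩

open Classical in
/-- The probability that the last state is bad. -/
theorem rounds_fail (h : m * g ≤ n) (k : ℕ) (θ : ℝ) (G : SimpleGraph (Fin n)) {N B R : ℕ}
    [Nonempty (Sample m g (A.seeds m))]
    (S : ℕ → Finset (Fin n) → Prop) {ξ : ℝ} (hξ : 0 ≤ ξ)
    (hstep : ∀ r < R, ∀ C : Finset (Fin n), S r C →
      av (fun y : Fin N → Fin B → Sample m g (A.seeds m) =>
        if ¬ S (r + 1) (C ∪ unionW (found A h k G) (msize θ k n r) C y) then (1 : ℝ) else 0) ≤ ξ)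
    (q : ℕ) : ∀ (r : ℕ) (L : List (Finset (Fin n))), r + q = R → S r (covered L) →
      av (fun ω : Fin q → Fin N → Fin B → Sample m g (A.seeds m) =>
        if ¬ S R (covered (rounds A h k θ G r L (List.ofFn ω))) then (1 : ℝ) else 0) ≤ q * ξ := by
  induction q with
  | zero =>
    intro r L hr hS
    rw [av_pi_zero _ (fun i => i.elim0)]
    rw [List.ofFn_zero]
    have : r = R := by omega
    subst this
    rw [if_neg]
    · simp
    · exact fun h' => h' hS
  | succ q ih =>
    intro r L hr hS
    rw [av_cons]
    have h1 : ∀ y : Fin N → Fin B → Sample m g (A.seeds m),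
        av (fun ω : Fin q → Fin N → Fin B → Sample m g (A.seeds m) =>
          if ¬ S R (covered (rounds A h k θ G r L (List.ofFn (Fin.cons y ω :
            Fin (q + 1) → Fin N → Fin B → Sample m g (A.seeds m))))) then (1 : ℝ) else 0)
        ≤ (if ¬ S (r + 1) (covered L ∪ unionW (found A h k G) (msize θ k n r) (covered L) y)
            then (1 : ℝ) else 0) + q * ξ := by
      intro y
      have e : ∀ ω : Fin q → Fin N → Fin B → Sample m g (A.seeds m),
          rounds A h k θ G r L (List.ofFn (Fin.cons y ω :
            Fin (q + 1) → Fin N → Fin B → Sample m g (A.seeds m)))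
          = rounds A h k θ G (r + 1) (roundStep A h k (msize θ k n r) G L y) (List.ofFn ω) := by
        intro ω
        rw [List.ofFn_succ]
        simp only [Fin.cons_zero, Fin.cons_succ]
        rfl
      simp only [e]
      by_cases hs : S (r + 1) (covered L ∪ unionW (found A h k G) (msize θ k n r) (covered L) y)
      · rw [if_neg (fun h' => h' hs), zero_add]
        refine ih (r + 1) _ (by omega) ?_
        rw [round_covered]
        exact hs
      · rw [if_pos hs]
        have h3 : av (fun ω : Fin q → Fin N → Fin B → Sample m g (A.seeds m) =>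
            if ¬ S R (covered (rounds A h k θ G (r + 1) (roundStep A h k (msize θ k n r) G L y)
              (List.ofFn ω))) then (1 : ℝ) else 0) ≤ 1 :=
          av_le_const fun x => by split_ifs <;> norm_num
        have : 0 ≤ (q : ℝ) * ξ := by positivity
        linarith
    refine (av_mono h1).trans ?_
    rw [av_add, av_const]
    have h2 := hstep r (by omega) (covered L) hS
    push_cast
    linarith

/-- the parameters: the mean mass of a vertex -/
noncomputable def D0 (ps : ℝ) (k m g : ℕ) : ℝ := ps * k / (m * g)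

/-- the parameters: the bound for the mass of a set of `j` vertices -/
noncomputable def E0 (ps : ℝ) (n j : ℕ) : ℝ := ps * (n : ℝ) ^ (1 / 16 : ℝ) / (n : ℝ) ^ j

end Pool.Agent.H72.KarpS
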