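import Pool.Agent.H72.KarpS.Rounds

/-!
The numerical conditions for the rounds.
-/

set_option autoImplicit false
set_option linter.unusedSectionVars false

namespace Pool.Agent.H72.KarpS

open Finset Pool.Agent.H85.Online Pool.Agent.H72.Karp Filter

variable {n m g : ℕ}

/-- the state before the round number `r` -/
def StR (A : SetAlg) (h : m * g ≤ n) (k R : ℕ) (G : SimpleGraph (Fin n)) (ps w θ L : ℝ) (r : ℕ)
    (C : Finset (Fin n)) : Prop :=
  St (found A h k G) (inGroups n m g) (D0 ps k m g * Real.exp (-(θ * (k - 1))) ^ r)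
    (w * (20 * k) ^ r) (n * Real.exp (-θ) ^ r)
    (fun j => E0 ps n j * (Real.exp (-(θ * k)) * L) ^ r) (R + 2 - r) C

open Classical in
theorem step_ok (A : SetAlg) (h : m * g ≤ n) (k R K : ℕ) (G : SimpleGraph (Fin n))
    [Nonempty (Sample m g (A.seeds m))] {ps w θ L x c : ℝ}
    (hx : (n : ℝ) = x ^ 16) (hx1 : 1 ≤ x) (hx2 : (n : ℝ) ^ (1 / 16 : ℝ) = x) (hn4 : 4 ≤ n)
    (hmg : 0 < m * g)
    (hps : 0 < ps) (hpsc : (n : ℝ) ^ (-c) ≤ ps) (hK : c + R + 2 ≤ K)
    (hk1 : 1 ≤ k) (hθ0 : 0 < θ) (hθ1 : θ ≤ 1) (hw1 : 1 / x ≤ w)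
    (hP1 : (20 * (k : ℝ)) ^ (R + 1) * w ≤ 1)
    (hL1 : ∀ j : ℕ, j ≤ R + 2 → 1 + 2 * Real.exp (θ * j) ≤ L) (hL2 : 2 * L ^ (2 * R) ≤ x)
    (hqx : 1 / x ≤ Real.exp (-(θ * k)))
    (hc2 : 2 * (k : ℝ) ≤ θ * Real.exp (-θ) ^ R * x)
    (hc3 : 4 * (k : ℝ) ^ 3 ≤ Real.exp (-θ) ^ R * x) (hc6 : 2 * (k : ℝ) ^ 2 ≤ x)
    (hc7 : 2 * (k : ℝ) ^ 2 ≤ (Real.exp (-θ) ^ R) ^ 2 * x)
    (r : ℕ) (hr : r < R) (C : Finset (Fin n)) (hS : StR A h k R G ps w θ L r C) :
    av (fun y : Fin n → Fin (n ^ K) → Sample m g (A.seeds m) =>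
      if ¬ StR A h k R G ps w θ L (r + 1) (C ∪ unionW (found A h k G) (msize θ k n r) C y)
        then (1 : ℝ) else 0)
      ≤ (2 * ((inGroups n m g).card : ℝ)
          + ((univ.filter fun J : Finset (Fin n) => J.card ≤ R + 1 - r).card : ℝ) + 2)
        * Real.exp (-(x ^ 4)) := by
  have hx0 : 0 < x := by linarith
  have hnr : (0 : ℝ) < n := by
    have : 0 < n := by omega
    exact_mod_cast this
  have hkr : (1 : ℝ) ≤ k := by exact_mod_cast hk1
  have hw0 : 0 < w := lt_of_lt_of_le (by positivity) hw1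
  have hmgr : (0 : ℝ) < (m : ℝ) * g := by exact_mod_cast hmg
  have hmgn : (m : ℝ) * g ≤ n := by exact_mod_cast h
  set q : ℝ := Real.exp (-(θ * (k - 1))) with hq
  set y0 : ℝ := Real.exp (-θ) with hy0
  set qk : ℝ := Real.exp (-(θ * k)) with hqk
  have hq0 : 0 < q := Real.exp_pos _
  have hy00 : 0 < y0 := Real.exp_pos _
  have hqk0 : 0 < qk := Real.exp_pos _
  have hy01 : y0 ≤ 1 := Real.exp_le_one_iff.2 (by linarith)
  have hqkq : qk ≤ q := by
    refine Real.exp_le_exp.2 ?_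
    have e : θ * ((k : ℝ) - 1) = θ * k - θ := by ring
    rw [e]
    linarith only [hθ0]
  have hqk1 : qk ≤ 1 := Real.exp_le_one_iff.2 (by
    have : 0 ≤ θ * k := by positivity
    linarith)
  have hyq : y0 * q = qk := by
    rw [hy0, hq, hqk, ← Real.exp_add]
    congr 1
    ring
  have hLpos : 1 ≤ L := by
    have h1 := hL1 0 (by omega)
    have := Real.exp_pos (θ * ((0 : ℕ) : ℝ))
    linarith
  have hLr : L ^ r ≤ L ^ R := pow_le_pow_right₀ hLpos hr.le
  have hLR1 : 1 ≤ L ^ R := one_le_pow₀ hLpos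
  have hLR : L ^ R ≤ x := by
    have e : L ^ (2 * R) = L ^ R * L ^ R := by
      rw [two_mul, pow_add]
    rw [e] at hL2
    have h1 : L ^ R * 1 ≤ L ^ R * L ^ R := mul_le_mul_of_nonneg_left hLR1 (by linarith only [hLR1])
    linarith only [h1, hL2, hLR1]
  have hyR : y0 ^ R ≤ y0 ^ r := pow_le_pow_of_le_one hy00.le hy01 hr.le
  have hyR0 : 0 < y0 ^ R := by positivity
  have h20 : (1 : ℝ) ≤ 20 * k := by linarith
  -- the current values
  set κ : ℝ := w * (20 * k) ^ r with hκ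
  have hκw : w ≤ κ := by
    rw [hκ]
    have : (1 : ℝ) ≤ (20 * k) ^ r := one_le_pow₀ h20
    exact le_mul_of_one_le_right hw0.le this
  have hκ0 : 0 < κ := by linarith
  have hκk : 12 * k * κ ≤ 1 := by
    have h1 : (20 * (k : ℝ)) ^ r ≤ (20 * k) ^ R := pow_le_pow_right₀ h20 hr.le
    calc 12 * k * κ = (12 * k * (20 * (k : ℝ)) ^ r) * w := by rw [hκ]; ring
      _ ≤ (20 * k * (20 * (k : ℝ)) ^ R) * w := by gcongr; norm_num
      _ = (20 * (k : ℝ)) ^ (R + 1) * w := by rw [pow_succ]; ring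
      _ ≤ 1 := hP1
  set D : ℝ := D0 ps k m g * q ^ r with hD
  have hD0pos : 0 < D0 ps k m g := by
    unfold D0
    have : (0 : ℝ) < k := by linarith
    positivity
  have hDpos : 0 < D := by positivity
  have hD0ge : ps * k / n ≤ D0 ps k m g := by
    unfold D0
    exact div_le_div_of_nonneg_left (by positivity) hmgr hmgn
  have hDge : ps * k / n * qk ^ r ≤ D := by
    rw [hD]
    have : qk ^ r ≤ q ^ r := pow_le_pow_left₀ hqk0.le hqkq r
    gcongr
  set Nn : ℝ := n * y0 ^ r with hNn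
  have hNpos : 0 < Nn := by positivity
  have hNge : n * y0 ^ R ≤ Nn := by
    rw [hNn]
    gcongr
  set E : ℕ → ℝ := fun j => E0 ps n j * (qk * L) ^ r with hE
  have hL0 : 0 < L := by linarith
  have hEpos : ∀ j, 0 < E j := by
    intro j
    simp only [hE]
    unfold E0
    positivity
  have hE2 : E 2 ≤ ps * x / (n : ℝ) ^ 2 * (qk ^ r * L ^ R) := by
    simp only [hE]
    unfold E0
    rw [hx2, mul_pow]
    gcongr
  have hEs : ∀ j, E (j + 1) = E j / n := by
    intro j
    simp only [hE]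
    unfold E0
    rw [pow_succ (n : ℝ) j]
    field_simp
  have hnx : (n : ℝ) * w ≥ x ^ 15 := by
    calc (n : ℝ) * w ≥ n * (1 / x) := mul_le_mul_of_nonneg_left hw1 hnr.le
      _ = x ^ 15 := by
          rw [hx]
          field_simp
  have hx15 : x ≤ x ^ 15 := by
    calc x = x ^ 1 := (pow_one x).symm
      _ ≤ x ^ 15 := pow_le_pow_right₀ hx1 (by norm_num)
  -- the number of the sets
  set M := msize θ k n r with hM
  have hkpos : (0 : ℝ) < k := by linarith
  have hMle : (M : ℝ) ≤ θ * Nn / k := Nat.floor_le (by positivity)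
  have hMlt : θ * Nn / k < M + 1 := Nat.lt_floor_add_one _
  have hM1 : (M : ℝ) * k ≤ θ * Nn := by
    rwa [le_div_iff₀ hkpos] at hMle
  have hM2 : θ * Nn ≤ (M + 1) * k := by
    rw [div_lt_iff₀ hkpos] at hMlt
    exact hMlt.le
  have hNle : Nn ≤ n := by
    rw [hNn]
    have : y0 ^ r ≤ 1 := pow_le_one₀ hy00.le hy01
    exact mul_le_of_le_one_right hnr.le this
  have hMn : (M : ℝ) ≤ n := by
    calc (M : ℝ) ≤ M * k := le_mul_of_one_le_right (Nat.cast_nonneg M) hkr
      _ ≤ θ * Nn := hM1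
      _ ≤ 1 * n := mul_le_mul hθ1 hNle hNpos.le (by norm_num)
      _ = n := one_mul _
  have hMN : M ≤ n := by exact_mod_cast hMn
  -- the hypotheses about the sets
  have hkσ : ∀ σ, (found A h k G σ).Nonempty → (found A h k G σ).card = k :=
    fun σ hσ => found_card A h k G σ hσ
  have hUσ : ∀ σ, found A h k G σ ⊆ inGroups n m g := fun σ => found_subset A h k G σ
  have hS' : St (found A h k G) (inGroups n m g) D κ Nn E (R + 1 - r + 1) C := by
    have e : R + 1 - r + 1 = R + 2 - r := by omega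
    rw [e]
    exact hS
  -- c1
  have c1 : k * E 2 ≤ κ * D := by
    calc k * E 2 ≤ k * (ps * x / (n : ℝ) ^ 2 * (qk ^ r * L ^ R)) :=
          mul_le_mul_of_nonneg_left hE2 hkpos.le
      _ = (x * L ^ R / n) * (ps * k / n * qk ^ r) := by
          field_simp
      _ ≤ w * (ps * k / n * qk ^ r) := by
          refine mul_le_mul_of_nonneg_right ?_ (by positivity)
          rw [div_le_iff₀ hnr]
          calc x * L ^ R ≤ x * x := by gcongr
            _ = x ^ 2 := by ring
            _ ≤ x ^ 15 := pow_le_pow_right₀ hx1 (by norm_num)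
            _ ≤ w * n := by linarith
      _ ≤ κ * D := mul_le_mul hκw hDge (by positivity) hκ0.le
  -- c2
  have c2 : 2 * (k : ℝ) ≤ κ * θ * Nn := by
    calc 2 * (k : ℝ) ≤ θ * y0 ^ R * x := hc2
      _ ≤ θ * y0 ^ R * (n * w) := by
          refine mul_le_mul_of_nonneg_left ?_ (by positivity)
          linarith
      _ = w * θ * (n * y0 ^ R) := by ring
      _ ≤ κ * θ * Nn := by gcongr
  -- c3
  have c3 : 4 * (k : ℝ) ^ 3 ≤ κ * Nn := by
    calc 4 * (k : ℝ) ^ 3 ≤ y0 ^ R * x := hc3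
      _ ≤ y0 ^ R * (n * w) := by
          refine mul_le_mul_of_nonneg_left ?_ (by positivity)
          linarith
      _ = w * (n * y0 ^ R) := by ring
      _ ≤ κ * Nn := by gcongr
  -- c4
  have c4 : (1 - aC (found A h k G) C) ^ (n ^ K) ≤ κ := by
    obtain ⟨s1, s2, s3⟩ := hS'
    have hκ12 : κ ≤ 1 / 12 := by
      have h1 : 1 * κ ≤ k * κ := mul_le_mul_of_nonneg_right hkr hκ0.le
      linarith only [h1, hκk]
    obtain ⟨a1, _⟩ := aC_bounds (found A h k G) hkσ hUσ C hDpos hκ0 (by linarith) s1 s3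
    set a := aC (found A h k G) C with ha
    have ha1 : a ≤ 1 := aC_le_one _ C
    have hage : ps * qk ^ r / 4 ≤ a := by
      have h1 : k * (ps * qk ^ r / 4) ≤ k * a := by
        calc k * (ps * qk ^ r / 4) = 1 / 4 * (n * (ps * k / n)) * qk ^ r := by
              field_simp
          _ ≤ (1 - κ) ^ 2 * (n * D0 ps k m g) * qk ^ r := by
              have : (1 : ℝ) / 4 ≤ (1 - κ) ^ 2 := by
                have e : (1 - κ) ^ 2 = 1 - 2 * κ + κ ^ 2 := by ring
                rw [e]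
                linarith only [sq_nonneg κ, hκ12]
              gcongr
          _ = (1 - κ) ^ 2 * (Nn * D) := by
              rw [hNn, hD, ← hyq, mul_pow]
              ring
          _ ≤ k * a := a1
      exact le_of_mul_le_mul_left h1 hkpos
    have hqr : (1 / x) ^ R ≤ qk ^ r := by
      calc (1 / x) ^ R ≤ qk ^ R := pow_le_pow_left₀ (by positivity) hqx R
        _ ≤ qk ^ r := pow_le_pow_of_le_one hqk0.le hqk1 hr.le
    have hxn : x ≤ n := by
      rw [hx]
      calc x = x ^ 1 := (pow_one x).symm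
        _ ≤ x ^ 16 := pow_le_pow_right₀ hx1 (by norm_num)
    have hn1 : (1 : ℝ) ≤ n := by linarith
    have hnR : (n : ℝ) ^ (-(R : ℝ)) ≤ qk ^ r := by
      refine le_trans ?_ hqr
      rw [Real.rpow_neg hnr.le, Real.rpow_natCast, one_div, inv_pow]
      exact inv_anti₀ (by positivity) (pow_le_pow_left₀ hx0.le hxn R)
    have hn4r : (4 : ℝ) ≤ n := by exact_mod_cast hn4
    have hexp : (n : ℝ) ≤ ((n ^ K : ℕ) : ℝ) * a := by
      have e1 : ((n ^ K : ℕ) : ℝ) = (n : ℝ) ^ (K : ℝ) := by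
        rw [Real.rpow_natCast]
        push_cast
        rfl
      rw [e1]
      calc (n : ℝ) = 4 * n / 4 := by ring
        _ ≤ n * n / 4 := by gcongr
        _ = (n : ℝ) ^ (2 : ℝ) / 4 := by
            norm_num
            ring
        _ ≤ (n : ℝ) ^ ((K : ℝ) + -c + -R) / 4 := by
            refine div_le_div_of_nonneg_right ?_ (by norm_num)
            exact Real.rpow_le_rpow_of_exponent_le hn1 (by linarith)
        _ = (n : ℝ) ^ (K : ℝ) * ((n : ℝ) ^ (-c) * (n : ℝ) ^ (-(R : ℝ)) / 4) := by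
            rw [Real.rpow_add hnr, Real.rpow_add hnr]
            ring
        _ ≤ (n : ℝ) ^ (K : ℝ) * (ps * qk ^ r / 4) := by
            have := Real.rpow_nonneg hnr.le (-(R : ℝ))
            gcongr
        _ ≤ (n : ℝ) ^ (K : ℝ) * a := by gcongr
    calc (1 - a) ^ (n ^ K) ≤ Real.exp (-a) ^ (n ^ K) :=
          pow_le_pow_left₀ (by linarith) (Real.one_sub_le_exp_neg a) _
      _ = Real.exp (-(((n ^ K : ℕ) : ℝ) * a)) := by
          rw [← Real.exp_nat_mul]
          congr 1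
          ring
      _ ≤ Real.exp (-(n : ℝ)) := Real.exp_le_exp.2 (by linarith)
      _ ≤ 1 / n := by
          rw [Real.exp_neg, one_div]
          refine inv_anti₀ hnr ?_
          have := Real.add_one_le_exp (n : ℝ)
          linarith
      _ ≤ 1 / x := div_le_div_of_nonneg_left (by norm_num) hx0 hxn
      _ ≤ κ := hw1.trans hκw
  -- c5
  have c5 : 2 * x ^ 4 * (M * (k * E 2) ^ 2) ≤ (κ * (D * q)) ^ 2 := by
    set T : ℝ := ps * k * qk ^ r with hT
    have hT0 : 0 < T := by positivity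
    have e1 : k * E 2 ≤ T * (x * L ^ R / x ^ 32) := by
      calc k * E 2 ≤ k * (ps * x / (n : ℝ) ^ 2 * (qk ^ r * L ^ R)) :=
            mul_le_mul_of_nonneg_left hE2 hkpos.le
        _ = _ := by
            rw [hT, hx]
            ring
    have e2 : T / x ^ 18 ≤ κ * (D * q) := by
      calc T / x ^ 18 = (1 / x) * (T / n * (1 / x)) := by
            rw [hx]
            field_simp
        _ ≤ κ * (D * q) := by
            refine mul_le_mul (hw1.trans hκw) ?_ (by positivity) hκ0.le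
            refine mul_le_mul ?_ (hqx.trans hqkq) (by positivity) hDpos.le
            refine le_trans (le_of_eq ?_) hDge
            rw [hT]
            ring
    have hkE0 : 0 ≤ k * E 2 := mul_nonneg hkpos.le (hEpos 2).le
    calc 2 * x ^ 4 * (M * (k * E 2) ^ 2)
        ≤ 2 * x ^ 4 * (x ^ 16 * (T * (x * L ^ R / x ^ 32)) ^ 2) := by
          rw [← hx]
          gcongr
      _ = (2 * L ^ (2 * R)) * (T ^ 2 * (x ^ 22 / x ^ 64)) := by
          rw [pow_mul' L 2 R]
          field_simp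
      _ ≤ x * (T ^ 2 * (x ^ 22 / x ^ 64)) := by gcongr
      _ ≤ x ^ 6 * (T ^ 2 * (x ^ 22 / x ^ 64)) := by
          refine mul_le_mul_of_nonneg_right ?_ (by positivity)
          calc x = x ^ 1 := (pow_one x).symm
            _ ≤ x ^ 6 := pow_le_pow_right₀ hx1 (by norm_num)
      _ = (T / x ^ 18) ^ 2 := by
          field_simp
      _ ≤ _ := pow_le_pow_left₀ (by positivity) e2 2
  -- c6
  have c6 : ∀ j, 2 ≤ j → j ≤ R + 1 - r →
      2 * x ^ 4 * (M * (k * E (j + 1)) ^ 2) ≤ (E j * qk) ^ 2 := by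
    intro j _ _
    rw [hEs]
    have hE0 := hEpos j
    calc 2 * x ^ 4 * (M * (k * (E j / n)) ^ 2)
        ≤ 2 * x ^ 4 * (n * (k * (E j / n)) ^ 2) := by gcongr
      _ = (2 * (k : ℝ) ^ 2) * (E j ^ 2 * (x ^ 4 / n)) := by
          field_simp
      _ ≤ x * (E j ^ 2 * (x ^ 4 / n)) := by gcongr
      _ = (E j * (1 / x)) ^ 2 * (x ^ 7 / x ^ 16) := by
          rw [hx]
          field_simp
      _ ≤ (E j * (1 / x)) ^ 2 * 1 := by
          refine mul_le_mul_of_nonneg_left ?_ (by positivity)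
          rw [div_le_one (by positivity)]
          exact pow_le_pow_right₀ hx1 (by norm_num)
      _ = (E j * (1 / x)) ^ 2 := mul_one _
      _ ≤ _ := by gcongr
  -- c7
  have c7 : 2 * x ^ 4 * (M * (k : ℝ) ^ 2) ≤ (κ * (Nn * y0)) ^ 2 := by
    have e2 : x ^ 15 * y0 ^ R ≤ κ * (Nn * y0) := by
      have h1 : y0 ^ R ≤ y0 ^ r * y0 := by
        rw [← pow_succ]
        exact pow_le_pow_of_le_one hy00.le hy01 (by omega)
      calc x ^ 15 * y0 ^ R ≤ (n * w) * (y0 ^ r * y0) := by
            refine mul_le_mul (by linarith) h1 hyR0.le (by positivity)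
        _ = w * (Nn * y0) := by rw [hNn]; ring
        _ ≤ _ := by gcongr
    calc 2 * x ^ 4 * (M * (k : ℝ) ^ 2) ≤ 2 * x ^ 4 * (n * (k : ℝ) ^ 2) := by gcongr
      _ = x ^ 20 * (2 * (k : ℝ) ^ 2) := by
          rw [hx]
          ring
      _ ≤ x ^ 20 * ((y0 ^ R) ^ 2 * x) := by gcongr
      _ = x ^ 21 * (y0 ^ R) ^ 2 := by ring
      _ ≤ x ^ 30 * (y0 ^ R) ^ 2 := by
          refine mul_le_mul_of_nonneg_right ?_ (by positivity)
          exact pow_le_pow_right₀ hx1 (by norm_num)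
      _ = (x ^ 15 * y0 ^ R) ^ 2 := by ring
      _ ≤ _ := pow_le_pow_left₀ (by positivity) e2 2
  have key := round_bad (found A h k G) (N := n) (M := M) (B := n ^ K) (j1 := R + 1 - r) hkσ hUσ C
    (L := L) (Lam := x ^ 4) hk1 hDpos hNpos hκ0 hκk hθ0 hθ1 hM1 hM2 hMN hEpos hS' (by omega)
    c1 c2 c3 c4 (by positivity) c5 c6 c7 (fun j hj => hL1 j (by omega))
  refine le_trans (le_of_eq (av_congr fun y => ?_)) key
  have e : StR A h k R G ps w θ L (r + 1) (C ∪ unionW (found A h k G) M C y)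
      ↔ St (found A h k G) (inGroups n m g) (D * q) (20 * k * κ) (Nn * y0)
        (fun j => E j * (qk * L)) (R + 1 - r) (C ∪ unionW (found A h k G) M C y) := by
    unfold StR
    have e1 : D0 ps k m g * q ^ (r + 1) = D * q := by rw [hD, pow_succ]; ring
    have e2 : w * (20 * (k : ℝ)) ^ (r + 1) = 20 * k * κ := by rw [hκ, pow_succ]; ring
    have e3 : (n : ℝ) * y0 ^ (r + 1) = Nn * y0 := by rw [hNn, pow_succ]; ring
    have e4 : (fun j => E0 ps n j * (qk * L) ^ (r + 1)) = fun j => E j * (qk * L) := by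
      funext j
      simp only [hE]
      rw [pow_succ]
      ring
    have e5 : R + 2 - (r + 1) = R + 1 - r := by omega
    rw [e1, e2, e3, e4, e5]
  by_cases hst : StR A h k R G ps w θ L (r + 1) (C ∪ unionW (found A h k G) M C y)
  · rw [if_neg (fun h' => h' hst), if_neg (fun h' => h' (e.1 hst))]
  · rw [if_pos hst, if_pos (fun h' => hst (e.2 h'))]

end Pool.Agent.H72.KarpS
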